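import Pool.Agent.H47.FD.A5d

/-!
# FH: convex functions on the unit ball instead of norms: definitions
-/

set_option autoImplicit false

open Filter Topology

namespace Pool.Agent.H47.FH

/-- `f` is convex on the open unit ball and twice differentiable there with the derivatives `D`,
`B`; `f`, `D`, `B` are bounded by `C` there and `v` is a modulus of continuity of `B`. -/
structure Fn {E : Type*} [NormedAddCommGroup E] [NormedSpace ℝ E] (C : ℝ) (v : ℝ → ℝ)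
    (f : E → ℝ) (D : E → E →L[ℝ] ℝ) (B : E → E →L[ℝ] E →L[ℝ] ℝ) : Prop where
  cvx : ConvexOn ℝ (Metric.ball (0 : E) 1) f
  d1 : ∀ x : E, ‖x‖ < 1 → HasFDerivAt f (D x) x
  d2 : ∀ x : E, ‖x‖ < 1 → HasFDerivAt D (B x) x
  bf : ∀ x : E, ‖x‖ < 1 → |f x| ≤ C
  bD : ∀ x : E, ‖x‖ < 1 → ‖D x‖ ≤ C
  bB : ∀ x : E, ‖x‖ < 1 → ‖B x‖ ≤ C
  uc : ∀ t : ℝ, 0 < t → ∀ x y : E, ‖x‖ < 1 → ‖y‖ < 1 → ‖x - y‖ ≤ v t → ‖B x - B y‖ ≤ t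

/-- The convexity gap at the midpoint. -/
noncomputable def gap {E : Type*} [NormedAddCommGroup E] [NormedSpace ℝ E] (f : E → ℝ)
    (x y : E) : ℝ := f x + f y - 2 * f ((1 / 2 : ℝ) • (x + y))

/-- For every finite family of pairs at distance at least `e` in the open unit ball and all
weights there is a function as in `Fn` whose average gap is at least `d`. -/
def Avg (e C d : ℝ) (v : ℝ → ℝ) (E : Type*) [NormedAddCommGroup E] [NormedSpace ℝ E] : Prop :=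
  ∀ (n : ℕ) (p : Fin n → ℝ) (x y : Fin n → E), (∀ i, 0 ≤ p i) → ∑ i, p i = 1 →
    (∀ i, ‖x i‖ < 1 ∧ ‖y i‖ < 1 ∧ e ≤ ‖x i - y i‖) →
      ∃ (f : E → ℝ) (D : E → E →L[ℝ] ℝ) (B : E → E →L[ℝ] E →L[ℝ] ℝ),
        Fn C v f D B ∧ d ≤ ∑ i, p i * gap f (x i) (y i)

variable {X : Type*} [NormedAddCommGroup X] [NormedSpace ℝ X]

/-- Estimates for a function, its first and its second derivative on the unit ball of the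
subspace `S`. -/
structure EstB (C : ℝ) (v : ℝ → ℝ) (S : Submodule ℝ X) (f : X → ℝ) (D : X → X → ℝ)
    (B : X → X → X → ℝ) : Prop where
  bf : ∀ x ∈ S, ‖x‖ < 1 → |f x| ≤ C
  cvx : ∀ x ∈ S, ∀ y ∈ S, ‖x‖ < 1 → ‖y‖ < 1 → ∀ a b : ℝ, 0 ≤ a → 0 ≤ b → a + b = 1 →
    f (a • x + b • y) ≤ a * f x + b * f y
  Dadd : ∀ x ∈ S, ‖x‖ < 1 → ∀ h ∈ S, ∀ k ∈ S, D x (h + k) = D x h + D x k
  Dsmul : ∀ x ∈ S, ‖x‖ < 1 → ∀ (t : ℝ), ∀ h ∈ S, D x (t • h) = t * D x h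
  Dbd : ∀ x ∈ S, ‖x‖ < 1 → ∀ h ∈ S, |D x h| ≤ C * ‖h‖
  Badd₁ : ∀ x ∈ S, ‖x‖ < 1 → ∀ h ∈ S, ∀ h' ∈ S, ∀ k ∈ S, B x (h + h') k = B x h k + B x h' k
  Bsmul₁ : ∀ x ∈ S, ‖x‖ < 1 → ∀ (t : ℝ), ∀ h ∈ S, ∀ k ∈ S, B x (t • h) k = t * B x h k
  Badd₂ : ∀ x ∈ S, ‖x‖ < 1 → ∀ h ∈ S, ∀ k ∈ S, ∀ k' ∈ S, B x h (k + k') = B x h k + B x h k'
  Bsmul₂ : ∀ x ∈ S, ‖x‖ < 1 → ∀ (t : ℝ), ∀ h ∈ S, ∀ k ∈ S, B x h (t • k) = t * B x h k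
  Bbd : ∀ x ∈ S, ‖x‖ < 1 → ∀ h ∈ S, ∀ k ∈ S, |B x h k| ≤ C * ‖h‖ * ‖k‖
  e1 : ∀ x ∈ S, ∀ h ∈ S, ‖x‖ < 1 → ‖x + h‖ < 1 → |f (x + h) - f x - D x h| ≤ C * ‖h‖ ^ 2
  e2 : ∀ t : ℝ, 0 < t → ∀ x ∈ S, ∀ h ∈ S, ∀ k ∈ S, ‖x‖ < 1 → ‖x + h‖ < 1 → ‖h‖ ≤ v t →
    |D (x + h) k - D x k - B x h k| ≤ t * ‖h‖ * ‖k‖
  uc : ∀ t : ℝ, 0 < t → ∀ x ∈ S, ∀ y ∈ S, ∀ h ∈ S, ∀ k ∈ S, ‖x‖ < 1 → ‖y‖ < 1 →
    ‖x - y‖ ≤ v t → |B x h k - B y h k| ≤ t * ‖h‖ * ‖k‖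

open Pool.Agent.H47.FD

/-- `Q` is an even convex function on the open unit ball, twice differentiable with the
derivatives `D`, `B`, `B` uniformly continuous; `Q 0 = 0` and `a < Q` off the ball of radius
`ρ`. -/
structure LV (Q : X → ℝ) (D : X → X →L[ℝ] ℝ) (B : X → X →L[ℝ] X →L[ℝ] ℝ) (ρ a : ℝ) : Prop where
  cvx : ConvexOn ℝ (Metric.ball (0 : X) 1) Q
  even : ∀ x, Q (-x) = Q x
  Q0 : Q 0 = 0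
  d1 : ∀ x, ‖x‖ < 1 → HasFDerivAt Q (D x) x
  d2 : ∀ x, ‖x‖ < 1 → HasFDerivAt D (B x) x
  uc : UOn B (Metric.ball 0 1)
  hρ : 0 < ρ
  hρ1 : ρ < 1
  ha : 0 < a
  low : ∀ x, ρ ≤ ‖x‖ → ‖x‖ < 1 → a < Q x

/-- The sublevel set. -/
def VV (Q : X → ℝ) (a : ℝ) : Set X := {x : X | ‖x‖ < 1 ∧ Q x ≤ a}

end Pool.Agent.H47.FH
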