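import Pool.Agent.H47.FH.D

/-!
# G1: the gauge of the sublevel set
-/

set_option autoImplicit false

open Filter Topology

namespace Pool.Agent.H47.FH

open Pool.Agent.H47.SR Pool.Agent.H47.SS Pool.Agent.H47.FD

variable {X : Type*} [NormedAddCommGroup X] [NormedSpace ℝ X]

private theorem LV.scale {Q : X → ℝ} {D : X → X →L[ℝ] ℝ} {B : X → X →L[ℝ] X →L[ℝ] ℝ} {ρ a : ℝ}
    (h : LV Q D B ρ a) {t : ℝ} (h0 : 0 ≤ t) (h1 : t ≤ 1) {x : X} (hx : ‖x‖ < 1) :
    Q (t • x) ≤ t * Q x := by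
  have hx' : x ∈ Metric.ball (0 : X) 1 := by rwa [mem_ball_zero_iff]
  have h00 : (0 : X) ∈ Metric.ball (0 : X) 1 := Metric.mem_ball_self one_pos
  have h2 := h.cvx.2 hx' h00 h0 (sub_nonneg.2 h1) (by ring)
  rw [smul_zero, add_zero, h.Q0, smul_zero, add_zero, smul_eq_mul] at h2
  exact h2

private theorem LV.norm_lt {Q : X → ℝ} {D : X → X →L[ℝ] ℝ} {B : X → X →L[ℝ] X →L[ℝ] ℝ} {ρ a : ℝ}
    (h : LV Q D B ρ a) {x : X} (hx : x ∈ VV Q a) : ‖x‖ < ρ := by
  by_contra hn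
  exact absurd hx.2 (not_le.2 (h.low x (not_lt.1 hn) hx.1))

private theorem LV.convexV {Q : X → ℝ} {D : X → X →L[ℝ] ℝ} {B : X → X →L[ℝ] X →L[ℝ] ℝ} {ρ a : ℝ}
    (h : LV Q D B ρ a) : Convex ℝ (VV Q a) := by
  have h1 := h.cvx.convex_le a
  have h2 : VV Q a = {x ∈ Metric.ball (0 : X) 1 | Q x ≤ a} := by
    ext x
    constructor
    · intro hx
      exact ⟨by rw [mem_ball_zero_iff]; exact hx.1, hx.2⟩
    · intro hx
      exact ⟨by rw [← mem_ball_zero_iff]; exact hx.1, hx.2⟩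
  rw [h2]
  exact h1

private theorem LV.nhds_lt {Q : X → ℝ} {D : X → X →L[ℝ] ℝ} {B : X → X →L[ℝ] X →L[ℝ] ℝ} {ρ a : ℝ}
    (h : LV Q D B ρ a) {x : X} (hx : ‖x‖ < 1) (hQ : Q x < a) : VV Q a ∈ 𝓝 x := by
  have h1 : ∀ᶠ y in 𝓝 x, Q y < a := (h.d1 x hx).continuousAt.eventually (gt_mem_nhds hQ)
  have h2 : Metric.ball (0 : X) 1 ∈ 𝓝 x :=
    Metric.isOpen_ball.mem_nhds (by rw [mem_ball_zero_iff]; exact hx)
  filter_upwards [h1, h2] with y hy1 hy2
  exact ⟨by rw [← mem_ball_zero_iff]; exact hy2, hy1.le⟩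

private theorem LV.nhdsV {Q : X → ℝ} {D : X → X →L[ℝ] ℝ} {B : X → X →L[ℝ] X →L[ℝ] ℝ} {ρ a : ℝ}
    (h : LV Q D B ρ a) : VV Q a ∈ 𝓝 (0 : X) :=
  h.nhds_lt (by rw [norm_zero]; exact one_pos) (by rw [h.Q0]; exact h.ha)

private theorem LV.closedV {Q : X → ℝ} {D : X → X →L[ℝ] ℝ} {B : X → X →L[ℝ] X →L[ℝ] ℝ} {ρ a : ℝ}
    (h : LV Q D B ρ a) : IsClosed (VV Q a) := by
  have h2 : VV Q a = Metric.closedBall (0 : X) ρ ∩ Q ⁻¹' Set.Iic a := by
    ext x
    constructor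
    · intro hx
      exact ⟨by rw [mem_closedBall_zero_iff]; exact (h.norm_lt hx).le, hx.2⟩
    · intro hx
      have h3 : ‖x‖ ≤ ρ := by
        rw [← mem_closedBall_zero_iff]
        exact hx.1
      exact ⟨h3.trans_lt h.hρ1, hx.2⟩
  rw [h2]
  refine ContinuousOn.preimage_isClosed_of_isClosed ?_ Metric.isClosed_closedBall isClosed_Iic
  intro x hx
  have h3 : ‖x‖ ≤ ρ := by
    rw [← mem_closedBall_zero_iff]
    exact hx
  exact (h.d1 x (h3.trans_lt h.hρ1)).continuousAt.continuousWithinAt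

private theorem tangent_leB {f : X → ℝ} {f' : X →L[ℝ] ℝ} {z : X}
    (hf : ConvexOn ℝ (Metric.ball (0 : X) 1) f) (h : HasFDerivAt f f' z) {v : X}
    (hz : z ∈ Metric.ball (0 : X) 1) (hv : z + v ∈ Metric.ball (0 : X) 1) :
    f z + f' v ≤ f (z + v) := by
  have hl : HasFDerivAt f f' (z + (0 : ℝ) • v) := by
    rw [zero_smul, add_zero]
    exact h
  have hd : HasDerivAt (fun t : ℝ => z + t • v) v 0 := by
    have h1 := ((hasDerivAt_id (0 : ℝ)).smul_const v).const_add z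
    rw [one_smul] at h1
    exact h1
  have hg : HasDerivAt (fun t : ℝ => f (z + t • v)) (f' v) 0 := hl.comp_hasDerivAt (0 : ℝ) hd
  have ht := hg.tendsto_slope_zero_right
  have hev : ∀ᶠ t in 𝓝[>] (0 : ℝ), t⁻¹ • (f (z + (0 + t) • v) - f (z + (0 : ℝ) • v)) ≤ f (z + v) - f z := by
    have h1 : ∀ᶠ t in 𝓝[>] (0 : ℝ), t < 1 := nhdsWithin_le_nhds (gt_mem_nhds one_pos)
    filter_upwards [self_mem_nhdsWithin, h1] with t ht0 ht1
    have ht0' : 0 < t := ht0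
    rw [zero_add, zero_smul, add_zero, smul_eq_mul, inv_mul_le_iff₀ ht0']
    have h2 := hf.2 hz hv (show (0 : ℝ) ≤ 1 - t by linarith) ht0'.le
      (show (1 - t) + t = 1 by ring)
    have h3 : (1 - t) • z + t • (z + v) = z + t • v := by
      rw [sub_smul, one_smul, smul_add]
      abel
    rw [h3, smul_eq_mul, smul_eq_mul] at h2
    linarith
  have h4 := le_of_tendsto ht hev
  linarith

/-- ROW G1a. `V = VV Q a` is convex, symmetric, contained in the open ball of radius `ρ` (`low`) and contains a ball around `0` (`Q` is continuous at `0`, `Q 0 = 0`). See FD/A5a.lean (`LQ.eqNorm`) for the proof when `Q` is globally defined. -/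
theorem LV.eqNorm {Q : X → ℝ} {D : X → X →L[ℝ] ℝ} {B : X → X →L[ℝ] X →L[ℝ] ℝ} {ρ a : ℝ}
    (h : LV Q D B ρ a) : EqNorm (gauge (VV Q a)) ∧ (∀ x, ‖x‖ ≤ ρ * gauge (VV Q a) x) ∧
      ∀ r : ℝ, 0 < r → (∀ x, ‖x‖ ≤ r → Q x ≤ a) → r < 1 →
        ∀ x, gauge (VV Q a) x ≤ ‖x‖ / r := by
  have hab : Absorbent ℝ (VV Q a) := absorbent_nhds_zero h.nhdsV
  have hlow : ∀ x : X, ‖x‖ / ρ ≤ gauge (VV Q a) x := by
    intro x
    have h1 : gauge (Metric.ball (0 : X) ρ) x ≤ gauge (VV Q a) x :=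
      gauge_mono hab (fun y hy => by
        rw [mem_ball_zero_iff]
        exact h.norm_lt hy) x
    rw [gauge_ball h.hρ.le] at h1
    exact h1
  have hup : ∀ r : ℝ, 0 < r → Metric.ball (0 : X) r ⊆ VV Q a → ∀ x : X,
      gauge (VV Q a) x ≤ ‖x‖ / r := by
    intro r hr hrV x
    have h1 : gauge (VV Q a) x ≤ gauge (Metric.ball (0 : X) r) x :=
      gauge_mono (absorbent_ball_zero hr) hrV x
    rw [gauge_ball hr.le] at h1
    exact h1
  refine ⟨⟨?_, gauge_add_le h.convexV hab, ?_⟩, ?_, ?_⟩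
  · obtain ⟨r, hr, hrV⟩ := Metric.mem_nhds_iff.1 h.nhdsV
    refine ⟨1 / ρ, 1 / r, one_div_pos.2 h.hρ, one_div_pos.2 hr, fun x => ⟨?_, ?_⟩⟩
    · calc 1 / ρ * ‖x‖ = ‖x‖ / ρ := by ring
        _ ≤ _ := hlow x
    · calc _ ≤ ‖x‖ / r := hup r hr hrV x
        _ = 1 / r * ‖x‖ := by ring
  · intro t x
    have hneg : ∀ y : X, gauge (VV Q a) (-y) = gauge (VV Q a) y :=
      gauge_neg fun y (hy : y ∈ VV Q a) =>
        show ‖-y‖ < 1 ∧ Q (-y) ≤ a by rw [h.even, norm_neg]; exact hy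
    rcases le_total 0 t with ht | ht
    · rw [gauge_smul_of_nonneg ht, abs_of_nonneg ht, smul_eq_mul]
    · have h1 : t • x = -((-t) • x) := by rw [neg_smul, neg_neg]
      rw [h1, hneg, gauge_smul_of_nonneg (neg_nonneg.2 ht), abs_of_nonpos ht, smul_eq_mul]
  · intro x
    have h1 := hlow x
    rw [div_le_iff₀ h.hρ] at h1
    linarith
  · intro r hr hQ hr1 x
    refine hup r hr (fun y hy => ?_) x
    rw [mem_ball_zero_iff] at hy
    exact ⟨hy.trans hr1, hQ y hy.le⟩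

/-- ROW G1c. `gauge ≤ 1` means belonging to the set (it is closed, being contained in the ball of radius `ρ < 1`). -/
theorem LV.le_one {Q : X → ℝ} {D : X → X →L[ℝ] ℝ} {B : X → X →L[ℝ] X →L[ℝ] ℝ} {ρ a : ℝ}
    (h : LV Q D B ρ a) (u : X) : gauge (VV Q a) u ≤ 1 ↔ u ∈ VV Q a := by
  rw [gauge_le_one_iff_mem_closure h.convexV h.nhdsV, h.closedV.closure_eq]

/-- ROW G1b. See FD/A5a.lean (`LQ.level`). -/
theorem LV.level {Q : X → ℝ} {D : X → X →L[ℝ] ℝ} {B : X → X →L[ℝ] X →L[ℝ] ℝ} {ρ a : ℝ}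
    (h : LV Q D B ρ a) (u : X) : gauge (VV Q a) u = 1 ↔ ‖u‖ < 1 ∧ Q u = a := by
  have hab : Absorbent ℝ (VV Q a) := absorbent_nhds_zero h.nhdsV
  have h2 : gauge (VV Q a) u < 1 ↔ ‖u‖ < 1 ∧ Q u < a := by
    constructor
    · intro hg
      obtain ⟨b, hb0, hb1, v, hv, rfl⟩ := exists_lt_of_gauge_lt hab hg
      have h3 := h.scale hb0.le hb1.le hv.1
      have h4 : Q v ≤ a := hv.2
      have h5 : b * Q v ≤ b * a := mul_le_mul_of_nonneg_left h4 hb0.le
      have h6 : b * a < 1 * a := mul_lt_mul_of_pos_right hb1 h.ha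
      have h7 : ‖b • v‖ < 1 := by
        rw [norm_smul, Real.norm_of_nonneg hb0.le]
        have h8 : b * ‖v‖ ≤ 1 * ‖v‖ := mul_le_mul_of_nonneg_right hb1.le (norm_nonneg v)
        linarith [hv.1]
      refine ⟨h7, ?_⟩
      show Q (b • v) < a
      linarith
    · intro hg
      rw [gauge_lt_one_iff_mem_interior h.convexV h.nhdsV]
      exact mem_interior_iff_mem_nhds.2 (h.nhds_lt hg.1 hg.2)
  constructor
  · intro hg
    have h3 : u ∈ VV Q a := (h.le_one u).1 hg.le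
    refine ⟨h3.1, le_antisymm h3.2 ?_⟩
    by_contra hn
    exact absurd (h2.2 ⟨h3.1, not_le.1 hn⟩) (by rw [hg]; exact lt_irrefl _)
  · intro hg
    refine le_antisymm ((h.le_one u).2 ⟨hg.1, hg.2.le⟩) ?_
    by_contra hn
    exact absurd (h2.1 (not_le.1 hn)).2 (by rw [hg.2]; exact lt_irrefl _)

/-- ROW G1d. Tangent inequality in the ball (`tangent_le` in FD/A4a.lean for globally convex functions): `Q 0 ≥ Q u - D u u`; for `v ≠ 0`, `w = v / gauge V v` has `Q w = a` and `Q w ≥ Q u + D u (w - u)`, so `D u w ≤ D u u`. -/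
theorem LV.grad {Q : X → ℝ} {D : X → X →L[ℝ] ℝ} {B : X → X →L[ℝ] X →L[ℝ] ℝ} {ρ a : ℝ}
    (h : LV Q D B ρ a) {u : X} (hu1 : ‖u‖ < 1) (hu : Q u = a) : a ≤ D u u ∧
      ∀ v : X, D u v ≤ D u u * gauge (VV Q a) v := by
  have hub : u ∈ Metric.ball (0 : X) 1 := by rwa [mem_ball_zero_iff]
  constructor
  · have h1 := tangent_leB h.cvx (h.d1 u hu1) (v := -u) hub
      (by rw [add_neg_cancel]; exact Metric.mem_ball_self one_pos)
    rw [map_neg, add_neg_cancel, h.Q0, hu] at h1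
    linarith
  · intro v
    by_cases hv : v = 0
    · subst hv
      rw [map_zero, gauge_zero, mul_zero]
    · obtain ⟨⟨b, c, hb, -, hbc⟩, -, hsm⟩ := h.eqNorm.1
      have hg : 0 < gauge (VV Q a) v :=
        (mul_pos hb (norm_pos_iff.2 hv)).trans_le (hbc v).1
      set g := gauge (VV Q a) v with hgdef
      have h1 : gauge (VV Q a) (g⁻¹ • v) = 1 := by
        rw [hsm, abs_of_pos (inv_pos.2 hg), ← hgdef, inv_mul_cancel₀ hg.ne']
      have h2 := (h.level _).1 h1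
      have h3 := tangent_leB h.cvx (h.d1 u hu1) (v := g⁻¹ • v - u) hub
        (by rw [add_sub_cancel, mem_ball_zero_iff]; exact h2.1)
      rw [add_sub_cancel, h2.2, hu, map_sub, map_smul, smul_eq_mul] at h3
      have h4 : g⁻¹ * D u v ≤ D u u := by linarith
      calc D u v = g * (g⁻¹ * D u v) := by rw [mul_inv_cancel_left₀ hg.ne']
        _ ≤ g * D u u := mul_le_mul_of_nonneg_left h4 hg.le
        _ = D u u * g := mul_comm _ _

end Pool.Agent.H47.FH
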