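import Pool.Agent.H47.FH.G1
import Pool.Agent.H47.FD.A5c
import Pool.Agent.H47.FD.A5e

/-!
# G2: the gauge has a uniformly continuous second derivative
-/

set_option autoImplicit false

open Filter Topology

namespace Pool.Agent.H47.FH

open Pool.Agent.H47.SR Pool.Agent.H47.SS Pool.Agent.H47.FD

variable {X : Type*} [NormedAddCommGroup X] [NormedSpace ℝ X]

theorem g2_facts {Q : X → ℝ} {D : X → X →L[ℝ] ℝ} {B : X → X →L[ℝ] X →L[ℝ] ℝ} {ρ a : ℝ}
    (h : LV Q D B ρ a) {x : X} (hx : x ≠ 0) :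
    D (uu (gauge (VV Q a)) x) (uu (gauge (VV Q a)) x) ≠ 0 ∧
      (∀ v : X, Dn (gauge (VV Q a)) D x v ≤ gauge (VV Q a) v) ∧
      Dn (gauge (VV Q a)) D x x = gauge (VV Q a) x := by
  set N : X → ℝ := gauge (VV Q a) with hN
  have hE : EqNorm N := h.eqNorm.1
  have hpos : 0 < N x := a5b_pos hE hx
  have hNu : N (uu N x) = 1 := by
    unfold uu
    rw [hE.2.2, abs_of_pos (inv_pos.2 hpos)]
    exact inv_mul_cancel₀ hpos.ne'
  obtain ⟨q1, q2⟩ := (h.level (uu N x)).1 hNu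
  obtain ⟨g1, g2⟩ := h.grad q1 q2
  have hD : 0 < D (uu N x) (uu N x) := by
    have := h.ha
    linarith
  refine ⟨hD.ne', fun v => ?_, ?_⟩
  · show (D (uu N x) (uu N x))⁻¹ * D (uu N x) v ≤ N v
    rw [inv_mul_le_iff₀ hD]
    exact g2 v
  · show (D (uu N x) (uu N x))⁻¹ * D (uu N x) x = N x
    have e : D (uu N x) x = N x * D (uu N x) (uu N x) := by
      have e1 : x = N x • uu N x := by
        unfold uu
        rw [smul_smul, mul_inv_cancel₀ hpos.ne', one_smul]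
      have e2 : D (uu N x) (N x • uu N x) = N x * D (uu N x) (uu N x) := by
        rw [map_smul, smul_eq_mul]
      rw [← e1] at e2
      exact e2
    rw [e]
    field_simp

theorem g2_lt {Q : X → ℝ} {D : X → X →L[ℝ] ℝ} {B : X → X →L[ℝ] X →L[ℝ] ℝ} {ρ a : ℝ}
    (h : LV Q D B ρ a) {x : X} (hx : x ≠ 0) : ‖uu (gauge (VV Q a)) x‖ < 1 := by
  have hE : EqNorm (gauge (VV Q a)) := h.eqNorm.1
  have hpos : 0 < gauge (VV Q a) x := a5b_pos hE hx
  have hNu : gauge (VV Q a) (uu (gauge (VV Q a)) x) = 1 := by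
    unfold uu
    rw [hE.2.2, abs_of_pos (inv_pos.2 hpos)]
    exact inv_mul_cancel₀ hpos.ne'
  exact ((h.level _).1 hNu).1

theorem g2_contAt {Q : X → ℝ} {D : X → X →L[ℝ] ℝ} {B : X → X →L[ℝ] X →L[ℝ] ℝ} {ρ a : ℝ}
    (h : LV Q D B ρ a) {x : X} (hx : x ≠ 0) :
    ContinuousAt (Dn (gauge (VV Q a)) D) x := by
  obtain ⟨f1, -, -⟩ := g2_facts h hx
  have hu1 := g2_lt h hx
  set N : X → ℝ := gauge (VV Q a) with hN
  have hE : EqNorm N := h.eqNorm.1
  have hpos : 0 < N x := a5b_pos hE hx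
  have hu : ContinuousAt (uu N) x := by
    have h1 : ContinuousAt (fun y => (N y)⁻¹ • y) x :=
      ((a5b_cont hE).continuousAt.inv₀ hpos.ne').smul continuousAt_id
    exact h1
  have hDu : ContinuousAt (fun y => D (uu N y)) x :=
    ContinuousAt.comp (g := D) (h.d2 (uu N x) hu1).continuousAt hu
  have h2 : ContinuousAt (fun y => D (uu N y) (uu N y)) x := hDu.clm_apply hu
  have h3 : ContinuousAt (fun y => (D (uu N y) (uu N y))⁻¹ • D (uu N y)) x :=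
    (h2.inv₀ f1).smul hDu
  exact h3

/-- ROW G2a. The proof of `LQ.hasFDerivAt` (FD/A5b.lean) with `LV` in place of `LQ` (`Dn`, `uu` are defined there). -/
theorem LV.hasFDerivAt {Q : X → ℝ} {D : X → X →L[ℝ] ℝ} {B : X → X →L[ℝ] X →L[ℝ] ℝ} {ρ a : ℝ}
    (h : LV Q D B ρ a) {x : X} (hx : x ≠ 0) :
    HasFDerivAt (gauge (VV Q a)) (Dn (gauge (VV Q a)) D x) x := by
  have hcont := g2_contAt h hx
  obtain ⟨f1, f2, f3⟩ := g2_facts h hx
  rw [hasFDerivAt_iff_isLittleO, Asymptotics.isLittleO_iff]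
  intro ε hε
  have hev : ∀ᶠ y in 𝓝 x, dist (Dn (gauge (VV Q a)) D y)
      (Dn (gauge (VV Q a)) D x) < ε := hcont (Metric.ball_mem_nhds _ hε)
  filter_upwards [hev, isOpen_ne.mem_nhds hx] with y hy hy0
  have hy0' : y ≠ 0 := hy0
  obtain ⟨-, g2, g3⟩ := g2_facts h hy0'
  rw [dist_eq_norm] at hy
  have e1 : Dn (gauge (VV Q a)) D x (y - x) =
      Dn (gauge (VV Q a)) D x y - Dn (gauge (VV Q a)) D x x := map_sub _ _ _
  have e2 : Dn (gauge (VV Q a)) D y (y - x) =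
      Dn (gauge (VV Q a)) D y y - Dn (gauge (VV Q a)) D y x := map_sub _ _ _
  have e3 : (Dn (gauge (VV Q a)) D y - Dn (gauge (VV Q a)) D x) (y - x) =
      Dn (gauge (VV Q a)) D y (y - x) - Dn (gauge (VV Q a)) D x (y - x) := rfl
  have e4 := (Dn (gauge (VV Q a)) D y -
    Dn (gauge (VV Q a)) D x).le_opNorm (y - x)
  rw [e3, Real.norm_eq_abs] at e4
  have e5 := (le_abs_self _).trans e4
  have e6 : ‖Dn (gauge (VV Q a)) D y - Dn (gauge (VV Q a)) D x‖ * ‖y - x‖ ≤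
      ε * ‖y - x‖ := mul_le_mul_of_nonneg_right hy.le (norm_nonneg _)
  have k1 := f2 y
  have k2 := g2 x
  rw [Real.norm_eq_abs, abs_le]
  have hnn : 0 ≤ ε * ‖y - x‖ := mul_nonneg hε.le (norm_nonneg _)
  constructor
  · linarith
  · linarith

/-- ROW G2b. The proof of `LQ.BU_B1` (FD/A5e.lean) with `LV` in place of `LQ`. -/
theorem LV.BU_B1 {Q : X → ℝ} {D : X → X →L[ℝ] ℝ} {B : X → X →L[ℝ] X →L[ℝ] ℝ} {ρ a : ℝ}
    (h : LV Q D B ρ a) : BU (B1 D B) {u : X | ‖u‖ < 1 ∧ Q u = a} := by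
  obtain ⟨S, hS⟩ : ∃ S : Set X, S = {u : X | ‖u‖ < 1 ∧ Q u = a} := ⟨_, rfl⟩
  rw [← hS]
  have hSb : S ⊆ Metric.ball 0 1 := by
    intro u hu
    rw [hS] at hu
    rw [mem_ball_zero_iff]
    exact hu.1
  have hBball : BU B (Metric.ball 0 1) := UOn.bounded (G := X →L[ℝ] X →L[ℝ] ℝ) h.uc
  have hDball : BU D (Metric.ball 0 1) := by
    obtain ⟨_, C, hC⟩ := hBball
    exact BU.of_deriv (G := X →L[ℝ] ℝ) (fun y hy => h.d2 y (mem_ball_zero_iff.1 hy)) hC
  have hB : BU B S := a5e_mono (G := X →L[ℝ] X →L[ℝ] ℝ) hBball hSb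
  have hD : BU D S := a5e_mono (G := X →L[ℝ] ℝ) hDball hSb
  have hi : BU (fun x : X => x) S := by
    refine ⟨fun ε hε => ⟨ε, hε, fun x _ y _ hxy => hxy⟩, 1, fun x hx => ?_⟩
    have := hSb hx
    rw [mem_ball_zero_iff] at this
    exact this.le
  have hDuu : BU (fun u => D u u) S := BU.apply (G := ℝ) hD hi
  have hc : 0 < a := h.ha
  have hlow : ∀ u ∈ S, a ≤ D u u := by
    intro u hu
    rw [hS] at hu
    exact (h.grad hu.1 hu.2).1
  have hai : BU (fun u => (D u u)⁻¹) S := BU.inv hDuu hc hlow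
  have ha2 : BU (fun u => (D u u) ^ 2) S := by
    have h1 := BU.smul (G := ℝ) hDuu hDuu
    have e : (fun u => D u u • D u u) = fun u => (D u u) ^ 2 := by
      ext u
      rw [smul_eq_mul, sq]
    rwa [e] at h1
  have ha2i : BU (fun u => ((D u u) ^ 2)⁻¹) S := by
    refine BU.inv ha2 (d := a ^ 2) (by positivity) ?_
    intro u hu
    exact pow_le_pow_left₀ hc.le (hlow u hu) 2
  have haD : BU (fun u => (D u u)⁻¹ • D u) S := BU.smul (G := X →L[ℝ] ℝ) hai hD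
  have hR : BU (fun u => ((D u u)⁻¹ • D u).smulRight u) S := BU.smulRight (G := X) haD hi
  have hP : BU (P1 D) S := a5e_sub (G := X →L[ℝ] X) (a5e_const (ContinuousLinearMap.id ℝ X) S) hR
  have hBP : BU (fun u => (B u).comp (P1 D u)) S := BU.comp (G := X →L[ℝ] ℝ) (H := X) hB hP
  have hDP : BU (fun u => (D u).comp (P1 D u)) S := BU.comp (G := ℝ) (H := X) hD hP
  have hF : BU (fun u => ((B u).comp (P1 D u)).flip u) S := BU.flip_apply hBP hi
  have hT1 : BU (fun u => (D u u)⁻¹ • (B u).comp (P1 D u)) S :=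
    BU.smul (G := X →L[ℝ] X →L[ℝ] ℝ) hai hBP
  have hA : BU (fun u => ((B u).comp (P1 D u)).flip u + (D u).comp (P1 D u)) S :=
    BU.add (G := X →L[ℝ] ℝ) hF hDP
  have hT2' : BU (fun u => (((B u).comp (P1 D u)).flip u + (D u).comp (P1 D u)).smulRight (D u)) S :=
    BU.smulRight (G := X →L[ℝ] ℝ) hA hD
  have hT2 := BU.smul (G := X →L[ℝ] X →L[ℝ] ℝ) ha2i hT2'
  exact a5e_sub (G := X →L[ℝ] X →L[ℝ] ℝ) hT1 hT2

/-- ROW G2c. The proof of `LQ.unifC2` (FD/A5e.lean) with `LV` in place of `LQ`. -/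
theorem LV.unifC2 {Q : X → ℝ} {D : X → X →L[ℝ] ℝ} {B : X → X →L[ℝ] X →L[ℝ] ℝ} {ρ a : ℝ}
    (h : LV Q D B ρ a) : UnifC2 (gauge (VV Q a)) := by
  obtain ⟨N, hNdef⟩ : ∃ N : X → ℝ, N = gauge (VV Q a) := ⟨_, rfl⟩
  have hE : EqNorm N := by rw [hNdef]; exact h.eqNorm.1
  have hlev : ∀ u, N u = 1 ↔ (‖u‖ < 1 ∧ Q u = a) := by
    intro u
    rw [hNdef]
    exact h.level u
  have hpos : ∀ x, x ≠ 0 → 0 < N x := by
    intro x hx
    obtain ⟨⟨b, C, hb0, hC, hb⟩, _, _⟩ := hE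
    have h1 := (hb x).1
    have h2 : 0 < b * ‖x‖ := mul_pos hb0 (norm_pos_iff.mpr hx)
    linarith
  have hN0 : N 0 = 0 := by
    have h1 := hE.2.2 0 0
    simpa using h1
  have huu : ∀ x, x ≠ 0 → N (uu N x) = 1 := by
    intro x hx
    have h1 := hpos x hx
    unfold uu
    rw [hE.2.2, abs_of_pos (inv_pos.mpr h1), inv_mul_cancel₀ h1.ne']
  have hlv : ∀ x, x ≠ 0 → (‖uu N x‖ < 1 ∧ Q (uu N x) = a) := fun x hx => (hlev _).1 (huu x hx)
  have hd : ∀ x, x ≠ 0 → HasFDerivAt N (Dn N D x) x := by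
    intro x hx
    rw [hNdef]
    exact h.hasFDerivAt hx
  have hc : 0 < a := h.ha
  have hBU := h.BU_B1.1
  rw [← hNdef]
  refine unifC2_of_hasFDerivAt (Dn N D) (fun x => (N x)⁻¹ • B1 D B (uu N x)) hd ?_ ?_ ?_ ?_
  · intro x hx
    have h1 := (h.grad (hlv x hx).1 (hlv x hx).2).1
    have h2 : D (uu N x) (uu N x) ≠ 0 := by
      intro h3
      rw [h3] at h1
      linarith
    exact hasFDerivAt_Dn (hpos x hx).ne' (hd x hx) (h.d2 _ (hlv x hx).1) h2
  · intro x hx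
    have hNc : ContinuousAt N x := (hd x hx).continuousAt
    have huc : ContinuousAt (uu N) x := (hNc.inv₀ (hpos x hx).ne').smul continuousAt_id
    refine a5e_cont (G := X →L[ℝ] X →L[ℝ] ℝ) hBU hNc (hpos x hx).ne' huc ?_ (hlv x hx)
    filter_upwards [isOpen_ne.mem_nhds hx] with y hy
    exact hlv y hy
  · rw [hN0]
    exact zero_ne_one
  · intro ε hε
    exact a5e_one (G := X →L[ℝ] X →L[ℝ] ℝ) hBU (fun x hx => (hlev x).1 hx) ε hε

end Pool.Agent.H47.FH
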