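import Pool.Agent.H47.FH.G1

/-!
# G3: uniform convexity of the gauge at one scale
-/

set_option autoImplicit false

open Filter Topology

namespace Pool.Agent.H47.FH

open Pool.Agent.H47.SR Pool.Agent.H47.SS Pool.Agent.H47.FD

variable {X : Type*} [NormedAddCommGroup X] [NormedSpace ℝ X]

/-- ROW G3. Let `m = (1/2) • (x + y)`; `x, y ∈ V` (`LV.le_one`), so `‖x‖, ‖y‖, ‖m‖ < 1 / 2`, and `‖x - y‖ ≥ e` (`hs`), so `Q m ≤ a - d`. `0 ≤ Q m` (even, convex, `Q 0 = 0`). For `t = 1 + τ`, `τ = min 1 (d / (|M| + 1))`: `t • m = (1 - τ) • m + τ • (2 • m)`, so by convexity `Q (t • m) ≤ (1 - τ) Q m + τ M ≤ a - d + τ |M| ≤ a`;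
`t • m ∈ V`, `gauge V m ≤ 1 / t = 1 - τ / (1 + τ)`. -/
theorem LV.scale {Q : X → ℝ} {D : X → X →L[ℝ] ℝ} {B : X → X →L[ℝ] X →L[ℝ] ℝ} {a : ℝ}
    (h : LV Q D B (1 / 2) a) {M e d s : ℝ} (hd : 0 < d) (hM : ∀ x, ‖x‖ < 1 → Q x ≤ M)
    (hg : ∀ x y, ‖x‖ < 1 → ‖y‖ < 1 → e ≤ ‖x - y‖ → 2 * d ≤ gap Q x y)
    (hs : ∀ x, s ≤ gauge (VV Q a) x → e ≤ ‖x‖) :
    ∃ d' : ℝ, 0 < d' ∧ ∀ x y, gauge (VV Q a) x ≤ 1 → gauge (VV Q a) y ≤ 1 →
      s ≤ gauge (VV Q a) (x - y) → gauge (VV Q a) ((1 / 2 : ℝ) • (x + y)) ≤ 1 - d' := by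
  obtain ⟨τ, hτ⟩ : ∃ τ : ℝ, τ = min 1 (d / (|M| + 1)) := ⟨_, rfl⟩
  have hM0 : 0 < |M| + 1 := by positivity
  have hτ0 : 0 < τ := by
    rw [hτ]
    exact lt_min one_pos (div_pos hd hM0)
  have hτ1 : τ ≤ 1 := by rw [hτ]; exact min_le_left _ _
  have hτM : τ * (|M| + 1) ≤ d := by
    rw [← le_div_iff₀ hM0, hτ]
    exact min_le_right _ _
  refine ⟨τ / (1 + τ), by positivity, fun x y hx hy hxy => ?_⟩
  obtain ⟨hx1, hx2⟩ := (h.le_one x).1 hx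
  obtain ⟨hy1, hy2⟩ := (h.le_one y).1 hy
  have hx3 : ‖x‖ < 1 / 2 := by
    by_contra h1
    exact absurd (h.low x (not_lt.1 h1) hx1) (not_lt.2 hx2)
  have hy3 : ‖y‖ < 1 / 2 := by
    by_contra h1
    exact absurd (h.low y (not_lt.1 h1) hy1) (not_lt.2 hy2)
  have hgap := hg x y hx1 hy1 (hs _ hxy)
  unfold gap at hgap
  obtain ⟨m, hm⟩ : ∃ m : X, m = (1 / 2 : ℝ) • (x + y) := ⟨_, rfl⟩
  rw [← hm] at hgap ⊢
  have hmn : ‖m‖ < 1 / 2 := by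
    rw [hm, norm_smul, Real.norm_of_nonneg (by norm_num : (0 : ℝ) ≤ 1 / 2)]
    have := norm_add_le x y
    linarith
  have hQm : Q m ≤ a - d := by linarith
  have mb : ∀ z : X, ‖z‖ < 1 → z ∈ Metric.ball (0 : X) 1 := fun z hz => by
    rw [Metric.mem_ball, dist_zero_right]
    exact hz
  have hQm0 : 0 ≤ Q m := by
    have h1 := h.cvx.2 (mb m (by linarith)) (mb (-m) (by rw [norm_neg]; linarith))
      (by norm_num : (0 : ℝ) ≤ 1 / 2) (by norm_num : (0 : ℝ) ≤ 1 / 2) (by norm_num)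
    have h2 : (1 / 2 : ℝ) • m + (1 / 2 : ℝ) • (-m) = 0 := by
      rw [smul_neg, add_neg_cancel]
    rw [h2, h.Q0, h.even] at h1
    simp only [smul_eq_mul] at h1
    linarith
  have h2m : ‖(2 : ℝ) • m‖ < 1 := by
    rw [norm_smul, Real.norm_of_nonneg (by norm_num : (0 : ℝ) ≤ 2)]
    linarith
  have hconv := h.cvx.2 (mb m (by linarith)) (mb _ h2m) (by linarith : 0 ≤ 1 - τ) hτ0.le (by ring)
  have e1 : (1 - τ) • m + τ • (2 : ℝ) • m = (1 + τ) • m := by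
    rw [smul_smul, ← add_smul]
    congr 1
    ring
  rw [e1] at hconv
  simp only [smul_eq_mul] at hconv
  have hM2 := hM _ h2m
  have hM3 := le_abs_self M
  have hmem : (1 + τ) • m ∈ VV Q a := by
    refine ⟨?_, ?_⟩
    · rw [norm_smul, Real.norm_of_nonneg (by linarith : (0 : ℝ) ≤ 1 + τ)]
      have : (1 + τ) * ‖m‖ ≤ 2 * ‖m‖ := mul_le_mul_of_nonneg_right (by linarith) (norm_nonneg _)
      linarith
    · have k1 : (1 - τ) * Q m ≤ Q m := by nlinarith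
      have k2 : τ * Q ((2 : ℝ) • m) ≤ τ * |M| := mul_le_mul_of_nonneg_left (hM2.trans hM3) hτ0.le
      have k3 : τ * |M| ≤ d := by nlinarith
      linarith
  have hga := (h.le_one _).2 hmem
  rw [gauge_smul_of_nonneg (by linarith : (0 : ℝ) ≤ 1 + τ), smul_eq_mul] at hga
  have ht : 0 < 1 + τ := by linarith
  have e2 : 1 - τ / (1 + τ) = 1 / (1 + τ) := by
    field_simp
    ring
  rw [e2, le_div_iff₀ ht, mul_comm]
  exact hga

end Pool.Agent.H47.FH
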