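import Pool.Agent.H47.FH.D
import Pool.Agent.H47.SS.G2

/-!
# G4: the function `Q`
-/

set_option autoImplicit false

open Filter Topology

namespace Pool.Agent.H47.FH

open Pool.Agent.H47.SR Pool.Agent.H47.SS Pool.Agent.H47.FD

variable {X : Type*} [NormedAddCommGroup X] [NormedSpace ℝ X]

theorem g4_comp_neg {G : Type*} [NormedAddCommGroup G] [NormedSpace ℝ G] {g : X → G}
    {g' : X →L[ℝ] G} {x : X} (h : HasFDerivAt g g' (-x)) :
    HasFDerivAt (fun y => g (-y)) (-g') x := by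
  have h1 := HasFDerivAt.comp x h (hasFDerivAt_id x).neg
  refine h1.congr_fderiv ?_
  refine ContinuousLinearMap.ext fun u => ?_
  change g' (-u) = -(g' u)
  rw [map_neg]

theorem g4_d1 {G : Type*} [NormedAddCommGroup G] [NormedSpace ℝ G] {g n : X → G}
    {g₁ g₂ n' : X →L[ℝ] G} {x : X} (k : G) (l : ℝ) (h : HasFDerivAt g g₁ x)
    (h2 : HasFDerivAt g g₂ (-x)) (hn : HasFDerivAt n n' x) :
    HasFDerivAt (fun y => g y + g (-y) - k + l • n y) (g₁ - g₂ + l • n') x := by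
  have h1 := ((h.add (g4_comp_neg h2)).sub_const k).add (hn.const_smul l)
  rw [← sub_eq_add_neg] at h1
  exact h1

theorem g4_d2 {G : Type*} [NormedAddCommGroup G] [NormedSpace ℝ G] {g n : X → G}
    {g₁ g₂ n' : X →L[ℝ] G} {x : X} (l : ℝ) (h : HasFDerivAt g g₁ x)
    (h2 : HasFDerivAt g g₂ (-x)) (hn : HasFDerivAt n n' x) :
    HasFDerivAt (fun y => g y - g (-y) + l • n y) (g₁ + g₂ + l • n') x := by
  have h1 := (h.sub (g4_comp_neg h2)).add (hn.const_smul l)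
  rw [sub_neg_eq_add] at h1
  exact h1

theorem g4_uc {G : Type*} [NormedAddCommGroup G] [NormedSpace ℝ G] (l : ℝ) (hl : 0 < l)
    {B B₃ : X → G} {v : ℝ → ℝ} (hv : ∀ t : ℝ, 0 < t → 0 < v t)
    (h : ∀ t : ℝ, 0 < t → ∀ x y : X, ‖x‖ < 1 → ‖y‖ < 1 → ‖x - y‖ ≤ v t → ‖B x - B y‖ ≤ t)
    (h3 : ∀ R ε : ℝ, 0 < ε → ∃ δ : ℝ, 0 < δ ∧ ∀ x y : X, ‖x‖ ≤ R → ‖y‖ ≤ R → ‖x - y‖ ≤ δ →
      ‖B₃ x - B₃ y‖ ≤ ε) :
    UOn (fun y => B y + B (-y) + l • B₃ y) (Metric.ball (0 : X) 1) := by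
  intro ε hε
  obtain ⟨δ, hδ, h4⟩ := h3 1 (ε / (3 * l)) (by positivity)
  refine ⟨min (v (ε / 3)) δ, lt_min (hv _ (by positivity)) hδ, fun x hx y hy hxy => ?_⟩
  rw [mem_ball_zero_iff] at hx hy
  have hx' : ‖-x‖ < 1 := by rwa [norm_neg]
  have hy' : ‖-y‖ < 1 := by rwa [norm_neg]
  have k1 := h (ε / 3) (by positivity) x y hx hy (hxy.trans (min_le_left _ _))
  have k2 := h (ε / 3) (by positivity) (-x) (-y) hx' hy' (by
    have e : -x - -y = -(x - y) := by abel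
    rw [e, norm_neg]
    exact hxy.trans (min_le_left _ _))
  have k3 := h4 x y hx.le hy.le (hxy.trans (min_le_right _ _))
  have e : (B x + B (-x) + l • B₃ x) - (B y + B (-y) + l • B₃ y) =
      (B x - B y) + (B (-x) - B (-y)) + l • (B₃ x - B₃ y) := by
    rw [smul_sub]; abel
  change ‖(B x + B (-x) + l • B₃ x) - (B y + B (-y) + l • B₃ y)‖ ≤ ε
  rw [e]
  have k4 : ‖l • (B₃ x - B₃ y)‖ ≤ ε / 3 := by
    rw [norm_smul, Real.norm_eq_abs, abs_of_pos hl]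
    calc l * ‖B₃ x - B₃ y‖ ≤ l * (ε / (3 * l)) := mul_le_mul_of_nonneg_left k3 hl.le
      _ = ε / 3 := by field_simp
  calc ‖(B x - B y) + (B (-x) - B (-y)) + l • (B₃ x - B₃ y)‖
      ≤ ‖B x - B y‖ + ‖B (-x) - B (-y)‖ + ‖l • (B₃ x - B₃ y)‖ :=
        (norm_add_le _ _).trans (add_le_add (norm_add_le _ _) le_rfl)
    _ ≤ ε / 3 + ε / 3 + ε / 3 := add_le_add (add_le_add k1 k2) k4
    _ = ε := by ring

/-- ROW G4. `Q x = f x + f (-x) - 2 f 0 + l N x ^ 3` with `l = 128 C / c ^ 3 + 1`, `a = l c ^ 3 / 16`; derivatives `D x - D (-x) + l • D3 N x`, `B x + B (-x) + l • B3 N x` (`exists_tw` in SS/G2.lean for `N ^ 3`; `B3 N` is uniformly continuous on the ball). `0 ≤ f x + f (-x) - 2 f 0 ≤ 4 C` on the ball.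
`‖x‖ ≥ 1/2`: `Q x ≥ l c ^ 3 / 8 > a`. `‖x‖ ≤ c / 4`: `Q x ≤ 4 C + l c ^ 3 / 64 ≤ l c ^ 3 / 32 + l c ^ 3 / 64 ≤ a`. Gap: `gap Q x y = gap f x y + gap f (-x) (-y) + l * gap (N ^ 3) x y`, the last term is `≥ 0` (`mid_cube` in SS/S8.lean). -/
theorem exists_LV {C c : ℝ} {v : ℝ → ℝ} (hC : 0 < C) (hv : ∀ t : ℝ, 0 < t → 0 < v t)
    (hc : 0 < c) (hc1 : c ≤ 1) {f : X → ℝ} {D : X → X →L[ℝ] ℝ} {B : X → X →L[ℝ] X →L[ℝ] ℝ}
    (hf : Fn C v f D B) {N : X → ℝ} (hN : EqNorm N) (hU : UnifC2 N)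
    (hlow : ∀ x, c * ‖x‖ ≤ N x) (hupp : ∀ x, N x ≤ ‖x‖) :
    ∃ (Q : X → ℝ) (D' : X → X →L[ℝ] ℝ) (B' : X → X →L[ℝ] X →L[ℝ] ℝ) (a M : ℝ),
      LV Q D' B' (1 / 2) a ∧ (∀ x, ‖x‖ ≤ c / 4 → Q x ≤ a) ∧ (∀ x, ‖x‖ < 1 → Q x ≤ M) ∧
        ∀ x y, ‖x‖ < 1 → ‖y‖ < 1 → gap f x y + gap f (-x) (-y) ≤ gap Q x y := by
  obtain ⟨C3, hC3, hT⟩ := exists_tw hN hU
  have hc3 : 0 < c ^ 3 := pow_pos hc 3
  obtain ⟨l, hl⟩ : ∃ l : ℝ, l = 128 * C / c ^ 3 + 1 := ⟨_, rfl⟩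
  have hl0 : 0 < l := by rw [hl]; positivity
  have hlc : 128 * C ≤ l * c ^ 3 := by
    rw [hl, add_mul, div_mul_cancel₀ _ hc3.ne']
    linarith
  have hnn : ∀ x : X, ‖x‖ < 1 → ‖-x‖ < 1 := fun x hx => by rwa [norm_neg]
  have hN0 : N 0 = 0 := by
    have h := hN.2.2 0 0
    rw [zero_smul, abs_zero, zero_mul] at h
    exact h
  have hNneg : ∀ x : X, N (-x) = N x := fun x => by
    have := hN.2.2 (-1) x
    rw [neg_one_smul, abs_neg, abs_one, one_mul] at this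
    exact this
  have hNpos : ∀ x : X, 0 ≤ N x := fun x => (mul_nonneg hc.le (norm_nonneg x)).trans (hlow x)
  have hNc : ConvexOn ℝ Set.univ N := by
    refine ⟨convex_univ, fun x _ y _ a b ha hb hab => ?_⟩
    have h2 := hN.2.1 (a • x) (b • y)
    rw [hN.2.2, hN.2.2, abs_of_nonneg ha, abs_of_nonneg hb] at h2
    exact h2
  have hN3 : ConvexOn ℝ Set.univ (fun x => N x ^ 3) := hNc.pow (fun x _ => hNpos x) 3
  have hsym : ∀ x : X, ‖x‖ < 1 → 0 ≤ f x + f (-x) - 2 * f 0 := by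
    intro x hx
    have h1 := hf.cvx.2 (mem_ball_zero_iff.2 hx) (mem_ball_zero_iff.2 (hnn x hx))
      (by norm_num : (0 : ℝ) ≤ 1 / 2) (by norm_num : (0 : ℝ) ≤ 1 / 2) (by norm_num)
    have e : (1 / 2 : ℝ) • x + (1 / 2 : ℝ) • (-x) = 0 := by rw [smul_neg]; exact add_neg_cancel _
    rw [e, smul_eq_mul, smul_eq_mul] at h1
    linarith
  have hup : ∀ x : X, ‖x‖ < 1 → f x + f (-x) - 2 * f 0 ≤ 4 * C := by
    intro x hx
    have h1 := (abs_le.1 (hf.bf x hx)).2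
    have h2 := (abs_le.1 (hf.bf (-x) (hnn x hx))).2
    have h3 := (abs_le.1 (hf.bf 0 (by rw [norm_zero]; exact one_pos))).1
    linarith
  refine ⟨fun x => f x + f (-x) - 2 * f 0 + l • N x ^ 3, fun x => D x - D (-x) + l • D3 N x,
    fun x => B x + B (-x) + l • B3 N x, l * c ^ 3 / 16, 4 * C + l, ?_, ?_, ?_, ?_⟩
  · refine ⟨?_, ?_, ?_, ?_, ?_, ?_, by norm_num, by norm_num, by positivity, ?_⟩
    · refine ⟨convex_ball _ _, fun x hx y hy a b ha hb hab => ?_⟩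
      rw [mem_ball_zero_iff] at hx hy
      have h1 := hf.cvx.2 (mem_ball_zero_iff.2 hx) (mem_ball_zero_iff.2 hy) ha hb hab
      have h2 := hf.cvx.2 (mem_ball_zero_iff.2 (hnn x hx)) (mem_ball_zero_iff.2 (hnn y hy)) ha hb hab
      have h3 := hN3.2 (Set.mem_univ x) (Set.mem_univ y) ha hb hab
      have e : a • (-x) + b • (-y) = -(a • x + b • y) := by rw [smul_neg, smul_neg]; abel
      rw [e] at h2
      simp only [smul_eq_mul] at h1 h2 h3 ⊢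
      have h4 := mul_le_mul_of_nonneg_left h3 hl0.le
      have e2 : 2 * f 0 = a * (2 * f 0) + b * (2 * f 0) := by rw [← add_mul, hab, one_mul]
      have e3 : a * (f x + f (-x) - 2 * f 0 + l * N x ^ 3) +
          b * (f y + f (-y) - 2 * f 0 + l * N y ^ 3) =
          (a * f x + b * f y) + (a * f (-x) + b * f (-y)) - (a * (2 * f 0) + b * (2 * f 0)) +
            l * (a * N x ^ 3 + b * N y ^ 3) := by ring
      rw [e3, ← e2]
      linarith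
    · intro x
      change f (-x) + f (- -x) - 2 * f 0 + l • N (-x) ^ 3 = f x + f (-x) - 2 * f 0 + l • N x ^ 3
      rw [neg_neg, hNneg, add_comm (f (-x))]
    · change f 0 + f (-0) - 2 * f 0 + l • N 0 ^ 3 = 0
      rw [neg_zero, hN0, smul_eq_mul]
      ring
    · intro x hx
      exact g4_d1 (2 * f 0) l (hf.d1 x hx) (hf.d1 (-x) (hnn x hx)) (hT.d1 x)
    · intro x hx
      exact g4_d2 (G := X →L[ℝ] ℝ) l (hf.d2 x hx) (hf.d2 (-x) (hnn x hx)) (hT.d2 x)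
    · exact g4_uc (G := X →L[ℝ] X →L[ℝ] ℝ) l hl0 hv hf.uc hT.uc
    · intro x hx hx1
      have h1 := hsym x hx1
      have h2 : c * (1 / 2) ≤ N x := (mul_le_mul_of_nonneg_left hx hc.le).trans (hlow x)
      have h3 : (c * (1 / 2)) ^ 3 ≤ N x ^ 3 := pow_le_pow_left₀ (by positivity) h2 3
      have h4 := mul_le_mul_of_nonneg_left h3 hl0.le
      have h5 : l * (c * (1 / 2)) ^ 3 = l * c ^ 3 / 8 := by ring
      have h6 : 0 < l * c ^ 3 := by positivity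
      change l * c ^ 3 / 16 < f x + f (-x) - 2 * f 0 + l * N x ^ 3
      linarith
  · intro x hx
    have hx1 : ‖x‖ < 1 := by linarith
    have h1 := hup x hx1
    have h2 : N x ≤ c / 4 := (hupp x).trans hx
    have h3 : N x ^ 3 ≤ (c / 4) ^ 3 := pow_le_pow_left₀ (hNpos x) h2 3
    have h4 := mul_le_mul_of_nonneg_left h3 hl0.le
    have h5 : l * (c / 4) ^ 3 = l * c ^ 3 / 64 := by ring
    have h6 : 0 < l * c ^ 3 := by positivity
    change f x + f (-x) - 2 * f 0 + l * N x ^ 3 ≤ l * c ^ 3 / 16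
    linarith
  · intro x hx1
    have h1 := hup x hx1
    have h3 : N x ^ 3 ≤ 1 := pow_le_one₀ (hNpos x) ((hupp x).trans hx1.le)
    have h4 := mul_le_mul_of_nonneg_left h3 hl0.le
    change f x + f (-x) - 2 * f 0 + l * N x ^ 3 ≤ 4 * C + l
    linarith
  · intro x y hx hy
    have h1 := mid_cube hN x y
    have h2 := mul_le_mul_of_nonneg_left h1 hl0.le
    have e : (1 / 2 : ℝ) • (-x + -y) = -((1 / 2 : ℝ) • (x + y)) := by
      rw [← smul_neg, neg_add]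
    unfold gap
    rw [e]
    simp only [smul_eq_mul]
    linarith

end Pool.Agent.H47.FH
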