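import Pool.Agent.H47.FH.D
import Pool.Agent.H47.FD.W1c

/-!
# H1: cubes of norms
-/

set_option autoImplicit false

namespace Pool.Agent.H47.FH

open Pool.Agent.H47.SR Pool.Agent.H47.SS Pool.Agent.H47.FD

universe u

/-- ROW H1a. `exists_q3` (FD/W1c; `Mod K δ ω N → Mod K (fun _ => 0) ω N` as `0 ≤ δ ε`): `C`, `T`; take `v t = (t / 2) / (T (t / 2) + 1)`: on the unit ball `‖B x - B y‖ ≤ (t / 2) ‖x‖ + T (t / 2) ‖x - y‖ ≤ t`. `hasFDerivAt_N3`,
`hasFDerivAt_D3` (SS/S1; `Mod.eqNorm`, `Mod.unifC2`). Convexity: `N` is convex, nonnegative, `ConvexOn.pow`. Replace `C` by `C + 1` for `0 < C`. -/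
theorem exists_fn (K : ℝ) (δ ω : ℝ → ℝ) (hK : 0 < K) (hδ : ∀ ε : ℝ, 0 < ε → 0 < δ ε)
    (hω : ∀ ε : ℝ, 0 < ε → 0 < ω ε) :
    ∃ (C : ℝ) (v : ℝ → ℝ), 0 < C ∧ (∀ t : ℝ, 0 < t → 0 < v t) ∧
      ∀ (E : Type u) [NormedAddCommGroup E] [NormedSpace ℝ E] (N : E → ℝ), Mod K δ ω N →
        Fn C v (fun x => N x ^ 3) (D3 N) (B3 N) := by
  obtain ⟨C, T, hC, hT, hq⟩ := exists_q3.{u} K ω hK hω
  refine ⟨C + 1, fun t => (t / 2) / (T (t / 2) + 1), by linarith, fun t ht => ?_, ?_⟩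
  · have := hT (t / 2) (by linarith)
    positivity
  intro E _ _ N hM
  have hM0 : Mod K (fun _ => 0) ω N :=
    { low := hM.low
      upp := hM.upp
      tri := hM.tri
      hom := hM.hom
      ucv := fun ε hε x y hx hy hxy =>
        (hM.ucv ε hε x y hx hy hxy).trans (by have := hδ ε hε; linarith)
      c2 := hM.c2
      cnt := hM.cnt }
  have hN : EqNorm N := hM.eqNorm hK
  have hU : UnifC2 N := hM.unifC2 hω
  have Q := hq E N hM0
  have hN0 : ∀ x, 0 ≤ N x := fun x => by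
    have h1 := (norm_nonneg x).trans (hM.low x)
    exact (mul_nonneg_iff_of_pos_left hK).1 h1
  have p2 : ∀ x : E, ‖x‖ < 1 → ‖x‖ ^ 2 ≤ 1 := fun x hx => pow_le_one₀ (norm_nonneg x) hx.le
  have p3 : ∀ x : E, ‖x‖ < 1 → ‖x‖ ^ 3 ≤ 1 := fun x hx => pow_le_one₀ (norm_nonneg x) hx.le
  refine ⟨?_, fun x _ => hasFDerivAt_N3 hN hU x, fun x _ => hasFDerivAt_D3 hN hU x, fun x hx => ?_,
    fun x hx => ?_, fun x hx => ?_, fun t ht x y hx hy hxy => ?_⟩
  · have hc : ConvexOn ℝ (Metric.ball (0 : E) 1) N := by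
      refine ⟨convex_ball 0 1, fun x _ y _ a b ha hb _ => ?_⟩
      refine (hM.tri _ _).trans ?_
      rw [hM.hom, hM.hom, abs_of_nonneg ha, abs_of_nonneg hb, smul_eq_mul, smul_eq_mul]
    exact hc.pow (fun x _ => hN0 x) 3
  · refine (Q.bf x).trans ?_
    have := mul_le_mul_of_nonneg_left (p3 x hx) hC
    linarith
  · refine (Q.bD x).trans ?_
    have := mul_le_mul_of_nonneg_left (p2 x hx) hC
    linarith
  · refine (Q.bB x).trans ?_
    have := mul_le_mul_of_nonneg_left hx.le hC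
    linarith
  · refine (Q.t3 (t / 2) (by linarith) x y).trans ?_
    have hT' := hT (t / 2) (by linarith)
    have h1 : t / 2 * ‖x‖ ≤ t / 2 := by
      have := mul_le_mul_of_nonneg_left hx.le (by linarith : (0 : ℝ) ≤ t / 2)
      linarith
    have h2 : T (t / 2) * ‖x - y‖ ≤ t / 2 := by
      calc T (t / 2) * ‖x - y‖ ≤ (T (t / 2) + 1) * ((t / 2) / (T (t / 2) + 1)) := by
            refine mul_le_mul (by linarith) hxy (norm_nonneg _) (by linarith)
        _ = t / 2 := by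
            field_simp
    linarith

private theorem H1_cube (a b t : ℝ) (ha : 0 ≤ a) (hb : 0 ≤ b) (ht : 0 ≤ t) (h : t ≤ (a + b) / 2) :
    t ^ 3 ≤ (a ^ 3 + b ^ 3) / 2 - 3 / 8 * (a + b) * (a - b) ^ 2 := by
  have h1 : t ^ 3 ≤ ((a + b) / 2) ^ 3 := pow_le_pow_left₀ ht h 3
  have h2 : ((a + b) / 2) ^ 3 = (a ^ 3 + b ^ 3) / 2 - 3 / 8 * (a + b) * (a - b) ^ 2 := by ring
  rw [h2] at h1
  exact h1

private theorem H1_real (M m d t : ℝ) (hM : 0 < M) (hm : 0 ≤ m) (hmM : m ≤ M) (hd : 0 < d) (hd1 : d ≤ 1)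
    (ht : 0 ≤ t) (ht1 : t ≤ (1 - d) * M) (ht2 : t ≤ (M + m) / 2) :
    t ^ 3 ≤ (M ^ 3 + m ^ 3) / 2 - min (3 / 8 * (d / 3) ^ 2) (d / 2) * M ^ 3 := by
  have hM3 : 0 < M ^ 3 := pow_pos hM 3
  by_cases hc : d / 3 * M ≤ M - m
  · have h1 := H1_cube M m t hM.le hm ht ht2
    have h2 : (d / 3 * M) ^ 2 ≤ (M - m) ^ 2 := pow_le_pow_left₀ (by positivity) hc 2
    have h3 : M * (d / 3 * M) ^ 2 ≤ (M + m) * (M - m) ^ 2 :=
      mul_le_mul (by linarith) h2 (by positivity) (by linarith)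
    have h4 : min (3 / 8 * (d / 3) ^ 2) (d / 2) * M ^ 3 ≤ 3 / 8 * (d / 3) ^ 2 * M ^ 3 :=
      mul_le_mul_of_nonneg_right (min_le_left _ _) hM3.le
    have h5 : 3 / 8 * (d / 3) ^ 2 * M ^ 3 = 3 / 8 * (M * (d / 3 * M) ^ 2) := by ring
    have h6 : 3 / 8 * (M + m) * (M - m) ^ 2 = 3 / 8 * ((M + m) * (M - m) ^ 2) := by ring
    rw [h6] at h1
    rw [h5] at h4
    linarith
  · have hc2 : (1 - d / 3) * M ≤ m := by
      have := not_le.1 hc
      linarith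
    have h1 : ((1 - d / 3) * M) ^ 3 ≤ m ^ 3 := pow_le_pow_left₀ (mul_nonneg (by linarith) hM.le) hc2 3
    have h2 : t ^ 3 ≤ ((1 - d) * M) ^ 3 := pow_le_pow_left₀ ht ht1 3
    have h3 : (1 - d) ^ 3 ≤ 1 - d := by
      have h4 : (1 - d) ^ 2 ≤ 1 := pow_le_one₀ (by linarith) (by linarith)
      have h5 : (1 - d) ^ 3 = (1 - d) ^ 2 * (1 - d) := by ring
      rw [h5]
      have h6 : 0 ≤ 1 - d := by linarith
      have h7 := mul_le_mul_of_nonneg_right h4 h6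
      linarith
    have h4 : 1 - d ≤ (1 - d / 3) ^ 3 := by
      have h5 : (1 - d / 3) ^ 3 = 1 - d + (d / 3) ^ 2 * (3 - d / 3) := by ring
      rw [h5]
      have h6 : 0 ≤ (d / 3) ^ 2 * (3 - d / 3) := mul_nonneg (sq_nonneg _) (by linarith)
      linarith
    have h5 : (1 - d) * M ^ 3 ≤ m ^ 3 := by
      have h6 := mul_le_mul_of_nonneg_right h4 hM3.le
      rw [mul_pow] at h1
      linarith
    have h6 : t ^ 3 ≤ (1 - d) * M ^ 3 := by
      rw [mul_pow] at h2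
      have h7 := mul_le_mul_of_nonneg_right h3 hM3.le
      linarith
    have h7 : min (3 / 8 * (d / 3) ^ 2) (d / 2) * M ^ 3 ≤ d / 2 * M ^ 3 :=
      mul_le_mul_of_nonneg_right (min_le_right _ _) hM3.le
    nlinarith

/-- ROW H1b. Proof of `Pool.Agent.H47.SS.gap` (SS/S8.lean) with explicit constants (`R = K`, scale `e / (2 K ^ 2)`): for `‖x‖, ‖y‖ < 1`: `N x, N y ≤ K`, `N (x - y) ≥ e / K`. (`M = max (N x) (N y)`, `M ≥ e / (2 K)`, so `N (M⁻¹ (x - y)) ≥ e / K ^ 2`;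
`d' = min (δ (e / K ^ 2)) 1`; the private lemmas `S8_cube`, `S8_real` can be copied.) -/
theorem exists_gap (K : ℝ) (δ ω : ℝ → ℝ) (hK : 0 < K) (hδ : ∀ ε : ℝ, 0 < ε → 0 < δ ε)
    (e : ℝ) (he : 0 < e) :
    ∃ d : ℝ, 0 < d ∧
      ∀ (E : Type u) [NormedAddCommGroup E] [NormedSpace ℝ E] (N : E → ℝ), Mod K δ ω N →
        ∀ x y : E, ‖x‖ < 1 → ‖y‖ < 1 → e ≤ ‖x - y‖ → d ≤ gap (fun x => N x ^ 3) x y := by
  obtain ⟨d, hdd⟩ : ∃ d : ℝ, d = min (δ (e / K ^ 2)) 1 := ⟨_, rfl⟩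
  have heK : 0 < e / K ^ 2 := by positivity
  have hd : 0 < d := by
    rw [hdd]
    exact lt_min (hδ _ heK) one_pos
  have hd1 : d ≤ 1 := by
    rw [hdd]
    exact min_le_right _ _
  have hdδ : d ≤ δ (e / K ^ 2) := by
    rw [hdd]
    exact min_le_left _ _
  have hg : 0 < min (3 / 8 * (d / 3) ^ 2) (d / 2) := lt_min (by positivity) (by positivity)
  refine ⟨min (3 / 8 * (d / 3) ^ 2) (d / 2) * (e / (2 * K)) ^ 3, by positivity, ?_⟩
  intro E _ _ N hN x y hx hy hxy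
  have hN0 : ∀ x, 0 ≤ N x := fun x => by
    have h1 := (norm_nonneg x).trans (hN.low x)
    exact (mul_nonneg_iff_of_pos_left hK).1 h1
  obtain ⟨M, hMd⟩ : ∃ M : ℝ, M = max (N x) (N y) := ⟨_, rfl⟩
  obtain ⟨m, hmd⟩ : ∃ m : ℝ, m = min (N x) (N y) := ⟨_, rfl⟩
  have hmM : m ≤ M := by
    rw [hMd, hmd]
    exact min_le_max
  have hm0 : 0 ≤ m := by
    rw [hmd]
    exact le_min (hN0 x) (hN0 y)
  have hxM : N x ≤ M := by
    rw [hMd]
    exact le_max_left _ _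
  have hyM : N y ≤ M := by
    rw [hMd]
    exact le_max_right _ _
  have hMR : M ≤ K := by
    rw [hMd]
    refine max_le ((hN.upp x).trans ?_) ((hN.upp y).trans ?_)
    · have := mul_le_mul_of_nonneg_left hx.le hK.le
      linarith
    · have := mul_le_mul_of_nonneg_left hy.le hK.le
      linarith
  have hsum : M + m = N x + N y := by
    rw [hMd, hmd]
    exact max_add_min _ _
  have hsub : N (x - y) ≤ N x + N y := by
    have h1 := hN.tri x (-y)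
    have h2 := hN.hom (-1) y
    rw [neg_one_smul, abs_neg, abs_one, one_mul] at h2
    rw [← sub_eq_add_neg, h2] at h1
    exact h1
  have hlow : e / K ≤ N (x - y) := by
    rw [div_le_iff₀ hK]
    have := hN.low (x - y)
    linarith
  have hM2 : e / (2 * K) ≤ M := by
    have h1 : e / (2 * K) = e / K / 2 := by
      field_simp
    rw [h1]
    linarith
  have hM0 : 0 < M := lt_of_lt_of_le (by positivity) hM2
  have hi : ∀ z : E, N (M⁻¹ • z) = N z / M := by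
    intro z
    rw [hN.hom, abs_of_pos (inv_pos.2 hM0)]
    ring
  have h1 : N ((1 / 2 : ℝ) • (M⁻¹ • x + M⁻¹ • y)) ≤ 1 - δ (e / K ^ 2) := by
    apply hN.ucv _ heK
    · rw [hi, div_le_one hM0]
      exact hxM
    · rw [hi, div_le_one hM0]
      exact hyM
    · rw [← smul_sub, hi, le_div_iff₀ hM0]
      have h2 : e / K ^ 2 * M ≤ e / K ^ 2 * K := mul_le_mul_of_nonneg_left hMR heK.le
      have h3 : e / K ^ 2 * K = e / K := by
        field_simp
      rw [h3] at h2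
      exact h2.trans hlow
  rw [← smul_add, smul_comm, hi, div_le_iff₀ hM0] at h1
  have h2 : N ((1 / 2 : ℝ) • (x + y)) ≤ (1 - d) * M := by
    refine h1.trans (mul_le_mul_of_nonneg_right ?_ hM0.le)
    linarith
  have hmid : N ((1 / 2 : ℝ) • (x + y)) ≤ (M + m) / 2 := by
    rw [hN.hom, abs_of_pos (by norm_num : (0 : ℝ) < 1 / 2), hsum]
    have := hN.tri x y
    linarith
  have h3 := H1_real M m d (N ((1 / 2 : ℝ) • (x + y))) hM0 hm0 hmM hd hd1 (hN0 _) h2 hmid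
  have h4 : M ^ 3 + m ^ 3 = N x ^ 3 + N y ^ 3 := by
    rcases le_total (N x) (N y) with h | h
    · rw [hMd, hmd, max_eq_right h, min_eq_left h]
      ring
    · rw [hMd, hmd, max_eq_left h, min_eq_right h]
  rw [h4] at h3
  have h5 : (e / (2 * K)) ^ 3 ≤ M ^ 3 := pow_le_pow_left₀ (by positivity) hM2 3
  have h6 := mul_le_mul_of_nonneg_left h5 hg.le
  have h7 : 0 ≤ min (3 / 8 * (d / 3) ^ 2) (d / 2) * M ^ 3 := by positivity
  unfold gap
  linarith

end Pool.Agent.H47.FH
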