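import Pool.Agent.H47.FH.D

/-!
# H2: convex combinations and the minimax theorem
-/

set_option autoImplicit false

namespace Pool.Agent.H47.FH

variable {E : Type*} [NormedAddCommGroup E] [NormedSpace ℝ E]

/-- The norm of a convex combination. -/
theorem norm_comb {G : Type*} [NormedAddCommGroup G] [NormedSpace ℝ G] {a b r : ℝ} (ha : 0 ≤ a)
    (hb : 0 ≤ b) (hab : a + b = 1) {u w : G} (hu : ‖u‖ ≤ r) (hw : ‖w‖ ≤ r) :
    ‖a • u + b • w‖ ≤ r := by
  have h1 : ‖a • u‖ ≤ a * r := by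
    rw [norm_smul, Real.norm_of_nonneg ha]
    exact mul_le_mul_of_nonneg_left hu ha
  have h2 : ‖b • w‖ ≤ b * r := by
    rw [norm_smul, Real.norm_of_nonneg hb]
    exact mul_le_mul_of_nonneg_left hw hb
  calc ‖a • u + b • w‖ ≤ ‖a • u‖ + ‖b • w‖ := norm_add_le _ _
    _ ≤ a * r + b * r := add_le_add h1 h2
    _ = r := by rw [← add_mul, hab, one_mul]

/-- The same for a difference of convex combinations. -/
theorem norm_comb_sub {G : Type*} [NormedAddCommGroup G] [NormedSpace ℝ G] {a b r : ℝ}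
    (ha : 0 ≤ a) (hb : 0 ≤ b) (hab : a + b = 1) {u w u' w' : G} (hu : ‖u - u'‖ ≤ r)
    (hw : ‖w - w'‖ ≤ r) : ‖(a • u + b • w) - (a • u' + b • w')‖ ≤ r := by
  have h1 : (a • u + b • w) - (a • u' + b • w') = a • (u - u') + b • (w - w') := by
    rw [smul_sub, smul_sub]
    abel
  rw [h1]
  exact norm_comb ha hb hab hu hw

theorem norm_zz {G : Type*} [NormedAddCommGroup G] : ‖(0 : G) - 0‖ = 0 := by
  rw [sub_zero, norm_zero]

/-- ROW H2a. -/
theorem Fn.comb {C a b : ℝ} {v : ℝ → ℝ} {f f' : E → ℝ} {D D' : E → E →L[ℝ] ℝ}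
    {B B' : E → E →L[ℝ] E →L[ℝ] ℝ} (ha : 0 ≤ a) (hb : 0 ≤ b) (hab : a + b = 1)
    (h : Fn C v f D B) (h' : Fn C v f' D' B') :
    Fn C v (fun x => a * f x + b * f' x) (fun x => a • D x + b • D' x)
      (fun x => a • B x + b • B' x) := by
  refine ⟨?_, ?_, ?_, ?_, ?_, ?_, ?_⟩
  · refine ⟨h.cvx.1, ?_⟩
    intro x hx y hy s t hs ht hst
    have h1 := h.cvx.2 hx hy hs ht hst
    have h2 := h'.cvx.2 hx hy hs ht hst
    simp only [smul_eq_mul] at h1 h2 ⊢
    have h3 := mul_le_mul_of_nonneg_left h1 ha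
    have h4 := mul_le_mul_of_nonneg_left h2 hb
    calc a * f (s • x + t • y) + b * f' (s • x + t • y)
        ≤ a * (s * f x + t * f y) + b * (s * f' x + t * f' y) := add_le_add h3 h4
      _ = s * (a * f x + b * f' x) + t * (a * f y + b * f' y) := by ring
  · intro x hx
    have h1 := ((h.d1 x hx).const_smul a).add ((h'.d1 x hx).const_smul b)
    exact h1
  · intro x hx
    exact ((h.d2 x hx).const_smul a).add ((h'.d2 x hx).const_smul b)
  · intro x hx
    have h1 := norm_comb (G := ℝ) ha hb hab (h.bf x hx) (h'.bf x hx)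
    exact h1
  · intro x hx
    exact norm_comb (G := E →L[ℝ] ℝ) ha hb hab (h.bD x hx) (h'.bD x hx)
  · intro x hx
    exact norm_comb (G := E →L[ℝ] E →L[ℝ] ℝ) ha hb hab (h.bB x hx) (h'.bB x hx)
  · intro t ht x y hx hy hxy
    exact norm_comb_sub (G := E →L[ℝ] E →L[ℝ] ℝ) ha hb hab (h.uc t ht x y hx hy hxy)
      (h'.uc t ht x y hx hy hxy)

/-- ROW H2b. -/
theorem Fn.zero {C : ℝ} (v : ℝ → ℝ) (hC : 0 ≤ C) :
    Fn C v (fun _ : E => 0) (fun _ => 0) (fun _ => 0) := by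
  refine ⟨?_, ?_, ?_, ?_, ?_, ?_, ?_⟩
  · exact convexOn_const 0 (convex_ball 0 1)
  · intro x _
    exact hasFDerivAt_const (0 : ℝ) x
  · intro x _
    exact hasFDerivAt_const (0 : E →L[ℝ] ℝ) x
  · intro x _
    simpa using hC
  · intro x _
    exact (norm_zero (E := E →L[ℝ] ℝ)).trans_le hC
  · intro x _
    exact (norm_zero (E := E →L[ℝ] E →L[ℝ] ℝ)).trans_le hC
  · intro t ht x y _ _ _
    exact (norm_zz (G := E →L[ℝ] E →L[ℝ] ℝ)).trans_le ht.le

/-- ROW H2c. -/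
theorem gap_comb (f f' : E → ℝ) (a b : ℝ) (x y : E) :
    gap (fun x => a * f x + b * f' x) x y = a * gap f x y + b * gap f' x y := by
  unfold gap
  ring

end Pool.Agent.H47.FH
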