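import Pool.Agent.H47.FH.H2

/-!
# H3: the minimax theorem
-/

set_option autoImplicit false

namespace Pool.Agent.H47.FH

variable {E : Type*} [NormedAddCommGroup E] [NormedSpace ℝ E]

/-- ROW H3. If `n = 0` take `f = 0` (`Fn.zero`). In `Fin n → ℝ` the set `A` of all `a` such that there is `f` as in `Fn` with `a i ≤ gap f (x i) (y i)` for all `i` is convex (`Fn.comb`, `gap_comb`) and nonempty; `U = {u | ∀ i, d / 2 < u i}` is open and convex.
If the conclusion fails they are disjoint. `geometric_hahn_banach_open`: a continuous linear `ℓ`, `s` with `ℓ u < s ≤ ℓ a` for `u ∈ U`, `a ∈ A`. Write `ℓ z = ∑ i, c i * z i` (`c i = ℓ (Pi.single i 1)`); `ℓ` is bounded above on `U`, so `c i ≤ 0`; `ℓ ≠ 0`, so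
`σ = ∑ i, -c i > 0`. `p i = -c i / σ`. For `u → d / 2`: `-σ (d / 2) ≤ s`, so `∑ i, p i * a i ≤ d / 2` for `a ∈ A`; but the hypothesis gives `f` with `d ≤ ∑ i, p i * gap f (x i) (y i)`. -/
theorem exists_of_avg {e C d : ℝ} {v : ℝ → ℝ} (hC : 0 < C) (hd : 0 < d) (h : Avg e C d v E)
    (n : ℕ) (x y : Fin n → E) (hxy : ∀ i, ‖x i‖ < 1 ∧ ‖y i‖ < 1 ∧ e ≤ ‖x i - y i‖) :
    ∃ (f : E → ℝ) (D : E → E →L[ℝ] ℝ) (B : E → E →L[ℝ] E →L[ℝ] ℝ),
      Fn C v f D B ∧ ∀ i, d / 2 ≤ gap f (x i) (y i) := by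
  classical
  by_contra hcon
  push Not at hcon
  have hz := Fn.zero (E := E) v hC.le
  obtain ⟨i0, -⟩ := hcon _ _ _ hz
  let A : Set (Fin n → ℝ) := {a | ∃ (f : E → ℝ) (D : E → E →L[ℝ] ℝ) (B : E → E →L[ℝ] E →L[ℝ] ℝ),
    Fn C v f D B ∧ ∀ i, a i ≤ gap f (x i) (y i)}
  let W : Set (Fin n → ℝ) := Set.pi Set.univ fun _ => Set.Ioi (d / 2)
  have hA : Convex ℝ A := by
    rintro a ⟨f, D, B, hf, ha⟩ a' ⟨f', D', B', hf', ha'⟩ p q hp hq hpq
    refine ⟨_, _, _, hf.comb hp hq hpq hf', fun i => ?_⟩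
    rw [gap_comb]
    have h1 := mul_le_mul_of_nonneg_left (ha i) hp
    have h2 := mul_le_mul_of_nonneg_left (ha' i) hq
    simp only [Pi.add_apply, Pi.smul_apply, smul_eq_mul]
    linarith
  have hW : Convex ℝ W := convex_pi fun i _ => convex_Ioi _
  have hWo : IsOpen W := isOpen_set_pi Set.finite_univ fun i _ => isOpen_Ioi
  have hdisj : Disjoint W A := by
    rw [Set.disjoint_left]
    rintro a ha ⟨f, D, B, hf, ha'⟩
    obtain ⟨i, hi⟩ := hcon f D B hf
    have h1 : d / 2 < a i := ha i (Set.mem_univ i)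
    exact absurd (ha' i) (not_le.2 (hi.trans h1))
  obtain ⟨l, s, h1, h2⟩ := geometric_hahn_banach_open hW hWo hA hdisj
  let c : Fin n → ℝ := fun i => l (fun j => if i = j then 1 else 0)
  have hl : ∀ z : Fin n → ℝ, l z = ∑ i, z i * c i := fun z => by
    have := LinearMap.pi_apply_eq_sum_univ (l : (Fin n → ℝ) →ₗ[ℝ] ℝ) z
    simpa using this
  have hconst : ∀ t : ℝ, l (fun _ => t) = t * ∑ i, c i := fun t => by
    rw [hl, Finset.mul_sum]
  -- the coefficients are not positive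
  have hc : ∀ i, c i ≤ 0 := by
    intro i
    by_contra hi
    rw [not_le] at hi
    set t : ℝ := max 0 ((s - l (fun _ => d)) / c i) with ht
    have ht0 : 0 ≤ t := le_max_left _ _
    have ht1 : (s - l (fun _ => d)) / c i ≤ t := le_max_right _ _
    rw [div_le_iff₀ hi] at ht1
    have hu : ((fun _ => d) + t • (fun j => if i = j then 1 else 0) : Fin n → ℝ) ∈ W := by
      intro j _
      show d / 2 < d + t * (if i = j then 1 else 0)
      split_ifs <;> linarith
    have h3 := h1 _ hu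
    rw [map_add, map_smul, smul_eq_mul] at h3
    have h4 : t * l (fun j => if i = j then 1 else 0) = t * c i := rfl
    rw [h4] at h3
    linarith
  set σ : ℝ := ∑ i, -c i with hσ
  have hσc : ∑ i, c i = -σ := by rw [hσ, Finset.sum_neg_distrib, neg_neg]
  have hσ0 : 0 ≤ σ := Finset.sum_nonneg fun i _ => neg_nonneg.2 (hc i)
  have hu : (fun _ => 3 * d / 4 : Fin n → ℝ) ∈ W := fun j _ => by
    show d / 2 < 3 * d / 4
    linarith
  have h3 := h1 _ hu
  rw [hconst, hσc] at h3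
  have hσ1 : 0 < σ := by
    refine lt_of_le_of_ne hσ0 fun h0 => ?_
    have h4 : ∀ i, c i = 0 := fun i => by
      have h5 := (Finset.sum_eq_zero_iff_of_nonneg fun i _ => neg_nonneg.2 (hc i)).1 h0.symm i
        (Finset.mem_univ i)
      linarith
    have h5 : (fun _ => 0 : Fin n → ℝ) ∈ A :=
      ⟨_, _, _, hz, fun i => by simp [gap]⟩
    have h6 := h2 _ h5
    rw [hconst, zero_mul] at h6
    rw [← h0] at h3
    linarith
  obtain ⟨f, D, B, hf, h4⟩ := h n (fun i => -c i / σ) x y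
    (fun i => div_nonneg (neg_nonneg.2 (hc i)) hσ0)
    (by rw [← Finset.sum_div, ← hσ, div_self hσ1.ne']) hxy
  have h5 := h2 (fun i => gap f (x i) (y i)) ⟨f, D, B, hf, fun i => le_rfl⟩
  have h6 : l (fun i => gap f (x i) (y i)) = -σ * ∑ i, -c i / σ * gap f (x i) (y i) := by
    rw [hl, Finset.mul_sum]
    refine Finset.sum_congr rfl fun i _ => ?_
    field_simp
  have h7 : σ * d ≤ σ * ∑ i, -c i / σ * gap f (x i) (y i) := mul_le_mul_of_nonneg_left h4 hσ0
  have h8 : 0 < σ * d := mul_pos hσ1 hd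
  rw [h6] at h5
  linarith

end Pool.Agent.H47.FH
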