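import Pool.Agent.H47.FH.D

/-!
# H4: estimates on a subspace
-/

set_option autoImplicit false

open Filter Topology

namespace Pool.Agent.H47.FH

variable {X : Type*} [NormedAddCommGroup X] [NormedSpace ℝ X]

section gen

variable {E : Type*} [NormedAddCommGroup E] [NormedSpace ℝ E]

/-- The mean value inequality on the segment from `x` to `x + k`. -/
theorem mv_seg {G : Type*} [NormedAddCommGroup G] [NormedSpace ℝ G] {F : E → G}
    {F' : E → E →L[ℝ] G} {t : ℝ} {x k : E} (hx : ‖x‖ < 1) (hk : ‖x + k‖ < 1)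
    (hd : ∀ y : E, ‖y‖ < 1 → HasFDerivAt F (F' y) y)
    (hb : ∀ y : E, ‖y‖ < 1 → ‖y - x‖ ≤ ‖k‖ → ‖F' y - F' x‖ ≤ t) :
    ‖F (x + k) - F x - F' x k‖ ≤ t * ‖k‖ := by
  have hsub : ∀ y ∈ segment ℝ x (x + k), ‖y‖ < 1 := by
    intro y hy
    have h1 : y ∈ Metric.ball (0 : E) 1 :=
      (convex_ball (0 : E) 1).segment_subset (by simpa using hx) (by simpa using hk) hy
    simpa using h1
  have hle : ∀ y ∈ segment ℝ x (x + k), ‖y - x‖ ≤ ‖k‖ := by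
    intro y hy
    have h1 := norm_sub_le_of_mem_segment hy
    rwa [add_sub_cancel_left] at h1
  have key := Convex.norm_image_sub_le_of_norm_hasFDerivWithin_le' (f := F) (f' := F')
    (φ := F' x) (C := t) (s := segment ℝ x (x + k))
    (fun y hy => (hd y (hsub y hy)).hasFDerivWithinAt)
    (fun y hy => hb y (hsub y hy) (hle y hy)) (convex_segment x (x + k))
    (left_mem_segment ℝ x (x + k)) (right_mem_segment ℝ x (x + k))
  rwa [add_sub_cancel_left] at key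

theorem lip_gen {G : Type*} [NormedAddCommGroup G] [NormedSpace ℝ G] {F : E → G}
    {F' : E → E →L[ℝ] G} {C : ℝ} (hd : ∀ y : E, ‖y‖ < 1 → HasFDerivAt F (F' y) y)
    (hb : ∀ y : E, ‖y‖ < 1 → ‖F' y‖ ≤ C) {x y : E} (hx : ‖x‖ < 1) (hy : ‖y‖ < 1) :
    ‖F y - F x‖ ≤ C * ‖y - x‖ :=
  Convex.norm_image_sub_le_of_norm_hasFDerivWithin_le (f := F) (f' := F') (C := C)
    (s := Metric.ball (0 : E) 1)
    (fun z hz => (hd z (by simpa using hz)).hasFDerivWithinAt)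
    (fun z hz => hb z (by simpa using hz)) (convex_ball (0 : E) 1)
    (by simpa using hx) (by simpa using hy)

theorem e1_gen {C : ℝ} {v : ℝ → ℝ} (hC : 0 ≤ C) {f : E → ℝ} {D : E → E →L[ℝ] ℝ}
    {B : E → E →L[ℝ] E →L[ℝ] ℝ} (h : Fn C v f D B) {x k : E} (hx : ‖x‖ < 1)
    (hk : ‖x + k‖ < 1) : |f (x + k) - f x - D x k| ≤ C * ‖k‖ ^ 2 := by
  have h1 := mv_seg (F := f) (F' := D) (t := C * ‖k‖) hx hk h.d1 (fun y hy hyk =>
    (lip_gen (F := D) (F' := B) h.d2 h.bB hx hy).trans (mul_le_mul_of_nonneg_left hyk hC))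
  rw [Real.norm_eq_abs] at h1
  refine h1.trans (le_of_eq ?_)
  ring

theorem e2_gen {C : ℝ} {v : ℝ → ℝ} {f : E → ℝ} {D : E → E →L[ℝ] ℝ}
    {B : E → E →L[ℝ] E →L[ℝ] ℝ} (h : Fn C v f D B) {t : ℝ} (ht : 0 < t) {x k : E}
    (hx : ‖x‖ < 1) (hk : ‖x + k‖ < 1) (hv : ‖k‖ ≤ v t) (l : E) :
    |D (x + k) l - D x l - B x k l| ≤ t * ‖k‖ * ‖l‖ := by
  have h1 := mv_seg (F := D) (F' := B) (t := t) hx hk h.d2 (fun y hy hyk =>
    h.uc t ht y x hy hx (hyk.trans hv))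
  have h2 : |(D (x + k) - D x - B x k) l| ≤ ‖D (x + k) - D x - B x k‖ * ‖l‖ := by
    rw [← Real.norm_eq_abs]
    exact (D (x + k) - D x - B x k).le_opNorm l
  have h3 : (D (x + k) - D x - B x k) l = D (x + k) l - D x l - B x k l := rfl
  rw [h3] at h2
  exact h2.trans (mul_le_mul_of_nonneg_right h1 (norm_nonneg l))

theorem bd1_gen {C : ℝ} {L : E →L[ℝ] ℝ} (h : ‖L‖ ≤ C) (k : E) : |L k| ≤ C * ‖k‖ := by
  rw [← Real.norm_eq_abs]
  exact (L.le_opNorm k).trans (mul_le_mul_of_nonneg_right h (norm_nonneg k))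

theorem bd2_gen {C : ℝ} {L : E →L[ℝ] E →L[ℝ] ℝ} (h : ‖L‖ ≤ C) (k l : E) :
    |L k l| ≤ C * ‖k‖ * ‖l‖ := by
  rw [← Real.norm_eq_abs]
  refine ((L k).le_opNorm l).trans (mul_le_mul_of_nonneg_right ?_ (norm_nonneg l))
  exact (L.le_opNorm k).trans (mul_le_mul_of_nonneg_right h (norm_nonneg k))

end gen

open scoped Classical in
/-- ROW H4. Extend `f`, `D`, `B` by 0 off `S`. `e1`: on the (convex) ball `‖D y - D x‖ ≤ C ‖y - x‖` by the mean value inequality and `bB`, then the mean value inequality for `f - D x` on the segment; `e2`: mean value inequality for `D - B x` on the segment from `x` to `x + h`, where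
`‖B y - B x‖ ≤ t`. (`Convex.norm_image_sub_le_of_norm_hasFDerivWithin_le`, `..._le'`; see `Pool/Agent/H47/SS/L1.lean` for a similar proof.) -/
theorem est_of_fn {C : ℝ} {v : ℝ → ℝ} (hC : 0 ≤ C) (S : Submodule ℝ X) {f : S → ℝ}
    {D : S → S →L[ℝ] ℝ} {B : S → S →L[ℝ] S →L[ℝ] ℝ} (h : Fn C v f D B) :
    ∃ (f' : X → ℝ) (D' : X → X → ℝ) (B' : X → X → X → ℝ),
      (∀ (x : X) (hx : x ∈ S), f' x = f ⟨x, hx⟩) ∧ EstB C v S f' D' B' := by
  set f' : X → ℝ := fun x => if hx : x ∈ S then f ⟨x, hx⟩ else 0 with hf'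
  set D' : X → X → ℝ := fun x k =>
    if hx : x ∈ S then if hk : k ∈ S then D ⟨x, hx⟩ ⟨k, hk⟩ else 0 else 0 with hD'
  set B' : X → X → X → ℝ := fun x k l =>
    if hx : x ∈ S then if hk : k ∈ S then if hl : l ∈ S then
      B ⟨x, hx⟩ ⟨k, hk⟩ ⟨l, hl⟩ else 0 else 0 else 0 with hB'
  have ef : ∀ (x : X) (hx : x ∈ S), f' x = f ⟨x, hx⟩ := fun x hx => dif_pos hx
  have eD : ∀ (x : X) (hx : x ∈ S) (k : X) (hk : k ∈ S), D' x k = D ⟨x, hx⟩ ⟨k, hk⟩ := by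
    intro x hx k hk
    rw [hD']
    simp only [dif_pos hx, dif_pos hk]
  have eB : ∀ (x : X) (hx : x ∈ S) (k : X) (hk : k ∈ S) (l : X) (hl : l ∈ S),
      B' x k l = B ⟨x, hx⟩ ⟨k, hk⟩ ⟨l, hl⟩ := by
    intro x hx k hk l hl
    rw [hB']
    simp only [dif_pos hx, dif_pos hk, dif_pos hl]
  refine ⟨f', D', B', ef, ?_⟩
  constructor
  · intro x hx hn
    rw [ef x hx]
    exact h.bf ⟨x, hx⟩ hn
  · intro x hx y hy hnx hny a b ha hb hab
    rw [ef x hx, ef y hy, ef _ (S.add_mem (S.smul_mem a hx) (S.smul_mem b hy))]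
    have h1 : (⟨x, hx⟩ : S) ∈ Metric.ball (0 : S) 1 := by
      rw [mem_ball_zero_iff]
      exact hnx
    have h2 : (⟨y, hy⟩ : S) ∈ Metric.ball (0 : S) 1 := by
      rw [mem_ball_zero_iff]
      exact hny
    exact h.cvx.2 h1 h2 ha hb hab
  · intro x hx _ k hk l hl
    rw [eD x hx _ (S.add_mem hk hl), eD x hx k hk, eD x hx l hl]
    exact (D ⟨x, hx⟩).map_add ⟨k, hk⟩ ⟨l, hl⟩
  · intro x hx _ t k hk
    rw [eD x hx _ (S.smul_mem t hk), eD x hx k hk]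
    exact (D ⟨x, hx⟩).map_smul t ⟨k, hk⟩
  · intro x hx hn k hk
    rw [eD x hx k hk]
    exact bd1_gen (h.bD ⟨x, hx⟩ hn) ⟨k, hk⟩
  · intro x hx _ k hk k' hk' l hl
    rw [eB x hx _ (S.add_mem hk hk') l hl, eB x hx k hk l hl, eB x hx k' hk' l hl]
    exact congrArg (fun T : S →L[ℝ] ℝ => T ⟨l, hl⟩)
      ((B ⟨x, hx⟩).map_add ⟨k, hk⟩ ⟨k', hk'⟩)
  · intro x hx _ t k hk l hl
    rw [eB x hx _ (S.smul_mem t hk) l hl, eB x hx k hk l hl]
    exact congrArg (fun T : S →L[ℝ] ℝ => T ⟨l, hl⟩) ((B ⟨x, hx⟩).map_smul t ⟨k, hk⟩)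
  · intro x hx _ k hk l hl l' hl'
    rw [eB x hx k hk _ (S.add_mem hl hl'), eB x hx k hk l hl, eB x hx k hk l' hl']
    exact (B ⟨x, hx⟩ ⟨k, hk⟩).map_add ⟨l, hl⟩ ⟨l', hl'⟩
  · intro x hx _ t k hk l hl
    rw [eB x hx k hk _ (S.smul_mem t hl), eB x hx k hk l hl]
    exact (B ⟨x, hx⟩ ⟨k, hk⟩).map_smul t ⟨l, hl⟩
  · intro x hx hn k hk l hl
    rw [eB x hx k hk l hl]
    exact bd2_gen (h.bB ⟨x, hx⟩ hn) ⟨k, hk⟩ ⟨l, hl⟩
  · intro x hx k hk hn hn'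
    rw [ef x hx, ef _ (S.add_mem hx hk), eD x hx k hk]
    exact e1_gen hC h (x := ⟨x, hx⟩) (k := ⟨k, hk⟩) hn hn'
  · intro t ht x hx k hk l hl hn hn' hv
    rw [eD _ (S.add_mem hx hk) l hl, eD x hx l hl, eB x hx k hk l hl]
    exact e2_gen h ht (x := ⟨x, hx⟩) (k := ⟨k, hk⟩) hn hn' hv ⟨l, hl⟩
  · intro t ht x hx y hy k hk l hl hn hn' hv
    rw [eB x hx k hk l hl, eB y hy k hk l hl]
    exact bd2_gen (L := B ⟨x, hx⟩ - B ⟨y, hy⟩) (h.uc t ht ⟨x, hx⟩ ⟨y, hy⟩ hn hn' hv)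
      ⟨k, hk⟩ ⟨l, hl⟩

end Pool.Agent.H47.FH
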