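import Pool.Agent.H47.FH.D

/-!
# H5: limits along an ultrafilter
-/

set_option autoImplicit false

open Filter Topology

namespace Pool.Agent.H47.FH

variable {X : Type*} [NormedAddCommGroup X] [NormedSpace ℝ X]

/-- bounded real functions converge along an ultrafilter -/
theorem h5_lim_bdd {ι : Type*} (U : Ultrafilter ι) (g : ι → ℝ) (K : ℝ)
    (hg : ∀ᶠ i in (U : Filter ι), |g i| ≤ K) : ∃ L : ℝ, Tendsto g U (𝓝 L) := by
  have hc : IsCompact (Set.Icc (-K) K) := isCompact_Icc
  have h1 : (Set.Icc (-K) K) ∈ (U.map g : Filter ℝ) := by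
    rw [Ultrafilter.coe_map, Filter.mem_map]
    filter_upwards [hg] with i hi
    exact ⟨(abs_le.1 hi).1, (abs_le.1 hi).2⟩
  obtain ⟨L, -, hL⟩ := hc.ultrafilter_le_nhds' (U.map g) h1
  refine ⟨L, ?_⟩
  rw [Ultrafilter.coe_map] at hL
  exact hL

/-- ROW H5. Limits of bounded real functions along an ultrafilter exist (see `exists_funs0` in Pool/Agent/H47/SS/L2.lean and `est0_lim` in Pool/Agent/H47/SS/L3.lean, whose proofs can be copied); all conditions of `EstB` are closed and involve finitely many points, which eventually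
belong to `S i`. -/
theorem exists_lim {ι : Type*} (U : Ultrafilter ι) (C : ℝ) (v : ℝ → ℝ) (S : ι → Submodule ℝ X)
    (f : ι → X → ℝ) (D : ι → X → X → ℝ) (B : ι → X → X → X → ℝ)
    (hE : ∀ i, EstB C v (S i) (f i) (D i) (B i))
    (hS : ∀ x : X, ∀ᶠ i in (U : Filter ι), x ∈ S i) :
    ∃ (f' : X → ℝ) (D' : X → X → ℝ) (B' : X → X → X → ℝ),
      (∀ x, ‖x‖ < 1 → Tendsto (fun i => f i x) U (𝓝 (f' x))) ∧ EstB C v ⊤ f' D' B' := by
  have hf : ∀ x : X, ∃ L : ℝ, ‖x‖ < 1 → Tendsto (fun i => f i x) U (𝓝 L) := by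
    intro x
    by_cases hx : ‖x‖ < 1
    · obtain ⟨L, hL⟩ := h5_lim_bdd U (fun i => f i x) C (by
        filter_upwards [hS x] with i hi
        exact (hE i).bf x hi hx)
      exact ⟨L, fun _ => hL⟩
    · exact ⟨0, fun h0 => absurd h0 hx⟩
  have hD : ∀ x h : X, ∃ L : ℝ, ‖x‖ < 1 → Tendsto (fun i => D i x h) U (𝓝 L) := by
    intro x h
    by_cases hx : ‖x‖ < 1
    · obtain ⟨L, hL⟩ := h5_lim_bdd U (fun i => D i x h) (C * ‖h‖) (by
        filter_upwards [hS x, hS h] with i hi hj
        exact (hE i).Dbd x hi hx h hj)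
      exact ⟨L, fun _ => hL⟩
    · exact ⟨0, fun h0 => absurd h0 hx⟩
  have hB : ∀ x h k : X, ∃ L : ℝ, ‖x‖ < 1 → Tendsto (fun i => B i x h k) U (𝓝 L) := by
    intro x h k
    by_cases hx : ‖x‖ < 1
    · obtain ⟨L, hL⟩ := h5_lim_bdd U (fun i => B i x h k) (C * ‖h‖ * ‖k‖) (by
        filter_upwards [hS x, hS h, hS k] with i hi hj hk
        exact (hE i).Bbd x hi hx h hj k hk)
      exact ⟨L, fun _ => hL⟩
    · exact ⟨0, fun h0 => absurd h0 hx⟩
  choose f' hf' using hf
  choose D' hD' using hD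
  choose B' hB' using hB
  have tf : ∀ x : X, ‖x‖ < 1 → Tendsto (fun i => f i x) U (𝓝 (f' x)) := fun x hx => hf' x hx
  have tD : ∀ x : X, ‖x‖ < 1 → ∀ h, Tendsto (fun i => D i x h) U (𝓝 (D' x h)) :=
    fun x hx h => hD' x h hx
  have tB : ∀ x : X, ‖x‖ < 1 → ∀ h k, Tendsto (fun i => B i x h k) U (𝓝 (B' x h k)) :=
    fun x hx h k => hB' x h k hx
  refine ⟨f', D', B', tf, ?_⟩
  refine
    { bf := ?_, cvx := ?_, Dadd := ?_, Dsmul := ?_, Dbd := ?_,
      Badd₁ := ?_, Bsmul₁ := ?_, Badd₂ := ?_, Bsmul₂ := ?_, Bbd := ?_, e1 := ?_, e2 := ?_,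
      uc := ?_ }
  · intro x _ hx
    refine le_of_tendsto_of_tendsto (tf x hx).abs tendsto_const_nhds ?_
    filter_upwards [hS x] with i hi using (hE i).bf x hi hx
  · intro x _ y _ hx hy a b ha hb hab
    have hxy : ‖a • x + b • y‖ < 1 := by
      have hc : a • x + b • y ∈ Metric.ball (0 : X) 1 :=
        (convex_ball (0 : X) 1) (by rw [mem_ball_zero_iff]; exact hx)
          (by rw [mem_ball_zero_iff]; exact hy) ha hb hab
      rw [mem_ball_zero_iff] at hc
      exact hc
    refine le_of_tendsto_of_tendsto (tf _ hxy)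
      (((tf x hx).const_mul a).add ((tf y hy).const_mul b)) ?_
    filter_upwards [hS x, hS y] with i hi hj using (hE i).cvx x hi y hj hx hy a b ha hb hab
  · intro x _ hx h _ k _
    refine tendsto_nhds_unique_of_eventuallyEq (tD x hx (h + k))
      ((tD x hx h).add (tD x hx k)) ?_
    filter_upwards [hS x, hS h, hS k] with i hi hi' hi'' using (hE i).Dadd x hi hx h hi' k hi''
  · intro x _ hx t h _
    refine tendsto_nhds_unique_of_eventuallyEq (tD x hx (t • h)) ((tD x hx h).const_mul t) ?_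
    filter_upwards [hS x, hS h] with i hi hi' using (hE i).Dsmul x hi hx t h hi'
  · intro x _ hx h _
    refine le_of_tendsto_of_tendsto (tD x hx h).abs tendsto_const_nhds ?_
    filter_upwards [hS x, hS h] with i hi hi' using (hE i).Dbd x hi hx h hi'
  · intro x _ hx h _ h' _ k _
    refine tendsto_nhds_unique_of_eventuallyEq (tB x hx (h + h') k)
      ((tB x hx h k).add (tB x hx h' k)) ?_
    filter_upwards [hS x, hS h, hS h', hS k] with i a b c d using
      (hE i).Badd₁ x a hx h b h' c k d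
  · intro x _ hx t h _ k _
    refine tendsto_nhds_unique_of_eventuallyEq (tB x hx (t • h) k)
      ((tB x hx h k).const_mul t) ?_
    filter_upwards [hS x, hS h, hS k] with i a b c using (hE i).Bsmul₁ x a hx t h b k c
  · intro x _ hx h _ k _ k' _
    refine tendsto_nhds_unique_of_eventuallyEq (tB x hx h (k + k'))
      ((tB x hx h k).add (tB x hx h k')) ?_
    filter_upwards [hS x, hS h, hS k, hS k'] with i a b c d using
      (hE i).Badd₂ x a hx h b k c k' d
  · intro x _ hx t h _ k _
    refine tendsto_nhds_unique_of_eventuallyEq (tB x hx h (t • k))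
      ((tB x hx h k).const_mul t) ?_
    filter_upwards [hS x, hS h, hS k] with i a b c using (hE i).Bsmul₂ x a hx t h b k c
  · intro x _ hx h _ k _
    refine le_of_tendsto_of_tendsto (tB x hx h k).abs tendsto_const_nhds ?_
    filter_upwards [hS x, hS h, hS k] with i a b c using (hE i).Bbd x a hx h b k c
  · intro x _ h _ hx hxh
    refine le_of_tendsto_of_tendsto (((tf _ hxh).sub (tf x hx)).sub (tD x hx h)).abs
      tendsto_const_nhds ?_
    filter_upwards [hS x, hS h] with i a b using (hE i).e1 x a h b hx hxh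
  · intro t ht x _ h _ k _ hx hxh hh
    refine le_of_tendsto_of_tendsto
      (((tD (x + h) hxh k).sub (tD x hx k)).sub (tB x hx h k)).abs
      tendsto_const_nhds ?_
    filter_upwards [hS x, hS h, hS k] with i a b c using (hE i).e2 t ht x a h b k c hx hxh hh
  · intro t ht x _ y _ h _ k _ hx hy hxy
    refine le_of_tendsto_of_tendsto
      ((tB x hx h k).sub (tB y hy h k)).abs tendsto_const_nhds ?_
    filter_upwards [hS x, hS y, hS h, hS k] with i a b c d using
      (hE i).uc t ht x a y b h c k d hx hy hxy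

end Pool.Agent.H47.FH
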