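import Pool.Agent.H47.FH.D

/-!
# H6: from estimates to derivatives
-/

set_option autoImplicit false

open Filter Topology

namespace Pool.Agent.H47.FH

variable {X : Type*} [NormedAddCommGroup X] [NormedSpace ℝ X]

/-- ROW H6. For `‖x‖ < 1` `D' x`, `B' x` are built with `LinearMap.mkContinuous` and `LinearMap.mkContinuous₂`, `0` otherwise (see Pool/Agent/H47/SS/L5.lean for a similar proof: `unifC2_of_est0`). `e1` and `e2` give the derivatives (for `‖x‖ < 1` and small `h` also `‖x + h‖ < 1`). -/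
theorem fn_of_est {C : ℝ} {v : ℝ → ℝ} (hC : 0 ≤ C) (hv : ∀ t : ℝ, 0 < t → 0 < v t) {f : X → ℝ}
    {D : X → X → ℝ} {B : X → X → X → ℝ} (h : EstB C v ⊤ f D B) :
    ∃ (D' : X → X →L[ℝ] ℝ) (B' : X → X →L[ℝ] X →L[ℝ] ℝ), Fn C v f D' B' := by
  have h1 : ∀ x : X, ∃ D' : X →L[ℝ] ℝ, ‖x‖ < 1 → (∀ k, D' k = D x k) ∧ ‖D'‖ ≤ C := by
    intro x
    by_cases hx : ‖x‖ < 1
    · let L : X →ₗ[ℝ] ℝ :=
        { toFun := D x
          map_add' := fun a b => h.Dadd x trivial hx a trivial b trivial
          map_smul' := fun t a => h.Dsmul x trivial hx t a trivial }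
      refine ⟨L.mkContinuous C ?_, fun _ => ⟨fun _ => rfl, LinearMap.mkContinuous_norm_le _ hC _⟩⟩
      intro a
      exact h.Dbd x trivial hx a trivial
    · exact ⟨0, fun h => absurd h hx⟩
  have h2 : ∀ x : X, ∃ B' : X →L[ℝ] X →L[ℝ] ℝ, ‖x‖ < 1 → (∀ a k, B' a k = B x a k) ∧ ‖B'‖ ≤ C := by
    intro x
    by_cases hx : ‖x‖ < 1
    · let L : X →ₗ[ℝ] X →ₗ[ℝ] ℝ := LinearMap.mk₂ ℝ (B x)
        (fun a b c => h.Badd₁ x trivial hx a trivial b trivial c trivial)
        (fun t a c => h.Bsmul₁ x trivial hx t a trivial c trivial)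
        (fun a b c => h.Badd₂ x trivial hx a trivial b trivial c trivial)
        (fun t a c => h.Bsmul₂ x trivial hx t a trivial c trivial)
      refine ⟨L.mkContinuous₂ C ?_, fun _ => ⟨fun _ _ => rfl, LinearMap.mkContinuous₂_norm_le _ hC _⟩⟩
      intro a b
      exact h.Bbd x trivial hx a trivial b trivial
    · exact ⟨0, fun h => absurd h hx⟩
  choose D' hD' using h1
  choose B' hB' using h2
  have hD : ∀ x, ‖x‖ < 1 → ∀ k, D' x k = D x k := fun x hx => (hD' x hx).1
  have hB : ∀ x, ‖x‖ < 1 → ∀ a k, B' x a k = B x a k := fun x hx => (hB' x hx).1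
  have hadd : ∀ x z : X, ‖x‖ < 1 → ‖z‖ < 1 - ‖x‖ → ‖x + z‖ < 1 := by
    intro x z _ hz
    have := norm_add_le x z
    linarith
  refine ⟨D', B', ?_, ?_, ?_, ?_, ?_, ?_, ?_⟩
  · refine ⟨convex_ball 0 1, ?_⟩
    intro x hx y hy a b ha hb hab
    rw [mem_ball_zero_iff] at hx hy
    have h3 := h.cvx x trivial y trivial hx hy a b ha hb hab
    rw [smul_eq_mul, smul_eq_mul]
    exact h3
  · intro x hx
    rw [hasFDerivAt_iff_isLittleO_nhds_zero]
    have key : (fun k : X => f (x + k) - f x - D' x k) =O[𝓝 0] fun k : X => ‖k‖ ^ 2 := by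
      apply Asymptotics.IsBigO.of_bound C
      filter_upwards [Metric.ball_mem_nhds (0 : X) (sub_pos.2 hx)] with k hk
      rw [mem_ball_zero_iff] at hk
      rw [hD x hx, Real.norm_eq_abs, Real.norm_of_nonneg (by positivity)]
      exact h.e1 x trivial k trivial hx (hadd x k hx hk)
    exact key.trans_isLittleO (Asymptotics.isLittleO_norm_pow_id one_lt_two)
  · intro x hx
    rw [hasFDerivAt_iff_isLittleO_nhds_zero, Asymptotics.isLittleO_iff]
    intro c hc
    filter_upwards [Metric.ball_mem_nhds (0 : X) (sub_pos.2 hx), Metric.ball_mem_nhds (0 : X) (hv c hc)] with z hz hz'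
    rw [mem_ball_zero_iff] at hz hz'
    have hxz := hadd x z hx hz
    refine ContinuousLinearMap.opNorm_le_bound _ (by positivity) fun k => ?_
    have h4 : (D' (x + z) - D' x - B' x z) k = D (x + z) k - D x k - B x z k := by
      rw [sub_apply, sub_apply, hD _ hxz, hD _ hx, hB _ hx]
    rw [h4, Real.norm_eq_abs]
    exact h.e2 c hc x trivial z trivial k trivial hx hxz hz'.le
  · intro x hx
    exact h.bf x trivial hx
  · intro x hx
    exact (hD' x hx).2
  · intro x hx
    exact (hB' x hx).2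
  · intro t ht x y hx hy hxy
    refine ContinuousLinearMap.opNorm_le_bound _ ht.le fun z => ?_
    refine ContinuousLinearMap.opNorm_le_bound _ (by positivity) fun k => ?_
    have h4 : ((B' x - B' y) z) k = B x z k - B y z k := by
      rw [sub_apply, sub_apply, hB _ hx, hB _ hy]
    rw [h4, Real.norm_eq_abs]
    exact h.uc t ht x trivial y trivial z trivial k trivial hx hy hxy

end Pool.Agent.H47.FH
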