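import Pool.Agent.H47.FH.H3
import Pool.Agent.H47.FH.H4
import Pool.Agent.H47.FH.H5
import Pool.Agent.H47.FH.H6

/-!
# H7: a function on the whole space
-/

set_option autoImplicit false

open Filter Topology

namespace Pool.Agent.H47.FH

variable {X : Type*} [NormedAddCommGroup X] [NormedSpace ℝ X]

/-- The function on the span of a finite set. -/
theorem exists_fn_span {e C d : ℝ} {v : ℝ → ℝ} (hC : 0 < C) (hd : 0 < d)
    (h : ∀ E : Submodule ℝ X, FiniteDimensional ℝ E → Avg e C d v E) (F : Finset X) :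
    ∃ (f : Submodule.span ℝ (F : Set X) → ℝ)
      (D : Submodule.span ℝ (F : Set X) → Submodule.span ℝ (F : Set X) →L[ℝ] ℝ)
      (B : Submodule.span ℝ (F : Set X) → Submodule.span ℝ (F : Set X) →L[ℝ]
        Submodule.span ℝ (F : Set X) →L[ℝ] ℝ), Fn C v f D B ∧
      ∀ (x y : X) (hx : x ∈ Submodule.span ℝ (F : Set X))
        (hy : y ∈ Submodule.span ℝ (F : Set X)), x ∈ F → y ∈ F → ‖x‖ < 1 → ‖y‖ < 1 →
          e ≤ ‖x - y‖ → d / 2 ≤ gap f ⟨x, hx⟩ ⟨y, hy⟩ := by
  classical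
  let P : Finset (X × X) :=
    (F ×ˢ F).filter (fun q => ‖q.1‖ < 1 ∧ ‖q.2‖ < 1 ∧ e ≤ ‖q.1 - q.2‖)
  have hP : ∀ q : P, (q.1.1 ∈ F ∧ q.1.2 ∈ F) ∧
      (‖q.1.1‖ < 1 ∧ ‖q.1.2‖ < 1 ∧ e ≤ ‖q.1.1 - q.1.2‖) := by
    intro q
    have h1 := Finset.mem_filter.1 q.2
    exact ⟨Finset.mem_product.1 h1.1, h1.2⟩
  have hfin : FiniteDimensional ℝ (Submodule.span ℝ (F : Set X)) :=
    FiniteDimensional.span_finset ℝ F
  obtain ⟨f, D, B, hF, hg⟩ := exists_of_avg hC hd (h _ hfin) P.card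
    (fun i => ⟨(P.equivFin.symm i).1.1,
      Submodule.subset_span (Finset.mem_coe.2 (hP (P.equivFin.symm i)).1.1)⟩)
    (fun i => ⟨(P.equivFin.symm i).1.2,
      Submodule.subset_span (Finset.mem_coe.2 (hP (P.equivFin.symm i)).1.2)⟩)
    (fun i => (hP (P.equivFin.symm i)).2)
  refine ⟨f, D, B, hF, fun x y hx hy hxF hyF h1 h2 h3 => ?_⟩
  have hq : (x, y) ∈ P := Finset.mem_filter.2 ⟨Finset.mem_product.2 ⟨hxF, hyF⟩, h1, h2, h3⟩
  have := hg (P.equivFin ⟨(x, y), hq⟩)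
  simp only [Equiv.symm_apply_apply] at this
  exact this

/-- ROW H7. For a finite `F ⊆ X` let `S F = span F`; the pairs in `F × F` with norms `< 1` and distance `≥ e` can be listed as `x i, y i`, `i : Fin n` (`Finset.equivFin`), so `exists_of_avg` gives `f F` on `S F` with gap `≥ d / 2` for all these pairs. `est_of_fn`, `exists_lim` along
`Ultrafilter.of atTop` (see `exists_norm_scale` in Pool/Agent/H47/SS/G2.lean) and `fn_of_est`; the gap inequality passes to the limit for all `x, y` (eventually `x, y ∈ F`). -/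
theorem exists_fn_of_avg {e C d : ℝ} {v : ℝ → ℝ} (hC : 0 < C) (hd : 0 < d)
    (hv : ∀ t : ℝ, 0 < t → 0 < v t)
    (h : ∀ E : Submodule ℝ X, FiniteDimensional ℝ E → Avg e C d v E) :
    ∃ (f : X → ℝ) (D : X → X →L[ℝ] ℝ) (B : X → X →L[ℝ] X →L[ℝ] ℝ), Fn C v f D B ∧
      ∀ x y : X, ‖x‖ < 1 → ‖y‖ < 1 → e ≤ ‖x - y‖ → d / 2 ≤ gap f x y := by
  classical
  choose f0 D0 B0 hF hg using exists_fn_span (X := X) hC hd h
  choose f D B hfe hE using fun F : Finset X =>
    est_of_fn hC.le (Submodule.span ℝ (F : Set X)) (hF F)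
  let U : Ultrafilter (Finset X) := Ultrafilter.of atTop
  have hU : (U : Filter (Finset X)) ≤ atTop := Ultrafilter.of_le _
  have hm : ∀ x : X, ∀ᶠ F : Finset X in (U : Filter (Finset X)), x ∈ F := by
    intro x
    apply hU
    filter_upwards [eventually_ge_atTop ({x} : Finset X)] with F hF
    exact hF (Finset.mem_singleton_self x)
  have hS : ∀ x : X, ∀ᶠ F : Finset X in (U : Filter (Finset X)),
      x ∈ Submodule.span ℝ (F : Set X) := by
    intro x
    filter_upwards [hm x] with F hF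
    exact Submodule.subset_span hF
  obtain ⟨f', D', B', hl, hE'⟩ := exists_lim U C v
    (fun F : Finset X => Submodule.span ℝ (F : Set X)) f D B hE hS
  obtain ⟨D1, B1, hFn⟩ := fn_of_est hC.le hv hE'
  refine ⟨f', D1, B1, hFn, fun x y hx hy hxy => ?_⟩
  have hz : ‖(1 / 2 : ℝ) • (x + y)‖ < 1 := by
    have h1 : ‖x + y‖ ≤ ‖x‖ + ‖y‖ := norm_add_le x y
    rw [norm_smul, Real.norm_eq_abs, abs_of_pos (by norm_num : (0 : ℝ) < 1 / 2)]
    linarith
  have hlim : Tendsto (fun F => gap (f F) x y) U (𝓝 (gap f' x y)) :=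
    ((hl x hx).add (hl y hy)).sub ((hl _ hz).const_mul 2)
  refine ge_of_tendsto hlim ?_
  filter_upwards [hm x, hm y] with F hxF hyF
  have hx' : x ∈ Submodule.span ℝ (F : Set X) := Submodule.subset_span hxF
  have hy' : y ∈ Submodule.span ℝ (F : Set X) := Submodule.subset_span hyF
  have h1 := hg F x y hx' hy' hxF hyF hx hy hxy
  unfold gap at h1 ⊢
  rw [hfe F x hx', hfe F y hy', hfe F ((1 / 2 : ℝ) • (x + y))
    (Submodule.smul_mem _ _ (Submodule.add_mem _ hx' hy'))]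
  exact h1

end Pool.Agent.H47.FH
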