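import Pool.Agent.H47.SS.G2

/-!
# I1: the norm may be chosen close to a given one
-/

set_option autoImplicit false

open Filter Topology

namespace Pool.Agent.H47.FH

open Pool.Agent.H47.SR Pool.Agent.H47.SS

variable {X : Type*} [NormedAddCommGroup X] [NormedSpace ℝ X]

private theorem i1_mink {c a b a' b' : ℝ} (hc : 0 < c) (ha : 0 ≤ a) (hb : 0 ≤ b) (ha' : 0 ≤ a')
    (hb' : 0 ≤ b') : ((a + a') ^ 3 + c * (b + b') ^ 3) ^ (1 / 3 : ℝ) ≤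
      (a ^ 3 + c * b ^ 3) ^ (1 / 3 : ℝ) + (a' ^ 3 + c * b' ^ 3) ^ (1 / 3 : ℝ) := by
  have hc1 : 0 ≤ c ^ (1 / 3 : ℝ) := Real.rpow_nonneg hc.le _
  have h := Real.Lp_add_le_of_nonneg (s := (Finset.univ : Finset (Fin 2)))
    (f := ![a, c ^ (1 / 3 : ℝ) * b]) (g := ![a', c ^ (1 / 3 : ℝ) * b']) (p := 3) (by norm_num)
    (by
      intro i _
      fin_cases i
      · exact ha
      · exact mul_nonneg hc1 hb)
    (by
      intro i _
      fin_cases i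
      · exact ha'
      · exact mul_nonneg hc1 hb')
  have e3 : ∀ t : ℝ, t ^ (3 : ℝ) = t ^ 3 := fun t => by
    rw [← Real.rpow_natCast]
    norm_num
  simp only [Fin.sum_univ_two, Matrix.cons_val_zero, Matrix.cons_val_one] at h
  rw [← mul_add, s7_f hc.le (add_nonneg hb hb'), s7_f hc.le hb, s7_f hc.le hb', e3, e3, e3] at h
  exact h

private theorem i1_norm {G : Type*} [NormedAddCommGroup G] [NormedSpace ℝ G] (s t : ℝ) (u v : G) :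
    ‖s • u + t • v‖ ≤ |s| * ‖u‖ + |t| * ‖v‖ := by
  refine (norm_add_le _ _).trans ?_
  rw [norm_smul, norm_smul, Real.norm_eq_abs, Real.norm_eq_abs]

private theorem i1_tw {f g : X → ℝ} {D D' : X → X →L[ℝ] ℝ} {B B' : X → X →L[ℝ] X →L[ℝ] ℝ}
    {C C' : ℝ} (h : Tw f D B C) (h' : Tw g D' B' C') {c : ℝ} (hc : 0 < c) :
    Tw (fun y => 1 * f y + c * g y) (fun y => (1 : ℝ) • D y + c • D' y)
      (fun y => (1 : ℝ) • B y + c • B' y) (C + c * C') where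
  d1 x := ((h.d1 x).const_mul 1).add ((h'.d1 x).const_mul c)
  d2 x := ((h.d2 x).const_smul (1 : ℝ)).add ((h'.d2 x).const_smul c)
  bf x := by
    have h1 := h.bf x
    have h2 := mul_le_mul_of_nonneg_left (h'.bf x) hc.le
    have h3 := abs_add_le (1 * f x) (c * g x)
    rw [one_mul, abs_mul, abs_of_pos hc] at h3
    rw [one_mul]
    linarith
  bD x := by
    have h1 := h.bD x
    have h2 := mul_le_mul_of_nonneg_left (h'.bD x) hc.le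
    have h3 := i1_norm (G := X →L[ℝ] ℝ) 1 c (D x) (D' x)
    rw [abs_one, abs_of_pos hc, one_mul] at h3
    refine h3.trans ?_
    linarith
  bB x := by
    have h1 := h.bB x
    have h2 := mul_le_mul_of_nonneg_left (h'.bB x) hc.le
    have h3 := i1_norm (G := X →L[ℝ] X →L[ℝ] ℝ) 1 c (B x) (B' x)
    rw [abs_one, abs_of_pos hc, one_mul] at h3
    refine h3.trans ?_
    linarith
  uc R ε hε := by
    obtain ⟨δ, hδ, k⟩ := h.uc R (ε / 2) (half_pos hε)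
    obtain ⟨δ', hδ', k'⟩ := h'.uc R (ε / (2 * c)) (by positivity)
    refine ⟨min δ δ', lt_min hδ hδ', fun x y hx hy hxy => ?_⟩
    have h1 := k x y hx hy (hxy.trans (min_le_left _ _))
    have h2 := mul_le_mul_of_nonneg_left (k' x y hx hy (hxy.trans (min_le_right _ _))) hc.le
    have h3 := comb_sub (G := X →L[ℝ] X →L[ℝ] ℝ) 1 c (B x) (B y) (B' x) (B' y)
    rw [abs_one, abs_of_pos hc, one_mul] at h3
    refine h3.trans ?_
    have e : c * (ε / (2 * c)) = ε / 2 := by field_simp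
    rw [e] at h2
    linarith

private theorem i1_eqNorm : EqNorm (fun x : X => ‖x‖) :=
  ⟨⟨1, 1, one_pos, one_pos, fun x => ⟨(one_mul ‖x‖).le, (one_mul ‖x‖).ge⟩⟩, norm_add_le,
    fun t x => by
      show ‖t • x‖ = |t| * ‖x‖
      rw [norm_smul, Real.norm_eq_abs]⟩

/-- ROW I1. `N1 x = (‖x‖ ^ 3 + c * N x ^ 3) ^ (1/3)`, `c > 0` with `1 + c C₁ ^ 3 ≤ K ^ 3` (`N x ≤ C₁ ‖x‖`). `UnifC2`: `exists_tw` (SS/G2.lean) for `‖·‖` and `N`, the sum is `Tw`, `unifC2_root` (SS/S6.lean). `EqNorm`: Minkowski (`Real.Lp_add_le`, or see `eqNorm_sum` in SS/S7.lean). `UConv`: let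
`N1 x, N1 y ≤ 1`, `ε ≤ N1 (x - y)`. Then `N x, N y ≤ R` with `c R ^ 3 = 1`, and `ε ≤ K ‖x - y‖ ≤ K C₂ N (x - y)`; `gap` (SS/S8.lean) for `N` with a scale `e` such that `e R < ε / (K C₂)`, and `mid_cube` for `‖·‖`, give
`N1 ((x + y) / 2) ^ 3 ≤ 1 - c γ`, so `N1 ((x + y) / 2) ≤ 1 - min (c γ) 1 / 3`. -/
theorem exists_improve (hU : UnifC2 (fun x : X => ‖x‖)) {N : X → ℝ} (hN : PNorm N) {K : ℝ}
    (hK : 1 < K) : ∃ N1 : X → ℝ, PNorm N1 ∧ ∀ x, ‖x‖ ≤ N1 x ∧ N1 x ≤ K * ‖x‖ := by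
  obtain ⟨hE, hC, hU'⟩ := hN
  have hE' := hE
  obtain ⟨⟨c₀, C₀, hc₀, hC₀, hb⟩, htri, hhom⟩ := hE'
  obtain ⟨c, hcd⟩ : ∃ c : ℝ, c = (K ^ 3 - 1) / C₀ ^ 3 := ⟨_, rfl⟩
  have hK3 : 1 < K ^ 3 := one_lt_pow₀ hK (by norm_num)
  have hc : 0 < c := by
    rw [hcd]
    exact div_pos (by linarith) (by positivity)
  have hcC : c * C₀ ^ 3 = K ^ 3 - 1 := by
    rw [hcd]
    exact div_mul_cancel₀ _ (by positivity)
  have hK0 : 0 < K := by linarith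
  have hN0 : ∀ x, 0 ≤ N x := S9_nonneg hE
  have hF0 : ∀ x : X, 0 ≤ 1 * ‖x‖ ^ 3 + c * N x ^ 3 := fun x =>
    add_nonneg (by positivity) (mul_nonneg hc.le (pow_nonneg (hN0 x) 3))
  have hlow3 : ∀ x : X, 1 * ‖x‖ ^ 3 ≤ 1 * ‖x‖ ^ 3 + c * N x ^ 3 := fun x =>
    le_add_of_nonneg_right (mul_nonneg hc.le (pow_nonneg (hN0 x) 3))
  have hupp3 : ∀ x : X, 1 * ‖x‖ ^ 3 + c * N x ^ 3 ≤ (K * ‖x‖) ^ 3 := by
    intro x
    have h1 : N x ^ 3 ≤ (C₀ * ‖x‖) ^ 3 := pow_le_pow_left₀ (hN0 x) (hb x).2 3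
    have h2 := mul_le_mul_of_nonneg_left h1 hc.le
    have h3 : c * (C₀ * ‖x‖) ^ 3 = (K ^ 3 - 1) * ‖x‖ ^ 3 := by
      rw [← hcC]
      ring
    rw [h3] at h2
    have h4 : (K * ‖x‖) ^ 3 = 1 * ‖x‖ ^ 3 + (K ^ 3 - 1) * ‖x‖ ^ 3 := by ring
    rw [h4]
    linarith
  have hlow : ∀ x : X, ‖x‖ ≤ (1 * ‖x‖ ^ 3 + c * N x ^ 3) ^ (1 / 3 : ℝ) := by
    intro x
    have h1 := Real.rpow_le_rpow (by positivity) (hlow3 x) (by norm_num : (0 : ℝ) ≤ 1 / 3)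
    rwa [one_mul, s7_cube_root (norm_nonneg x), ← one_mul (‖x‖ ^ 3)] at h1
  have hupp : ∀ x : X, (1 * ‖x‖ ^ 3 + c * N x ^ 3) ^ (1 / 3 : ℝ) ≤ K * ‖x‖ := by
    intro x
    have h1 := Real.rpow_le_rpow (hF0 x) (hupp3 x) (by norm_num : (0 : ℝ) ≤ 1 / 3)
    rwa [s7_cube_root (by positivity)] at h1
  refine ⟨fun x => (1 * ‖x‖ ^ 3 + c * N x ^ 3) ^ (1 / 3 : ℝ), ⟨?_, ?_, ?_⟩, fun x => ⟨hlow x, hupp x⟩⟩
  · refine ⟨⟨1, K, one_pos, hK0, fun x => ⟨?_, hupp x⟩⟩, fun x y => ?_, fun t x => ?_⟩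
    · rw [one_mul]
      exact hlow x
    · have h1 := i1_mink hc (norm_nonneg x) (hN0 x) (norm_nonneg y) (hN0 y)
      show (1 * ‖x + y‖ ^ 3 + c * N (x + y) ^ 3) ^ (1 / 3 : ℝ) ≤
        (1 * ‖x‖ ^ 3 + c * N x ^ 3) ^ (1 / 3 : ℝ) + (1 * ‖y‖ ^ 3 + c * N y ^ 3) ^ (1 / 3 : ℝ)
      rw [one_mul, one_mul, one_mul]
      refine le_trans (Real.rpow_le_rpow ?_ ?_ (by norm_num)) h1
      · exact add_nonneg (by positivity) (mul_nonneg hc.le (pow_nonneg (hN0 _) 3))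
      · have e1 : ‖x + y‖ ^ 3 ≤ (‖x‖ + ‖y‖) ^ 3 := pow_le_pow_left₀ (norm_nonneg _) (norm_add_le x y) 3
        have e2 : N (x + y) ^ 3 ≤ (N x + N y) ^ 3 := pow_le_pow_left₀ (hN0 _) (htri x y) 3
        have e3 := mul_le_mul_of_nonneg_left e2 hc.le
        linarith
    · show (1 * ‖t • x‖ ^ 3 + c * N (t • x) ^ 3) ^ (1 / 3 : ℝ) =
        |t| * (1 * ‖x‖ ^ 3 + c * N x ^ 3) ^ (1 / 3 : ℝ)
      rw [norm_smul, hhom, Real.norm_eq_abs]
      have e : 1 * (|t| * ‖x‖) ^ 3 + c * (|t| * N x) ^ 3 = |t| ^ 3 * (1 * ‖x‖ ^ 3 + c * N x ^ 3) := by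
        ring
      rw [e, Real.mul_rpow (by positivity) (hF0 x), s7_cube_root (abs_nonneg t)]
  · intro ε hε
    have he : 0 < c₀ * ε / (2 * K * C₀) := by positivity
    obtain ⟨d, hd, hu⟩ := hC _ he
    obtain ⟨γ, hγ, hgap⟩ := gap hE he hd (fun x y hx hy h => hu x y hx hy h.le) hC₀
    refine ⟨c * γ / 3, by positivity, fun x y hx hy hxy => ?_⟩
    have hle : ∀ z : X, (1 * ‖z‖ ^ 3 + c * N z ^ 3) ^ (1 / 3 : ℝ) ≤ 1 → N z ≤ C₀ := by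
      intro z hz
      have h1 := (hlow z).trans hz
      have h2 := mul_le_mul_of_nonneg_left h1 hC₀.le
      rw [mul_one] at h2
      exact (hb z).2.trans h2
    have hd1 : c₀ * ε / (2 * K * C₀) * C₀ < N (x - y) := by
      have h1 : ε ≤ K * ‖x - y‖ := le_trans hxy (hupp (x - y))
      have h2 := (hb (x - y)).1
      have h3 : c₀ * ε / (2 * K * C₀) * C₀ = c₀ * ε / (2 * K) := by field_simp
      rw [h3, div_lt_iff₀ (by positivity)]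
      have h4 : c₀ * ε ≤ c₀ * (K * ‖x - y‖) := mul_le_mul_of_nonneg_left h1 hc₀.le
      have h5 : K * (c₀ * ‖x - y‖) ≤ K * N (x - y) := mul_le_mul_of_nonneg_left h2 hK0.le
      have h6 : 0 < c₀ * ε := by positivity
      nlinarith
    have h1 := hgap x y (hle x hx) (hle y hy) hd1
    have h2 := mid_cube i1_eqNorm x y
    have h3 := S9_le_one (hF0 x) hx
    have h4 := S9_le_one (hF0 y) hy
    refine S9_root (hF0 _) (by positivity) ?_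
    have h5 := mul_le_mul_of_nonneg_left h1 hc.le
    have h6 : ‖(1 / 2 : ℝ) • (x + y)‖ ^ 3 ≤ (‖x‖ ^ 3 + ‖y‖ ^ 3) / 2 := h2
    nlinarith
  · obtain ⟨C₁, -, hT₁⟩ := exists_tw i1_eqNorm hU
    obtain ⟨C₂, -, hT₂⟩ := exists_tw hE hU'
    exact unifC2_root (i1_tw hT₁ hT₂ hc) one_pos hlow3

end Pool.Agent.H47.FH
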