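import Pool.Agent.H47.SS.G2

/-!
# J1: approximation of one uniformly convex norm
-/

set_option autoImplicit false

open Filter Topology

namespace Pool.Agent.H47.FH

open Pool.Agent.H47.SR Pool.Agent.H47.SS

variable {X : Type*} [NormedAddCommGroup X] [NormedSpace ℝ X]

/-- ROW J1. Let `c ‖x‖ ≤ μ x ≤ C₁ ‖x‖`, `δ_n` the constant of uniform convexity of `μ` for the scale `1 / (4 (n + 1))` (wlog `δ_n ≤ 1`). Take `η` with `η ≤ (δ_n / 8) c` and `η ≤ c / 8`, `N n` from the hypothesis; so `(1 - t) μ ≤ N n ≤ (1 + t) μ` with `t = η / c ≤ δ_n / 8, 1 / 8`.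
`K = max (2 / c) (2 C₁)`. Let `N n x, N n y ≤ 1`, `1 / (n + 1) < N n (x - y)`, `r = 1 / (1 - t)`: `μ x, μ y ≤ r`, `μ (x - y) ≥ 1 / ((1 + t) (n + 1))`; scaling by `1 / r` (`(1 - t) / (1 + t) ≥ 1 / 4`): `μ ((x + y) / 2) ≤ r (1 - δ_n)` and `N n ((x + y) / 2) ≤ (1 + t) r (1 - δ_n) ≤ 1 - δ_n / 2`.
`pnorm_of_scales` (SS/G2.lean). -/
theorem pnorm_of_approx {μ : X → ℝ} (hμ : EqNorm μ) (hu : UConv μ)
    (h : ∀ η : ℝ, 0 < η → ∃ N : X → ℝ, EqNorm N ∧ UnifC2 N ∧ ∀ x, |N x - μ x| ≤ η * ‖x‖) :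
    ∃ N : X → ℝ, PNorm N := by
  have hμ' := hμ
  obtain ⟨⟨c, C₁, hc, hC₁, hb⟩, -, hhom⟩ := hμ'
  have hμ0 : ∀ x, 0 ≤ μ x := S9_nonneg hμ
  have key : ∀ n : ℕ, ∃ N : X → ℝ, EqNorm N ∧ UnifC2 N ∧
      (∀ x, ‖x‖ ≤ max (2 / c) (2 * C₁) * N x) ∧ (∀ x, N x ≤ max (2 / c) (2 * C₁) * ‖x‖) ∧
      ∃ d : ℝ, 0 < d ∧ ∀ x y : X, N x ≤ 1 → N y ≤ 1 → 1 / ((n : ℝ) + 1) < N (x - y) →
        N ((1 / 2 : ℝ) • (x + y)) ≤ 1 - d := by
    intro n
    have hn : (0 : ℝ) < (n : ℝ) + 1 := by positivity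
    obtain ⟨δ, hδ, hδu⟩ := hu (1 / (4 * ((n : ℝ) + 1))) (by positivity)
    obtain ⟨d, hdd⟩ : ∃ d : ℝ, d = min δ 1 := ⟨_, rfl⟩
    have hd0 : 0 < d := by
      rw [hdd]
      exact lt_min hδ one_pos
    have hd1 : d ≤ 1 := by
      rw [hdd]
      exact min_le_right _ _
    have hdδ : d ≤ δ := by
      rw [hdd]
      exact min_le_left _ _
    obtain ⟨t, htd⟩ : ∃ t : ℝ, t = d / 8 := ⟨_, rfl⟩
    have ht0 : 0 < t := by rw [htd]; positivity
    have ht8 : t ≤ 1 / 8 := by rw [htd]; linarith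
    obtain ⟨N, hE, hU, hN⟩ := h (t * c) (by positivity)
    have hab : ∀ x, (1 - t) * μ x ≤ N x ∧ N x ≤ (1 + t) * μ x := by
      intro x
      have h1 := hN x
      have h2 : t * c * ‖x‖ ≤ t * μ x := by
        rw [mul_assoc]
        exact mul_le_mul_of_nonneg_left (hb x).1 ht0.le
      obtain ⟨h3, h4⟩ := abs_le.1 (h1.trans h2)
      exact ⟨by linarith, by linarith⟩
    have hN0 : ∀ x, 0 ≤ N x := S9_nonneg hE
    refine ⟨N, hE, hU, fun x => ?_, fun x => ?_, d / 2, half_pos hd0, ?_⟩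
    · have h1 := (hab x).1
      have h2 := (hb x).1
      have h3 : ‖x‖ ≤ 2 / c * N x := by
        rw [div_mul_eq_mul_div, le_div_iff₀ hc]
        nlinarith [hμ0 x]
      exact h3.trans (mul_le_mul_of_nonneg_right (le_max_left _ _) (hN0 x))
    · have h1 := (hab x).2
      have h2 := (hb x).2
      have h3 : N x ≤ 2 * C₁ * ‖x‖ := by nlinarith [hμ0 x]
      exact h3.trans (mul_le_mul_of_nonneg_right (le_max_right _ _) (norm_nonneg x))
    · intro x y hx hy hxy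
      have hs : 0 < 1 - t := by linarith
      have hμs : ∀ z : X, μ ((1 - t) • z) = (1 - t) * μ z := fun z => by
        rw [hhom, abs_of_pos hs]
      have h1 : μ ((1 - t) • x) ≤ 1 := by
        rw [hμs]
        exact (hab x).1.trans hx
      have h2 : μ ((1 - t) • y) ≤ 1 := by
        rw [hμs]
        exact (hab y).1.trans hy
      have h3 : 1 / (4 * ((n : ℝ) + 1)) ≤ μ ((1 - t) • x - (1 - t) • y) := by
        rw [← smul_sub, hμs]
        have h4 := hxy.le.trans (hab (x - y)).2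
        have h5 : 1 / (4 * ((n : ℝ) + 1)) = 1 / 4 * (1 / ((n : ℝ) + 1)) := by
          field_simp
        rw [h5]
        have h6 := hμ0 (x - y)
        nlinarith
      have h4 := hδu _ _ h1 h2 h3
      rw [← smul_add, smul_comm, hμs] at h4
      have h5 := (hab ((1 / 2 : ℝ) • (x + y))).2
      have h6 : (1 - t) * N ((1 / 2 : ℝ) • (x + y)) ≤ (1 + t) * ((1 - t) * μ ((1 / 2 : ℝ) • (x + y))) := by
        have := mul_le_mul_of_nonneg_left h5 hs.le
        linarith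
      have h7 : (1 + t) * ((1 - t) * μ ((1 / 2 : ℝ) • (x + y))) ≤ (1 + t) * (1 - d) :=
        mul_le_mul_of_nonneg_left (by linarith) (by linarith)
      have h8 : (1 + t) * (1 - d) ≤ (1 - t) * (1 - d / 2) := by
        rw [htd]
        nlinarith
      exact le_of_mul_le_mul_left (h6.trans (h7.trans h8)) hs
  choose N hE hU hlow hupp hconv using key
  exact pnorm_of_scales (K := max (2 / c) (2 * C₁)) (lt_max_of_lt_left (by positivity)) N hE hlow
    hupp hU hconv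

end Pool.Agent.H47.FH
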