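import Pool.Agent.H47.SS.G2

/-!
# K1: cubes of functionals
-/

set_option autoImplicit false

open Filter Topology

namespace Pool.Agent.H47.FH

open Pool.Agent.H47.SR Pool.Agent.H47.SS

variable {X : Type*} [NormedAddCommGroup X] [NormedSpace ℝ X]

theorem k1_deriv (t : ℝ) : HasDerivAt (fun t : ℝ => |t| ^ 3) (3 * |t| * t) t ∧
    HasDerivAt (fun t : ℝ => 3 * |t| * t) (6 * |t|) t := by
  have hp : ∀ t : ℝ, HasDerivAt (fun s : ℝ => s ^ 3) (3 * t * t) t ∧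
      HasDerivAt (fun s : ℝ => 3 * s * s) (6 * t) t := by
    intro t
    constructor
    · have h := hasDerivAt_pow 3 t
      have e : ((3 : ℕ) : ℝ) * t ^ (3 - 1) = 3 * t * t := by norm_num; ring
      rw [e] at h
      exact h
    · have h := ((hasDerivAt_id t).const_mul 3).mul (hasDerivAt_id t)
      refine HasDerivAt.congr_deriv h ?_
      change 3 * 1 * t + 3 * t * 1 = 6 * t
      ring
  have hn : ∀ t : ℝ, HasDerivAt (fun s : ℝ => (-s) ^ 3) (3 * (-t) * t) t ∧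
      HasDerivAt (fun s : ℝ => 3 * (-s) * s) (6 * (-t)) t := by
    intro t
    constructor
    · have e : (fun s : ℝ => (-s) ^ 3) = fun s => -(s ^ 3) := by funext s; ring
      have h := (hp t).1.neg
      have e2 : -(3 * t * t) = 3 * (-t) * t := by ring
      rw [e2] at h
      rw [e]
      exact h
    · have e : (fun s : ℝ => 3 * (-s) * s) = fun s => -(3 * s * s) := by funext s; ring
      have h := (hp t).2.neg
      have e2 : -(6 * t) = 6 * (-t) := by ring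
      rw [e2] at h
      rw [e]
      exact h
  rcases lt_trichotomy t 0 with ht | ht | ht
  · have e : ∀ᶠ s : ℝ in 𝓝 t, s < 0 := eventually_lt_nhds ht
    rw [abs_of_neg ht]
    constructor
    · refine (hn t).1.congr_of_eventuallyEq ?_
      filter_upwards [e] with s hs
      rw [abs_of_neg hs]
    · refine (hn t).2.congr_of_eventuallyEq ?_
      filter_upwards [e] with s hs
      rw [abs_of_neg hs]
  · subst ht
    rw [abs_zero, ← hasDerivWithinAt_univ, ← hasDerivWithinAt_univ,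
      ← Set.Iic_union_Ici (a := (0 : ℝ))]
    obtain ⟨p1, p2⟩ := hp 0
    obtain ⟨n1, n2⟩ := hn 0
    rw [neg_zero] at n1 n2
    constructor
    · refine HasDerivWithinAt.union ?_ ?_
      · refine n1.hasDerivWithinAt.congr (fun s hs => ?_) ?_
        · rw [abs_of_nonpos (Set.mem_Iic.1 hs)]
        · rw [abs_zero, neg_zero]
      · refine p1.hasDerivWithinAt.congr (fun s hs => ?_) ?_
        · rw [abs_of_nonneg (Set.mem_Ici.1 hs)]
        · rw [abs_zero]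
    · refine HasDerivWithinAt.union ?_ ?_
      · refine n2.hasDerivWithinAt.congr (fun s hs => ?_) ?_
        · rw [abs_of_nonpos (Set.mem_Iic.1 hs)]
        · rw [abs_zero, neg_zero]
      · refine p2.hasDerivWithinAt.congr (fun s hs => ?_) ?_
        · rw [abs_of_nonneg (Set.mem_Ici.1 hs)]
        · rw [abs_zero]
  · have e : ∀ᶠ s : ℝ in 𝓝 t, 0 < s := eventually_gt_nhds ht
    rw [abs_of_pos ht]
    constructor
    · refine (hp t).1.congr_of_eventuallyEq ?_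
      filter_upwards [e] with s hs
      rw [abs_of_pos hs]
    · refine (hp t).2.congr_of_eventuallyEq ?_
      filter_upwards [e] with s hs
      rw [abs_of_pos hs]

theorem k1_norm {G : Type*} [NormedAddCommGroup G] [NormedSpace ℝ G] (s : ℝ) (a : X →L[ℝ] ℝ)
    (u : G) : ‖s • a.smulRight u‖ = |s| * (‖a‖ * ‖u‖) := by
  rw [norm_smul, ContinuousLinearMap.norm_smulRight_apply, Real.norm_eq_abs]

theorem k1_norm_sub {G : Type*} [NormedAddCommGroup G] [NormedSpace ℝ G] (s t : ℝ)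
    (a : X →L[ℝ] ℝ) (u : G) :
    ‖s • a.smulRight u - t • a.smulRight u‖ = |s - t| * (‖a‖ * ‖u‖) := by
  rw [← sub_smul, k1_norm]

/-- ROW K1a. `t ↦ |t| ^ 3` has the derivatives `3 |t| t` and `6 |t|`. (`Tw` in SS/Sd.lean; constant `C = 6` if `‖φ‖ ≤ 1`.) -/
theorem tw_functional (φ : X →L[ℝ] ℝ) (hφ : ‖φ‖ ≤ 1) :
    ∃ (D : X → X →L[ℝ] ℝ) (B : X → X →L[ℝ] X →L[ℝ] ℝ), Tw (fun x => |φ x| ^ 3) D B 6 := by
  have hle : ∀ x : X, |φ x| ≤ ‖x‖ := fun x => by
    have h := φ.le_opNorm x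
    rw [Real.norm_eq_abs] at h
    refine h.trans ?_
    calc ‖φ‖ * ‖x‖ ≤ 1 * ‖x‖ := mul_le_mul_of_nonneg_right hφ (norm_nonneg x)
      _ = ‖x‖ := one_mul _
  have hφ2 : ‖φ‖ * ‖φ‖ ≤ 1 := by
    calc ‖φ‖ * ‖φ‖ ≤ 1 * 1 := mul_le_mul hφ hφ (norm_nonneg _) zero_le_one
      _ = 1 := one_mul _
  refine ⟨fun x => (3 * |φ x| * φ x) • φ, fun x => (6 * |φ x|) • φ.smulRight φ, ?_, ?_, ?_, ?_,
    ?_, ?_⟩
  · intro x
    exact HasDerivAt.comp_hasFDerivAt x (k1_deriv (φ x)).1 φ.hasFDerivAt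
  · intro x
    have h := HasDerivAt.comp_hasFDerivAt x (k1_deriv (φ x)).2 φ.hasFDerivAt
    have h2 : HasFDerivAt (fun y => (3 * |φ y| * φ y) • φ)
        (((6 * |φ x|) • φ).smulRight φ) x := HasFDerivAt.smul_const h φ
    have e : ((6 * |φ x|) • φ).smulRight φ = (6 * |φ x|) • φ.smulRight φ := by
      refine ContinuousLinearMap.ext fun u => ContinuousLinearMap.ext fun v => ?_
      change ((6 * |φ x|) * φ u) * φ v = (6 * |φ x|) * (φ u * φ v)
      ring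
    rw [e] at h2
    exact h2
  · intro x
    have h := pow_le_pow_left₀ (abs_nonneg _) (hle x) 3
    rw [abs_of_nonneg (pow_nonneg (abs_nonneg _) 3)]
    have : 0 ≤ ‖x‖ ^ 3 := by positivity
    linarith
  · intro x
    change ‖(3 * |φ x| * φ x) • φ‖ ≤ 6 * ‖x‖ ^ 2
    rw [norm_smul, Real.norm_eq_abs, abs_mul, abs_mul, abs_abs, abs_of_pos (by norm_num : (0 : ℝ) < 3)]
    have h := pow_le_pow_left₀ (abs_nonneg _) (hle x) 2
    have h2 : 3 * |φ x| * |φ x| * ‖φ‖ ≤ 3 * |φ x| * |φ x| * 1 :=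
      mul_le_mul_of_nonneg_left hφ (by positivity)
    have : 0 ≤ ‖x‖ ^ 2 := by positivity
    nlinarith
  · intro x
    change ‖(6 * |φ x|) • φ.smulRight φ‖ ≤ 6 * ‖x‖
    have h := k1_norm (G := X →L[ℝ] ℝ) (6 * |φ x|) φ φ
    rw [abs_of_nonneg (by positivity : 0 ≤ 6 * |φ x|)] at h
    have h2 : (6 * |φ x|) * (‖φ‖ * ‖φ‖) ≤ (6 * |φ x|) * 1 :=
      mul_le_mul_of_nonneg_left hφ2 (by positivity)
    have h3 := hle x
    exact h.le.trans (by linarith)
  · intro R ε hε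
    refine ⟨ε / 6, by positivity, fun x y _ _ hxy => ?_⟩
    change ‖(6 * |φ x|) • φ.smulRight φ - (6 * |φ y|) • φ.smulRight φ‖ ≤ ε
    have h := k1_norm_sub (G := X →L[ℝ] ℝ) (6 * |φ x|) (6 * |φ y|) φ φ
    have h1 : |(6 * |φ x|) - (6 * |φ y|)| ≤ 6 * ‖x - y‖ := by
      rw [← mul_sub, abs_mul, abs_of_pos (by norm_num : (0 : ℝ) < 6)]
      refine mul_le_mul_of_nonneg_left ?_ (by norm_num)
      refine (abs_abs_sub_abs_le_abs_sub _ _).trans ?_
      rw [← map_sub]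
      exact hle (x - y)
    have h2 : |(6 * |φ x|) - (6 * |φ y|)| * (‖φ‖ * ‖φ‖) ≤ |(6 * |φ x|) - (6 * |φ y|)| * 1 :=
      mul_le_mul_of_nonneg_left hφ2 (abs_nonneg _)
    exact h.le.trans (by linarith)

/-- ROW K1b. -/
theorem abs_cube_gap (s t e : ℝ) (he : 0 ≤ e) (h : e ≤ |s - t|) :
    |(1 / 2) * (s + t)| ^ 3 + e ^ 3 / 8 ≤ (|s| ^ 3 + |t| ^ 3) / 2 := by
  have key : ∀ a b : ℝ, 0 ≤ a → 0 ≤ b → a ^ 3 + b ^ 3 ≤ ((a + b) ^ 3 + |a - b| ^ 3) / 2 := by
    intro a b ha hb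
    rcases le_total a b with h | h
    · rw [abs_of_nonpos (by linarith)]
      nlinarith [mul_nonneg (mul_nonneg ha ha) (sub_nonneg.2 h), mul_nonneg (mul_nonneg ha ha) hb]
    · rw [abs_of_nonneg (by linarith)]
      nlinarith [mul_nonneg (mul_nonneg hb hb) (sub_nonneg.2 h), mul_nonneg (mul_nonneg hb hb) ha]
  have key2 : ∀ m d : ℝ, |m| ^ 3 + |d| ^ 3 ≤ (|m + d| ^ 3 + |m - d| ^ 3) / 2 := by
    intro m d
    have k := key |m| |d| (abs_nonneg m) (abs_nonneg d)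
    rcases le_total 0 m with hm | hm <;> rcases le_total 0 d with hd | hd
    · rw [abs_of_nonneg hm, abs_of_nonneg hd] at k ⊢
      rw [abs_of_nonneg (add_nonneg hm hd)]
      exact k
    · rw [abs_of_nonneg hm, abs_of_nonpos hd] at k ⊢
      rw [abs_of_nonneg (by linarith : 0 ≤ m - d)]
      rw [sub_neg_eq_add] at k
      have e : m + -d = m - d := by ring
      rw [e] at k
      linarith
    · rw [abs_of_nonpos hm, abs_of_nonneg hd] at k ⊢
      have e : -m - d = -(m + d) := by ring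
      have e2 : -m + d = -(m - d) := by ring
      rw [e, abs_neg, e2] at k
      rw [abs_of_nonpos (by linarith : m - d ≤ 0)]
      linarith
    · rw [abs_of_nonpos hm, abs_of_nonpos hd] at k ⊢
      have e : -m - -d = -(m - d) := by ring
      have e2 : -m + -d = -(m + d) := by ring
      rw [e, abs_neg, e2] at k
      rw [abs_of_nonpos (by linarith : m + d ≤ 0)]
      exact k
  have k := key2 ((1 / 2) * (s + t)) ((1 / 2) * (s - t))
  have e1 : (1 / 2) * (s + t) + (1 / 2) * (s - t) = s := by ring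
  have e2 : (1 / 2) * (s + t) - (1 / 2) * (s - t) = t := by ring
  rw [e1, e2] at k
  have h1 : e ^ 3 ≤ |s - t| ^ 3 := pow_le_pow_left₀ he h 3
  have e3 : |(1 / 2) * (s - t)| ^ 3 = |s - t| ^ 3 / 8 := by
    rw [abs_mul, abs_of_pos (by norm_num : (0 : ℝ) < 1 / 2)]
    ring
  rw [e3] at k
  linarith

theorem k1_eqNorm {K c0 : ℝ} (hK : 0 < K) (hc0 : 0 < c0) (g : ℕ → X → ℝ) (g0 : ∀ n x, 0 ≤ g n x)
    (gl : ∀ x, c0 * ‖x‖ ≤ g 0 x) (gu : ∀ n x, g n x ≤ K * ‖x‖)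
    (ga : ∀ n x y, g n (x + y) ≤ g n x + g n y) (gh : ∀ n (t : ℝ) x, g n (t • x) = |t| * g n x)
    (w : ℕ → ℝ) (hw : ∀ n, 0 < w n) (hs : ∀ n, w n ≤ (1 / 2) ^ n) :
    (∀ x, Summable fun n => w n * g n x ^ 3) ∧
      (∀ x, (w 0 * c0 ^ 3) * ‖x‖ ^ 3 ≤ ∑' n, w n * g n x ^ 3) ∧
        EqNorm (fun x => (∑' n, w n * g n x ^ 3) ^ (1 / 3 : ℝ)) := by
  have hterm : ∀ x n, w n * g n x ^ 3 ≤ (1 / 2) ^ n * (K * ‖x‖) ^ 3 := fun x n =>
    mul_le_mul (hs n) (pow_le_pow_left₀ (g0 n x) (gu n x) 3) (pow_nonneg (g0 n x) 3) (by positivity)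
  have hg : Summable fun n : ℕ => (1 / 2 : ℝ) ^ n :=
    summable_geometric_of_lt_one (by norm_num) (by norm_num)
  have hS : ∀ x, Summable fun n => w n * g n x ^ 3 := fun x =>
    Summable.of_nonneg_of_le (fun n => mul_nonneg (hw n).le (pow_nonneg (g0 n x) 3)) (hterm x)
      (hg.mul_right _)
  have hT0 : ∀ x, 0 ≤ ∑' n, w n * g n x ^ 3 := fun x =>
    tsum_nonneg fun n => mul_nonneg (hw n).le (pow_nonneg (g0 n x) 3)
  have hlow : ∀ x, (w 0 * c0 ^ 3) * ‖x‖ ^ 3 ≤ ∑' n, w n * g n x ^ 3 := by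
    intro x
    have h1 : w 0 * g 0 x ^ 3 ≤ ∑' n, w n * g n x ^ 3 :=
      (hS x).le_tsum 0 (fun n _ => mul_nonneg (hw n).le (pow_nonneg (g0 n x) 3))
    have h2 : (c0 * ‖x‖) ^ 3 ≤ g 0 x ^ 3 := pow_le_pow_left₀ (by positivity) (gl x) 3
    have h3 := mul_le_mul_of_nonneg_left h2 (hw 0).le
    have h4 : w 0 * (c0 * ‖x‖) ^ 3 = (w 0 * c0 ^ 3) * ‖x‖ ^ 3 := by ring
    linarith
  have hupp : ∀ x, ∑' n, w n * g n x ^ 3 ≤ 2 * (K * ‖x‖) ^ 3 := by
    intro x
    have h1 : ∑' n, w n * g n x ^ 3 ≤ ∑' n : ℕ, (1 / 2 : ℝ) ^ n * (K * ‖x‖) ^ 3 :=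
      (hS x).tsum_le_tsum (hterm x) (hg.mul_right _)
    rw [tsum_mul_right, tsum_geometric_two] at h1
    exact h1
  refine ⟨hS, hlow, ⟨⟨(w 0) ^ (1 / 3 : ℝ) * c0, 2 ^ (1 / 3 : ℝ) * K,
    mul_pos (Real.rpow_pos_of_pos (hw 0) _) hc0, by positivity, fun x => ⟨?_, ?_⟩⟩, ?_, ?_⟩⟩
  · have h2 : ((w 0 * c0 ^ 3) * ‖x‖ ^ 3) ^ (1 / 3 : ℝ) ≤
        (∑' n, w n * g n x ^ 3) ^ (1 / 3 : ℝ) :=
      Real.rpow_le_rpow (mul_nonneg (mul_nonneg (hw 0).le (by positivity)) (by positivity))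
        (hlow x) (by norm_num)
    have h3 : ((w 0 * c0 ^ 3) * ‖x‖ ^ 3) ^ (1 / 3 : ℝ) = (w 0) ^ (1 / 3 : ℝ) * c0 * ‖x‖ := by
      rw [Real.mul_rpow (mul_nonneg (hw 0).le (by positivity)) (by positivity),
        s7_cube_root (norm_nonneg x), Real.mul_rpow (hw 0).le (by positivity),
        s7_cube_root hc0.le]
    simpa only [h3] using h2
  · have h2 : (∑' n, w n * g n x ^ 3) ^ (1 / 3 : ℝ) ≤ (2 * (K * ‖x‖) ^ 3) ^ (1 / 3 : ℝ) :=
      Real.rpow_le_rpow (hT0 x) (hupp x) (by norm_num)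
    have h3 : (2 * (K * ‖x‖) ^ 3) ^ (1 / 3 : ℝ) = 2 ^ (1 / 3 : ℝ) * K * ‖x‖ := by
      rw [Real.mul_rpow (by norm_num) (by positivity), s7_cube_root (by positivity)]
      ring
    simpa only [h3] using h2
  · intro x y
    have hM := Real.Lp_add_le_tsum_of_nonneg (p := 3) (f := fun n => (w n) ^ (1 / 3 : ℝ) * g n x)
      (g := fun n => (w n) ^ (1 / 3 : ℝ) * g n y) (by norm_num)
      (fun n => mul_nonneg (Real.rpow_nonneg (hw n).le _) (g0 n x))
      (fun n => mul_nonneg (Real.rpow_nonneg (hw n).le _) (g0 n y))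
      (by
        simp only [fun n => s7_f (hw n).le (g0 n x)]
        exact hS x)
      (by
        simp only [fun n => s7_f (hw n).le (g0 n y)]
        exact hS y)
    simp only [fun n => s7_f (hw n).le (g0 n x), fun n => s7_f (hw n).le (g0 n y)] at hM
    obtain ⟨hM1, hM2⟩ := hM
    refine le_trans ?_ hM2
    refine Real.rpow_le_rpow (hT0 _) ?_ (by norm_num)
    refine (hS (x + y)).tsum_le_tsum (fun n => ?_) hM1
    rw [← mul_add, s7_f (hw n).le (add_nonneg (g0 n x) (g0 n y))]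
    exact mul_le_mul_of_nonneg_left
      (pow_le_pow_left₀ (g0 n _) (ga n x y) 3) (hw n).le
  · intro t x
    have h1 : ∀ n, w n * g n (t • x) ^ 3 = |t| ^ 3 * (w n * g n x ^ 3) := by
      intro n
      rw [gh n t x]
      ring
    simp only [h1]
    rw [tsum_mul_left, Real.mul_rpow (by positivity) (hT0 x), s7_cube_root (abs_nonneg t)]

/-- ROW K1c. `tsum_tw` for the sequence `f 0 = ν ^ 3` (`exists_tw`), `f (n + 1) x = |φ n x| ^ 3` with suitable weights `c n > 0`, `c n ≤ (1 / 2) ^ n`, then `unifC2_root` (SS/S6.lean); `EqNorm` by Minkowski in `l_3` (`Real.Lp_add_le_tsum_of_nonneg`, see `eqNorm_sum` in SS/S7.lean).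
(The value of the norm: `N x ^ 3 = c₀ ν x ^ 3 + ∑ c (n + 1) |φ n x| ^ 3`.) -/
theorem exists_sum_norm {ν : X → ℝ} (hν : EqNorm ν) (hU : UnifC2 ν) (φ : ℕ → X →L[ℝ] ℝ)
    (hφ : ∀ n, ‖φ n‖ ≤ 1) :
    ∃ (N : X → ℝ) (c₀ : ℝ) (c : ℕ → ℝ), EqNorm N ∧ UnifC2 N ∧ 0 < c₀ ∧ (∀ n, 0 < c n) ∧
      ∀ x, Summable (fun n => c n * |φ n x| ^ 3) ∧
        N x ^ 3 = c₀ * ν x ^ 3 + ∑' n, c n * |φ n x| ^ 3 := by
  obtain ⟨C1, hC1, hT1⟩ := exists_tw hν hU
  choose D2 B2 hT2 using fun n => tw_functional (φ n) (hφ n)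
  obtain ⟨⟨c1, c2, hc1, hc2, hb⟩, hadd, hhom⟩ := hν
  have hνnn : ∀ x, 0 ≤ ν x := fun x => (mul_nonneg hc1.le (norm_nonneg x)).trans (hb x).1
  let g : ℕ → X → ℝ := fun n x => Nat.casesOn n (ν x) (fun m => |φ m x|)
  let D : ℕ → X → X →L[ℝ] ℝ := fun n => Nat.casesOn n (D3 ν) (fun m => D2 m)
  let B : ℕ → X → X →L[ℝ] X →L[ℝ] ℝ := fun n => Nat.casesOn n (B3 ν) (fun m => B2 m)
  let C : ℕ → ℝ := fun n => Nat.casesOn n C1 (fun _ => 6)
  have hC : ∀ n, 0 ≤ C n := by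
    intro n
    cases n with
    | zero => exact hC1
    | succ m => change (0 : ℝ) ≤ 6; norm_num
  have hTw : ∀ n, Tw (fun y => g n y ^ 3) (D n) (B n) (C n) := by
    intro n
    cases n with
    | zero => exact hT1
    | succ m => exact hT2 m
  have hle : ∀ m x, |φ m x| ≤ ‖x‖ := fun m x => by
    have h := (φ m).le_opNorm x
    rw [Real.norm_eq_abs] at h
    refine h.trans ?_
    calc ‖φ m‖ * ‖x‖ ≤ 1 * ‖x‖ := mul_le_mul_of_nonneg_right (hφ m) (norm_nonneg x)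
      _ = ‖x‖ := one_mul _
  let w : ℕ → ℝ := fun n => (1 / 2) ^ n / (1 + C n)
  have hpos : ∀ n, 0 < 1 + C n := fun n => by linarith [hC n]
  have hw : ∀ n, 0 < w n := fun n => div_pos (by positivity) (hpos n)
  have hs : ∀ n, w n ≤ (1 / 2) ^ n := by
    intro n
    refine div_le_self (by positivity) ?_
    linarith [hC n]
  have hs' : ∀ n, w n * C n ≤ (1 / 2) ^ n := by
    intro n
    have h1 : w n * (1 + C n) = (1 / 2) ^ n := div_mul_cancel₀ _ (hpos n).ne'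
    nlinarith [hw n]
  have g0 : ∀ n x, 0 ≤ g n x := by
    intro n x
    cases n with
    | zero => exact hνnn x
    | succ m => exact abs_nonneg _
  have gu : ∀ n x, g n x ≤ (c2 + 1) * ‖x‖ := by
    intro n x
    have hx := norm_nonneg x
    have hcx : 0 ≤ c2 * ‖x‖ := mul_nonneg hc2.le hx
    cases n with
    | zero =>
      have := (hb x).2
      change ν x ≤ _
      linarith
    | succ m =>
      have := hle m x
      change |φ m x| ≤ _
      linarith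
  have ga : ∀ n x y, g n (x + y) ≤ g n x + g n y := by
    intro n x y
    cases n with
    | zero => exact hadd x y
    | succ m =>
      change |φ m (x + y)| ≤ |φ m x| + |φ m y|
      rw [map_add]
      exact abs_add_le _ _
  have gh : ∀ n (t : ℝ) x, g n (t • x) = |t| * g n x := by
    intro n t x
    cases n with
    | zero => exact hhom t x
    | succ m =>
      change |φ m (t • x)| = |t| * |φ m x|
      rw [map_smul, smul_eq_mul, abs_mul]
  obtain ⟨hS, hlow, hE⟩ := k1_eqNorm (K := c2 + 1) (c0 := c1) (by linarith) hc1 g g0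
    (fun x => (hb x).1) gu ga gh w hw hs
  have hTwS := tsum_tw (fun n y => g n y ^ 3) D B C w hTw hw hs'
  refine ⟨fun x => (∑' n, w n * g n x ^ 3) ^ (1 / 3 : ℝ), w 0, fun n => w (n + 1), hE,
    unifC2_root hTwS (c := w 0 * c1 ^ 3) (mul_pos (hw 0) (pow_pos hc1 3)) hlow, hw 0,
    fun n => hw (n + 1), fun x => ⟨?_, ?_⟩⟩
  · exact (summable_nat_add_iff 1).2 (hS x)
  · have h1 : ((∑' n, w n * g n x ^ 3) ^ (1 / 3 : ℝ)) ^ 3 = ∑' n, w n * g n x ^ 3 := by
      rw [← Real.rpow_natCast, ← Real.rpow_mul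
        (tsum_nonneg fun n => mul_nonneg (hw n).le (pow_nonneg (g0 n x) 3))]
      norm_num
    have h2 := (hS x).tsum_eq_zero_add
    exact h1.trans h2

end Pool.Agent.H47.FH
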