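import Pool.Agent.H47.FH.K1

/-!
# K2: weak uniform convexity
-/

set_option autoImplicit false

open Filter Topology TopologicalSpace

namespace Pool.Agent.H47.FH

open Pool.Agent.H47.SR Pool.Agent.H47.SS

variable {X : Type*} [NormedAddCommGroup X] [NormedSpace ℝ X]

theorem k2_div {G : Type*} [NormedAddCommGroup G] (A : G) {a c k : ℝ} (h : ‖A‖ * a ≤ c)
    (hk : 0 ≤ k) (hka : 1 ≤ k * a) : ‖A‖ ≤ k * c := by
  have h1 : ‖A‖ * 1 ≤ ‖A‖ * (k * a) := mul_le_mul_of_nonneg_left hka (norm_nonneg A)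
  have h2 : k * (‖A‖ * a) ≤ k * c := mul_le_mul_of_nonneg_left h hk
  linarith [mul_left_comm ‖A‖ k a]

theorem k2_op (L : X →L[ℝ] ℝ) {r M : ℝ} (hr : 0 < r) (hM : 0 ≤ M)
    (h : ∀ x : X, ‖x‖ ≤ r → L x ≤ M) : ‖L‖ ≤ M / r := by
  refine L.opNorm_le_bound (by positivity) fun x => ?_
  rcases eq_or_ne x 0 with rfl | hx
  · simp
  have hx0 : 0 < ‖x‖ := norm_pos_iff.2 hx
  have h1 : ∀ t : ℝ, |t| = r / ‖x‖ → t * L x ≤ M := by
    intro t ht
    have h2 := h (t • x) (by rw [norm_smul, Real.norm_eq_abs, ht, div_mul_cancel₀ _ hx0.ne'])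
    rwa [map_smul, smul_eq_mul] at h2
  have h3 := h1 (r / ‖x‖) (abs_of_pos (by positivity))
  have h4 := h1 (-(r / ‖x‖)) (by rw [abs_neg]; exact abs_of_pos (by positivity))
  have e1 : L x = ‖x‖ / r * (r / ‖x‖ * L x) := by
    field_simp
  have h5 : ‖x‖ / r * (r / ‖x‖ * L x) ≤ ‖x‖ / r * M :=
    mul_le_mul_of_nonneg_left h3 (by positivity)
  have h6 : ‖x‖ / r * (-(r / ‖x‖) * L x) ≤ ‖x‖ / r * M :=
    mul_le_mul_of_nonneg_left h4 (by positivity)
  have e2 : ‖x‖ / r * (-(r / ‖x‖) * L x) = -L x := by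
    field_simp
  have e3 : M / r * ‖x‖ = ‖x‖ / r * M := by ring
  rw [Real.norm_eq_abs, abs_le, e3]
  constructor
  · linarith
  · linarith

/-- Taylor upper estimate near the sphere. -/
theorem k2_lip {ν : X → ℝ} (hν : EqNorm ν) (hU : UnifC2 ν) :
    ∃ K r₀ : ℝ, 0 ≤ K ∧ 0 < r₀ ∧ ∀ x h : X, ν x = 1 → ‖h‖ ≤ r₀ →
      ν (x + h) ≤ 1 + fderiv ℝ ν x h + K * ‖h‖ ^ 2 := by
  obtain ⟨C₀, hC₀⟩ := exists_bdd hν hU
  obtain ⟨⟨c, C, hc, hC, hb⟩, htri, hhom⟩ := id hν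
  refine ⟨2 * C * max C₀ 0, 1 / (2 * C), by positivity, by positivity, ?_⟩
  intro x h hx hh
  have hxn : 1 ≤ C * ‖x‖ := by
    have := (hb x).2
    rwa [hx] at this
  have hCr : C * (1 / (2 * C)) = 1 / 2 := by field_simp
  have hy : ∀ y ∈ Metric.closedBall x (1 / (2 * C)), 1 ≤ 2 * C * ‖y‖ := by
    intro y hy
    rw [Metric.mem_closedBall, dist_eq_norm] at hy
    have h1 : ‖x‖ ≤ ‖y‖ + ‖y - x‖ := by
      have := norm_sub_le y (y - x)
      rwa [sub_sub_cancel] at this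
    have h2 : C * ‖x‖ ≤ C * (‖y‖ + 1 / (2 * C)) :=
      mul_le_mul_of_nonneg_left (h1.trans (by linarith)) hC.le
    rw [mul_add, hCr] at h2
    nlinarith
  have hy0 : ∀ y ∈ Metric.closedBall x (1 / (2 * C)), y ≠ 0 := by
    intro y hy1 h0
    have h1 := hy y hy1
    rw [h0, norm_zero, mul_zero] at h1
    linarith
  have hx1 : x ∈ Metric.closedBall x (1 / (2 * C)) :=
    Metric.mem_closedBall_self (by positivity)
  have hx2 : x + h ∈ Metric.closedBall x (1 / (2 * C)) := by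
    rw [Metric.mem_closedBall, dist_eq_norm, add_sub_cancel_left]
    exact hh
  have hL : ‖fderiv ℝ ν (x + h) - fderiv ℝ ν x‖ ≤ 2 * C * max C₀ 0 * ‖x + h - x‖ :=
    Convex.norm_image_sub_le_of_norm_hasFDerivWithin_le (f := fderiv ℝ ν)
      (f' := fderiv ℝ (fderiv ℝ ν)) (s := Metric.closedBall x (1 / (2 * C)))
      (fun y hy1 => (hasFDerivAt_of hU.1 (hy0 y hy1)).2.hasFDerivWithinAt)
      (fun y hy1 => k2_div (G := X →L[ℝ] X →L[ℝ] ℝ) _
        ((hC₀ y (hy0 y hy1)).trans (le_max_left _ _)) (by positivity) (hy y hy1))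
      (convex_closedBall x (1 / (2 * C))) hx1 hx2
  rw [add_sub_cancel_left] at hL
  have h1 := sub_grad hν hU.1 (hy0 _ hx2) (-h)
  rw [add_neg_cancel_right, map_neg, hx] at h1
  have h2 : (fderiv ℝ ν (x + h) - fderiv ℝ ν x) h ≤
      ‖fderiv ℝ ν (x + h) - fderiv ℝ ν x‖ * ‖h‖ :=
    (le_abs_self _).trans (by
      rw [← Real.norm_eq_abs]
      exact ContinuousLinearMap.le_opNorm _ h)
  have h3 : (fderiv ℝ ν (x + h) - fderiv ℝ ν x) h = fderiv ℝ ν (x + h) h - fderiv ℝ ν x h := rfl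
  have h4 := mul_le_mul_of_nonneg_right hL (norm_nonneg h)
  have h5 : 2 * C * max C₀ 0 * ‖h‖ * ‖h‖ = 2 * C * max C₀ 0 * ‖h‖ ^ 2 := by ring
  rw [h3] at h2
  linarith

theorem k2_cont {ν : X → ℝ} (hν : EqNorm ν) : Continuous ν := by
  obtain ⟨⟨c, C, hc, hC, hb⟩, htri, hhom⟩ := id hν
  have hL : LipschitzWith ⟨C, hC.le⟩ ν := by
    refine LipschitzWith.of_dist_le_mul fun x y => ?_
    rw [Real.dist_eq, dist_eq_norm]
    exact (abs_sub_le_N hν x y).trans (hb (x - y)).2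
  exact hL.continuous

theorem k2_dense [SeparableSpace X] {ν : X → ℝ} (hν : EqNorm ν) (hU : UnifC2 ν)
    (ψ : X →L[ℝ] ℝ) {ε : ℝ} (hε : 0 < ε) :
    ∃ (n : ℕ) (q : ℚ), ‖ψ - (q : ℝ) • fderiv ℝ ν (denseSeq X n)‖ ≤ ε := by
  by_cases hψ : ψ = 0
  · refine ⟨0, 0, ?_⟩
    rw [hψ, Rat.cast_zero, zero_smul, sub_zero, norm_zero]
    exact hε.le
  obtain ⟨z₀, hz₀⟩ : ∃ z, ψ z ≠ 0 := by
    by_contra hcon
    push Not at hcon
    exact hψ (ContinuousLinearMap.ext fun z => hcon z)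
  obtain ⟨⟨c, C, hc, hC, hb⟩, htri, hhom⟩ := id hν
  have hN0 : ν 0 = 0 := by
    have h1 := hhom 0 0
    rwa [zero_smul, abs_zero, zero_mul] at h1
  have hneg : ∀ x, ν (-x) = ν x := by
    intro x
    have h1 := hhom (-1) x
    rwa [neg_one_smul, abs_neg, abs_one, one_mul] at h1
  have hpos : ∀ x, x ≠ 0 → 0 < ν x := fun x hx =>
    (mul_pos hc (norm_pos_iff.2 hx)).trans_le (hb x).1
  have hz₀' : z₀ ≠ 0 := by
    intro h0
    rw [h0, map_zero] at hz₀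
    exact hz₀ rfl
  set A : Set ℝ := {t : ℝ | ∀ z, ψ z ≤ t * ν z} with hA
  have hdiv : ∀ z, z ≠ 0 → ∀ t ∈ A, ψ z / ν z ≤ t := by
    intro z hz t ht
    rw [div_le_iff₀ (hpos z hz)]
    exact ht z
  have hne : A.Nonempty := by
    refine ⟨‖ψ‖ / c, fun z => ?_⟩
    have h1 : ψ z ≤ ‖ψ‖ * ‖z‖ := (le_abs_self _).trans (by
      rw [← Real.norm_eq_abs]
      exact ψ.le_opNorm z)
    have h2 : ‖ψ‖ / c * (c * ‖z‖) ≤ ‖ψ‖ / c * ν z :=
      mul_le_mul_of_nonneg_left (hb z).1 (by positivity)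
    have h3 : ‖ψ‖ / c * (c * ‖z‖) = ‖ψ‖ * ‖z‖ := by field_simp
    linarith
  have hbd : BddBelow A := ⟨ψ z₀ / ν z₀, fun t ht => hdiv z₀ hz₀' t ht⟩
  set s : ℝ := sInf A with hs
  have hsA : ∀ z, ψ z ≤ s * ν z := by
    intro z
    rcases eq_or_ne z 0 with rfl | hz
    · rw [map_zero, hN0, mul_zero]
    · have h1 : ψ z / ν z ≤ s := le_csInf hne (hdiv z hz)
      rwa [div_le_iff₀ (hpos z hz)] at h1
  have hs0 : 0 ≤ s := by
    have h1 := hsA z₀
    have h2 := hsA (-z₀)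
    rw [map_neg, hneg] at h2
    have h3 := hpos z₀ hz₀'
    by_contra hcon
    push Not at hcon
    nlinarith
  obtain ⟨K, r₀, hK, hr₀, hT⟩ := k2_lip hν hU
  have hsK : 0 ≤ s * K := mul_nonneg hs0 hK
  set r : ℝ := min r₀ (ε / (4 * (s * K + 1))) with hr
  have hr0 : 0 < r := lt_min hr₀ (by positivity)
  have hrr : r ≤ r₀ := min_le_left _ _
  have hr1 : s * K * r ≤ ε / 4 := by
    have h1 : r ≤ ε / (4 * (s * K + 1)) := min_le_right _ _
    have h2 : (s * K + 1) * r ≤ (s * K + 1) * (ε / (4 * (s * K + 1))) :=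
      mul_le_mul_of_nonneg_left h1 (by positivity)
    have h3 : (s * K + 1) * (ε / (4 * (s * K + 1))) = ε / 4 := by field_simp
    nlinarith
  set η : ℝ := ε * r / 4 with hη
  have hη0 : 0 < η := by positivity
  have hnot : s - η ∉ A := notMem_of_lt_csInf (by linarith) hbd
  obtain ⟨z, hz⟩ : ∃ z, (s - η) * ν z < ψ z := by
    by_contra hcon
    push Not at hcon
    exact hnot hcon
  have hop : IsOpen {x : X | (s - η) * ν x < ψ x} :=
    isOpen_lt (continuous_const.mul (k2_cont hν)) ψ.continuous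
  obtain ⟨n, hn⟩ := (denseRange_denseSeq X).exists_mem_open hop ⟨z, hz⟩
  set w : X := denseSeq X n with hw
  have hn' : (s - η) * ν w < ψ w := hn
  have hw0 : w ≠ 0 := by
    intro h0
    rw [h0, hN0, map_zero, mul_zero] at hn'
    exact lt_irrefl _ hn'
  have hνw := hpos w hw0
  have hx1 : ν ((ν w)⁻¹ • w) = 1 := by
    rw [hhom, abs_of_pos (inv_pos.2 hνw), inv_mul_cancel₀ hνw.ne']
  have hD : fderiv ℝ ν ((ν w)⁻¹ • w) = fderiv ℝ ν w := fderiv_smul hν (inv_pos.2 hνw) w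
  have hψx : s - η ≤ ψ ((ν w)⁻¹ • w) := by
    rw [map_smul, smul_eq_mul]
    have h1 : (ν w)⁻¹ * ((s - η) * ν w) ≤ (ν w)⁻¹ * ψ w :=
      mul_le_mul_of_nonneg_left hn'.le (inv_pos.2 hνw).le
    have h2 : (ν w)⁻¹ * ((s - η) * ν w) = s - η := by field_simp
    linarith
  have hmain : ‖ψ - s • fderiv ℝ ν w‖ ≤ (s * K * r ^ 2 + η) / r := by
    refine k2_op _ hr0 (by positivity) fun h hh => ?_
    have h1 := hT ((ν w)⁻¹ • w) h hx1 (hh.trans hrr)
    rw [hD] at h1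
    have h2 := hsA ((ν w)⁻¹ • w + h)
    rw [map_add] at h2
    have h3 := mul_le_mul_of_nonneg_left h1 hs0
    have h4 : ‖h‖ ^ 2 ≤ r ^ 2 := pow_le_pow_left₀ (norm_nonneg h) hh 2
    have h5 := mul_le_mul_of_nonneg_left h4 hsK
    have h6 : (ψ - s • fderiv ℝ ν w) h = ψ h - s * fderiv ℝ ν w h := rfl
    rw [h6]
    nlinarith
  have hmain2 : (s * K * r ^ 2 + η) / r ≤ ε / 2 := by
    have e1 : (s * K * r ^ 2 + η) / r = s * K * r + ε / 4 := by
      rw [hη]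
      field_simp
    rw [e1]
    linarith
  obtain ⟨q, hq⟩ := exists_rat_near s (show 0 < ε / (2 * C) by positivity)
  refine ⟨n, q, ?_⟩
  have hDn : ‖fderiv ℝ ν w‖ ≤ C := by
    refine ContinuousLinearMap.opNorm_le_bound _ hC.le fun h => ?_
    rw [Real.norm_eq_abs]
    exact (abs_fderiv_le hν hU.1 hw0 h).trans (hb h).2
  have e2 : ψ - (q : ℝ) • fderiv ℝ ν w =
      (ψ - s • fderiv ℝ ν w) + (s - (q : ℝ)) • fderiv ℝ ν w := by
    rw [sub_smul]
    abel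
  rw [e2]
  refine (norm_add_le _ _).trans ?_
  have h7 : ‖(s - (q : ℝ)) • fderiv ℝ ν w‖ ≤ ε / (2 * C) * C := by
    rw [norm_smul, Real.norm_eq_abs]
    exact mul_le_mul hq.le hDn (norm_nonneg _) (by positivity)
  have h8 : ε / (2 * C) * C = ε / 2 := by field_simp
  linarith

/-- ROW K2a. A uniformly smooth space is reflexive. Here we need only: the unit ball of the dual of a separable space is weak-* separable and, the norm `ν` being uniformly (Fréchet) differentiable, the dual is norm separable. Proof: let `(x n)` be dense in `X ∖ {0}`; the functionals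
`fderiv ℝ ν (x n)` are norm dense in the set of all `ψ` with `ψ z ≤ ν z` for all `z` that attain the value `ψ x = ν x` at some `x ≠ 0` (such a `ψ` is `fderiv ℝ ν x`, and `fderiv ℝ ν` is continuous off 0). By the Bishop-Phelps theorem these are dense ... To avoid Bishop-Phelps:
uniform differentiability (Šmulian): for every `ε` there is `δ` such that `ψ ≤ ν`, `ν x = 1`, `ψ x ≥ 1 - δ` imply `‖ψ - fderiv ℝ ν x‖ ≤ ε`. Proof: `UnifC2` gives `ν (x + h) ≤ ν x + fderiv ℝ ν x h + C ‖h‖ ^ 2` for `ν x = 1` and small `h` (`exists_bdd`: bounded second derivative), so for `‖h‖ = r`: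
`ψ h = ψ (x + h) - ψ x ≤ 1 + fderiv ℝ ν x h + C r ^ 2 - (1 - δ)`, i.e. `(ψ - fderiv ℝ ν x) h ≤ C r ^ 2 + δ`, so `‖ψ - fderiv ℝ ν x‖ ≤ C r + δ / r`. Every `ψ` with dual norm 1 has `x` with `ν x = 1`, `ψ x ≥ 1 - δ`, and `x` may be taken from a countable dense subset of the sphere `{ν = 1}`. So the
functionals `fderiv ℝ ν (x n)` are dense in the dual sphere and their rational multiples are dense in the dual. -/
theorem dual_separable [SeparableSpace X] {ν : X → ℝ} (hν : EqNorm ν) (hU : UnifC2 ν) :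
    ∃ φ : ℕ → X →L[ℝ] ℝ, (∀ n, ‖φ n‖ ≤ 1) ∧
      ∀ ψ : X →L[ℝ] ℝ, ‖ψ‖ ≤ 1 → ∀ ε : ℝ, 0 < ε → ∃ n, ‖ψ - φ n‖ ≤ ε := by
  haveI : SeparableSpace (X →L[ℝ] ℝ) := by
    refine ⟨⟨Set.range (fun p : ℕ × ℚ => (p.2 : ℝ) • fderiv ℝ ν (denseSeq X p.1)),
      Set.countable_range _, ?_⟩⟩
    rw [Metric.dense_iff]
    intro ψ ε hε
    obtain ⟨n, q, h⟩ := k2_dense hν hU ψ (show 0 < ε / 2 by positivity)
    refine ⟨(q : ℝ) • fderiv ℝ ν (denseSeq X n), ?_, ⟨(n, q), rfl⟩⟩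
    rw [Metric.mem_ball, dist_comm, dist_eq_norm]
    linarith
  haveI : SecondCountableTopology (X →L[ℝ] ℝ) := UniformSpace.secondCountable_of_separable _
  haveI : Nonempty (Metric.closedBall (0 : X →L[ℝ] ℝ) 1) :=
    ⟨⟨0, Metric.mem_closedBall_self zero_le_one⟩⟩
  refine ⟨fun n => (denseSeq (Metric.closedBall (0 : X →L[ℝ] ℝ) 1) n : X →L[ℝ] ℝ), ?_, ?_⟩
  · intro n
    exact mem_closedBall_zero_iff.1 (denseSeq (Metric.closedBall (0 : X →L[ℝ] ℝ) 1) n).2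
  · intro ψ hψ ε hε
    obtain ⟨n, hn⟩ := (denseRange_denseSeq (Metric.closedBall (0 : X →L[ℝ] ℝ) 1)).exists_dist_lt
      (⟨ψ, mem_closedBall_zero_iff.2 hψ⟩ : Metric.closedBall (0 : X →L[ℝ] ℝ) 1) hε
    refine ⟨n, ?_⟩
    rw [Subtype.dist_eq, dist_eq_norm] at hn
    exact hn.le

end Pool.Agent.H47.FH
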