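import Pool.Agent.H47.FH.K2

/-!
# K3: a smooth weakly uniformly convex norm
-/

set_option autoImplicit false

open Filter Topology TopologicalSpace

namespace Pool.Agent.H47.FH

open Pool.Agent.H47.SR Pool.Agent.H47.SS

variable {X : Type*} [NormedAddCommGroup X] [NormedSpace ℝ X]

/-- `N` is weakly uniformly convex: for every functional `ψ` and `ε > 0` there is `δ > 0` such that
points of the unit ball with `|ψ (x - y)| ≥ ε` have a midpoint in the ball of radius `1 - δ`. -/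
def WConv (N : X → ℝ) : Prop :=
  ∀ (ψ : X →L[ℝ] ℝ) (ε : ℝ), 0 < ε → ∃ δ : ℝ, 0 < δ ∧ ∀ x y : X, N x ≤ 1 → N y ≤ 1 →
    ε ≤ |ψ (x - y)| → N ((1 / 2 : ℝ) • (x + y)) ≤ 1 - δ

/-- ROW K3. `φ` from `dual_separable`, `N` from `exists_sum_norm`. Given `ψ`, wlog `‖ψ‖ ≤ 1` (scale), `ε`: the unit ball of `N` is bounded, so some `φ n` has `|ψ (x - y) - φ n (x - y)| ≤ ε / 2` there; `abs_cube_gap` for `φ n` with `ε / 2`, `mid_cube` (SS/S8.lean) for `ν` and the convexity of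
`|t| ^ 3` for the other terms (`abs_cube_gap` with `e = 0`): `N ((x + y) / 2) ^ 3 ≤ 1 - c n (ε / 2) ^ 3 / 8`. -/
theorem exists_wconv [SeparableSpace X] {ν : X → ℝ} (hν : EqNorm ν) (hU : UnifC2 ν) :
    ∃ N : X → ℝ, EqNorm N ∧ UnifC2 N ∧ WConv N := by
  obtain ⟨φ, hφ1, hφ2⟩ := dual_separable hν hU
  obtain ⟨N, c₀, c, hN, hNU, hc₀, hc, hsum⟩ := exists_sum_norm hν hU φ hφ1
  refine ⟨N, hN, hNU, ?_⟩
  intro ψ ε hε
  obtain ⟨⟨a, A, ha, hA, hab⟩, htri, hhom⟩ := id hN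
  obtain ⟨M, hM⟩ : ∃ M : ℝ, M = max ‖ψ‖ 1 := ⟨_, rfl⟩
  have hM1 : 1 ≤ M := hM ▸ le_max_right _ _
  have hM0 : 0 < M := lt_of_lt_of_le one_pos hM1
  have hψM : ‖ψ‖ ≤ M := hM ▸ le_max_left _ _
  have hψ' : ‖M⁻¹ • ψ‖ ≤ 1 := by
    refine ContinuousLinearMap.opNorm_le_bound _ zero_le_one fun z => ?_
    have h1 : (M⁻¹ • ψ) z = M⁻¹ * ψ z := rfl
    rw [h1, Real.norm_eq_abs, abs_mul, abs_of_pos (inv_pos.2 hM0), one_mul]
    have h2 : |ψ z| ≤ M * ‖z‖ := by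
      have h3 := ψ.le_opNorm z
      rw [Real.norm_eq_abs] at h3
      exact h3.trans (mul_le_mul_of_nonneg_right hψM (norm_nonneg z))
    calc M⁻¹ * |ψ z| ≤ M⁻¹ * (M * ‖z‖) := mul_le_mul_of_nonneg_left h2 (inv_pos.2 hM0).le
      _ = ‖z‖ := by field_simp
  obtain ⟨n, hn⟩ := hφ2 (M⁻¹ • ψ) hψ' (ε / M * a / 4) (by positivity)
  obtain ⟨e, he⟩ : ∃ e : ℝ, e = ε / (2 * M) := ⟨_, rfl⟩
  have he0 : 0 < e := by rw [he]; positivity
  have hcn := hc n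
  refine ⟨c n * e ^ 3 / 8 / 3, by positivity, ?_⟩
  intro x y hx hy hxy
  have hxn : ‖x‖ ≤ 1 / a := by
    rw [le_div_iff₀ ha]
    have := (hab x).1
    linarith
  have hyn : ‖y‖ ≤ 1 / a := by
    rw [le_div_iff₀ ha]
    have := (hab y).1
    linarith
  have hxyn : ‖x - y‖ ≤ 2 / a := by
    have h1 := norm_sub_le x y
    have h2 : (2 : ℝ) / a = 1 / a + 1 / a := by ring
    linarith
  have h1 : |(M⁻¹ • ψ) (x - y) - φ n (x - y)| ≤ ε / (2 * M) := by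
    have h2 := (M⁻¹ • ψ - φ n).le_opNorm (x - y)
    rw [Real.norm_eq_abs] at h2
    have h3 : (M⁻¹ • ψ - φ n) (x - y) = (M⁻¹ • ψ) (x - y) - φ n (x - y) := rfl
    rw [h3] at h2
    refine h2.trans ((mul_le_mul hn hxyn (norm_nonneg _) (by positivity)).trans (le_of_eq ?_))
    field_simp
    ring
  have h2 : e ≤ |φ n x - φ n y| := by
    have h3 : (M⁻¹ • ψ) (x - y) = M⁻¹ * ψ (x - y) := rfl
    have h4 : ε / M ≤ |(M⁻¹ • ψ) (x - y)| := by
      rw [h3, abs_mul, abs_of_pos (inv_pos.2 hM0), div_eq_inv_mul]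
      exact mul_le_mul_of_nonneg_left hxy (inv_pos.2 hM0).le
    have h5 : |(M⁻¹ • ψ) (x - y)| ≤ |(M⁻¹ • ψ) (x - y) - φ n (x - y)| + |φ n (x - y)| := by
      have := abs_add_le ((M⁻¹ • ψ) (x - y) - φ n (x - y)) (φ n (x - y))
      rwa [sub_add_cancel] at this
    have h6 : ε / M = ε / (2 * M) + ε / (2 * M) := by
      field_simp
      ring
    rw [← map_sub, he]
    linarith
  have hgap := abs_cube_gap (φ n x) (φ n y) e he0.le h2
  have hmid : ∀ m, φ m ((1 / 2 : ℝ) • (x + y)) = (1 / 2) * (φ m x + φ m y) := by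
    intro m
    rw [map_smul, map_add, smul_eq_mul]
  have hconv : ∀ m, |(1 / 2) * (φ m x + φ m y)| ^ 3 ≤ (|φ m x| ^ 3 + |φ m y| ^ 3) / 2 := by
    intro m
    have := abs_cube_gap (φ m x) (φ m y) 0 le_rfl (abs_nonneg _)
    linarith
  obtain ⟨sx, ex⟩ := hsum x
  obtain ⟨sy, ey⟩ := hsum y
  obtain ⟨sm, em⟩ := hsum ((1 / 2 : ℝ) • (x + y))
  have sg : Summable (fun m => (c m * |φ m x| ^ 3 + c m * |φ m y| ^ 3) / 2) := (sx.add sy).div_const 2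
  have si : Summable (fun m => if m = n then c n * e ^ 3 / 8 else 0) :=
    summable_of_ne_finset_zero (s := {n}) (fun m hm => if_neg (fun h => hm (Finset.mem_singleton.2 h)))
  have key : ∑' m, (c m * |φ m ((1 / 2 : ℝ) • (x + y))| ^ 3 + (if m = n then c n * e ^ 3 / 8 else 0)) ≤
      ∑' m, (c m * |φ m x| ^ 3 + c m * |φ m y| ^ 3) / 2 := by
    refine Summable.tsum_le_tsum ?_ (sm.add si) sg
    intro m
    rw [hmid]
    by_cases hm : m = n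
    · rw [if_pos hm, hm]
      have h7 := mul_le_mul_of_nonneg_left hgap hcn.le
      have h8 : c n * (|(1 / 2) * (φ n x + φ n y)| ^ 3 + e ^ 3 / 8) =
          c n * |(1 / 2) * (φ n x + φ n y)| ^ 3 + c n * e ^ 3 / 8 := by ring
      have h9 : c n * ((|φ n x| ^ 3 + |φ n y| ^ 3) / 2) = (c n * |φ n x| ^ 3 + c n * |φ n y| ^ 3) / 2 := by ring
      rw [h8, h9] at h7
      exact h7
    · rw [if_neg hm, add_zero]
      have h7 := mul_le_mul_of_nonneg_left (hconv m) (hc m).le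
      have h9 : c m * ((|φ m x| ^ 3 + |φ m y| ^ 3) / 2) = (c m * |φ m x| ^ 3 + c m * |φ m y| ^ 3) / 2 := by ring
      rw [h9] at h7
      exact h7
  rw [sm.tsum_add si, tsum_ite_eq, tsum_div_const, sx.tsum_add sy] at key
  have hνmid := mid_cube hν x y
  have hNx : 0 ≤ N x := (mul_nonneg ha.le (norm_nonneg x)).trans (hab x).1
  have hNy : 0 ≤ N y := (mul_nonneg ha.le (norm_nonneg y)).trans (hab y).1
  have hNm : 0 ≤ N ((1 / 2 : ℝ) • (x + y)) := (mul_nonneg ha.le (norm_nonneg _)).trans (hab _).1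
  have hx3 : N x ^ 3 ≤ 1 := pow_le_one₀ hNx hx
  have hy3 : N y ^ 3 ≤ 1 := pow_le_one₀ hNy hy
  have hm3 : N ((1 / 2 : ℝ) • (x + y)) ^ 3 ≤ 1 - c n * e ^ 3 / 8 := by
    have h7 := mul_le_mul_of_nonneg_left hνmid hc₀.le
    have h8 : c₀ * ((ν x ^ 3 + ν y ^ 3) / 2) = (c₀ * ν x ^ 3 + c₀ * ν y ^ 3) / 2 := by ring
    rw [h8] at h7
    linarith
  obtain ⟨t, ht⟩ : ∃ t, t = N ((1 / 2 : ℝ) • (x + y)) := ⟨_, rfl⟩
  obtain ⟨η, hη⟩ : ∃ η, η = c n * e ^ 3 / 8 := ⟨_, rfl⟩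
  rw [← ht] at hm3 hNm ⊢
  rw [← hη] at hm3 ⊢
  have hη0 : 0 < η := by rw [hη]; positivity
  have ht3 : 0 ≤ t ^ 3 := pow_nonneg hNm 3
  have hη1 : η ≤ 1 := by linarith
  by_contra hcon
  have hcon' : 1 - η / 3 < t := not_le.1 hcon
  have h7 : (1 - η / 3) ^ 3 < t ^ 3 := pow_lt_pow_left₀ hcon' (by linarith) (by norm_num)
  have h8 : 1 - η ≤ (1 - η / 3) ^ 3 := by
    have h9 : (1 - η / 3) ^ 3 = 1 - η + η ^ 2 / 3 * (1 - η / 9) := by ring
    rw [h9]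
    have h10 : 0 ≤ η ^ 2 / 3 * (1 - η / 9) := mul_nonneg (by positivity) (by linarith)
    linarith
  linarith

end Pool.Agent.H47.FH
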