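import Pool.Agent.H47.FH.K1

/-!
# K4: sums of cubes
-/

set_option autoImplicit false

open Filter Topology

namespace Pool.Agent.H47.FH

open Pool.Agent.H47.SR Pool.Agent.H47.SS

variable {X : Type*} [NormedAddCommGroup X] [NormedSpace ℝ X]

theorem k4_norm {G G' : Type*} [NormedAddCommGroup G] [NormedSpace ℝ G] [NormedAddCommGroup G']
    [NormedSpace ℝ G'] (P : G →L[ℝ] G') (A : X →L[ℝ] G) (T : X →L[ℝ] X) {t : ℝ} (hP : ‖P‖ ≤ t)
    (hT : ‖T‖ ≤ t) (ht : 0 ≤ t) : ‖P.comp (A.comp T)‖ ≤ t ^ 2 * ‖A‖ := by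
  have h1 := P.opNorm_comp_le (A.comp T)
  have h2 := A.opNorm_comp_le T
  have h3 : ‖A‖ * ‖T‖ ≤ ‖A‖ * t := mul_le_mul_of_nonneg_left hT (norm_nonneg A)
  calc ‖P.comp (A.comp T)‖ ≤ ‖P‖ * ‖A.comp T‖ := h1
    _ ≤ t * (‖A‖ * t) := mul_le_mul hP (h2.trans h3) (norm_nonneg _) ht
    _ = t ^ 2 * ‖A‖ := by ring

theorem k4_norm_sub {G G' : Type*} [NormedAddCommGroup G] [NormedSpace ℝ G]
    [NormedAddCommGroup G'] [NormedSpace ℝ G'] (P : G →L[ℝ] G') (A A' : X →L[ℝ] G)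
    (T : X →L[ℝ] X) {t : ℝ} (hP : ‖P‖ ≤ t) (hT : ‖T‖ ≤ t) (ht : 0 ≤ t) :
    ‖P.comp (A.comp T) - P.comp (A'.comp T)‖ ≤ t ^ 2 * ‖A - A'‖ := by
  have e : P.comp (A.comp T) - P.comp (A'.comp T) = P.comp ((A - A').comp T) := by
    ext x
    simp
  rw [e]
  exact k4_norm P (A - A') T hP hT ht

theorem k4_deriv {G G' : Type*} [NormedAddCommGroup G] [NormedSpace ℝ G]
    [NormedAddCommGroup G'] [NormedSpace ℝ G'] (P : G →L[ℝ] G') (D : X → G) (A : X →L[ℝ] G)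
    (T : X →L[ℝ] X) (x : X) (h : HasFDerivAt D A (T x)) :
    HasFDerivAt (fun x => P (D (T x))) (P.comp (A.comp T)) x :=
  P.hasFDerivAt.comp x (h.comp x T.hasFDerivAt)

/-- ROW K4a. Chain rule: `D' x = (D (T x)).comp T`, `B' x h = (B (T x) (T h)).comp T` (`ContinuousLinearMap.bilinearComp` or `compL`), `C' = C * (‖T‖ + 1) ^ 3`. -/
theorem tw_comp {f : X → ℝ} {D : X → X →L[ℝ] ℝ} {B : X → X →L[ℝ] X →L[ℝ] ℝ} {C : ℝ}
    (hC : 0 ≤ C) (h : Tw f D B C) (T : X →L[ℝ] X) :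
    ∃ (D' : X → X →L[ℝ] ℝ) (B' : X → X →L[ℝ] X →L[ℝ] ℝ) (C' : ℝ), 0 ≤ C' ∧
      Tw (fun x => f (T x)) D' B' C' := by
  let P : (X →L[ℝ] ℝ) →L[ℝ] (X →L[ℝ] ℝ) := (ContinuousLinearMap.compL ℝ X X ℝ).flip T
  have hPa : ∀ φ : X →L[ℝ] ℝ, P φ = φ.comp T := fun φ => rfl
  set t : ℝ := ‖T‖ + 1 with ht
  have ht0 : 0 < t := by have := norm_nonneg T; linarith
  have hTt : ‖T‖ ≤ t := by linarith
  have hP : ‖P‖ ≤ t := by
    refine ContinuousLinearMap.opNorm_le_bound _ ht0.le fun φ => ?_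
    rw [hPa]
    have h1 := φ.opNorm_comp_le T
    calc ‖φ.comp T‖ ≤ ‖φ‖ * ‖T‖ := h1
      _ ≤ ‖φ‖ * t := mul_le_mul_of_nonneg_left hTt (norm_nonneg _)
      _ = t * ‖φ‖ := mul_comm _ _
  have hTx : ∀ x, ‖T x‖ ≤ t * ‖x‖ := fun x => (T.le_opNorm x).trans
    (mul_le_mul_of_nonneg_right hTt (norm_nonneg x))
  refine ⟨fun x => P (D (T x)), fun x => P.comp ((B (T x)).comp T), C * t ^ 3, by positivity,
    ?_, ?_, ?_, ?_, ?_, ?_⟩
  · intro x
    exact (h.d1 (T x)).comp x T.hasFDerivAt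
  · intro x
    exact k4_deriv (G := X →L[ℝ] ℝ) (G' := X →L[ℝ] ℝ) P D (B (T x)) T x (h.d2 (T x))
  · intro x
    refine (h.bf (T x)).trans ?_
    calc C * ‖T x‖ ^ 3 ≤ C * (t * ‖x‖) ^ 3 :=
          mul_le_mul_of_nonneg_left (pow_le_pow_left₀ (norm_nonneg _) (hTx x) 3) hC
      _ = C * t ^ 3 * ‖x‖ ^ 3 := by ring
  · intro x
    change ‖(D (T x)).comp T‖ ≤ _
    have h1 := (D (T x)).opNorm_comp_le T
    have h2 : ‖D (T x)‖ ≤ C * (t * ‖x‖) ^ 2 := (h.bD (T x)).trans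
      (mul_le_mul_of_nonneg_left (pow_le_pow_left₀ (norm_nonneg _) (hTx x) 2) hC)
    calc ‖(D (T x)).comp T‖ ≤ ‖D (T x)‖ * ‖T‖ := h1
      _ ≤ (C * (t * ‖x‖) ^ 2) * t := mul_le_mul h2 hTt (norm_nonneg _) (by positivity)
      _ = C * t ^ 3 * ‖x‖ ^ 2 := by ring
  · intro x
    have h1 := k4_norm (G := X →L[ℝ] ℝ) (G' := X →L[ℝ] ℝ) P (B (T x)) T hP hTt ht0.le
    have h2 : ‖B (T x)‖ ≤ C * (t * ‖x‖) := (h.bB (T x)).trans
      (mul_le_mul_of_nonneg_left (hTx x) hC)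
    have h3 : t ^ 2 * ‖B (T x)‖ ≤ t ^ 2 * (C * (t * ‖x‖)) :=
      mul_le_mul_of_nonneg_left h2 (by positivity)
    exact (h1.trans h3).trans (le_of_eq (by ring))
  · intro R ε hε
    obtain ⟨δ, hδ, hu⟩ := h.uc (t * R) (ε / t ^ 2) (by positivity)
    refine ⟨δ / t, by positivity, fun x y hx hy hxy => ?_⟩
    have hx' : ‖T x‖ ≤ t * R := (hTx x).trans (mul_le_mul_of_nonneg_left hx ht0.le)
    have hy' : ‖T y‖ ≤ t * R := (hTx y).trans (mul_le_mul_of_nonneg_left hy ht0.le)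
    have hxy' : ‖T x - T y‖ ≤ δ := by
      rw [← map_sub]
      refine (hTx (x - y)).trans ?_
      rw [le_div_iff₀ ht0] at hxy
      linarith
    have h1 := k4_norm_sub (G := X →L[ℝ] ℝ) (G' := X →L[ℝ] ℝ) P (B (T x)) (B (T y)) T hP hTt ht0.le
    have h2 := hu (T x) (T y) hx' hy' hxy'
    have h3 : t ^ 2 * ‖B (T x) - B (T y)‖ ≤ t ^ 2 * (ε / t ^ 2) :=
      mul_le_mul_of_nonneg_left h2 (by positivity)
    have h4 : t ^ 2 * (ε / t ^ 2) = ε := by field_simp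
    exact (h1.trans h3).trans h4.le

theorem k4_gen {ν : X → ℝ} (hν : EqNorm ν) (hU : UnifC2 ν) (h : ℕ → X → ℝ) (K : ℝ) (hK : 0 ≤ K)
    (h0 : ∀ n x, 0 ≤ h n x) (hu : ∀ n x, h n x ≤ K * ‖x‖)
    (ha : ∀ n x y, h n (x + y) ≤ h n x + h n y) (hh : ∀ n (t : ℝ) x, h n (t • x) = |t| * h n x)
    (hT : ∀ n, ∃ (D' : X → X →L[ℝ] ℝ) (B' : X → X →L[ℝ] X →L[ℝ] ℝ) (C' : ℝ), 0 ≤ C' ∧
      Tw (fun x => h n x ^ 3) D' B' C') :
    ∃ (N : X → ℝ) (c₀ : ℝ) (c : ℕ → ℝ), EqNorm N ∧ UnifC2 N ∧ 0 < c₀ ∧ (∀ n, 0 < c n) ∧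
      ∀ x, Summable (fun n => c n * h n x ^ 3) ∧
        N x ^ 3 = c₀ * ν x ^ 3 + ∑' n, c n * h n x ^ 3 := by
  obtain ⟨C1, hC1, hT1⟩ := exists_tw hν hU
  choose D2 B2 C2 hC2 hT2 using hT
  obtain ⟨⟨c1, c2, hc1, hc2, hb⟩, hadd, hhom⟩ := hν
  have hνnn : ∀ x, 0 ≤ ν x := fun x => (mul_nonneg hc1.le (norm_nonneg x)).trans (hb x).1
  let g : ℕ → X → ℝ := fun n x => Nat.casesOn n (ν x) (fun m => h m x)
  let D : ℕ → X → X →L[ℝ] ℝ := fun n => Nat.casesOn n (D3 ν) (fun m => D2 m)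
  let B : ℕ → X → X →L[ℝ] X →L[ℝ] ℝ := fun n => Nat.casesOn n (B3 ν) (fun m => B2 m)
  let C : ℕ → ℝ := fun n => Nat.casesOn n C1 (fun m => C2 m)
  have hC : ∀ n, 0 ≤ C n := by
    intro n
    cases n with
    | zero => exact hC1
    | succ m => exact hC2 m
  have hTw : ∀ n, Tw (fun y => g n y ^ 3) (D n) (B n) (C n) := by
    intro n
    cases n with
    | zero => exact hT1
    | succ m => exact hT2 m
  let w : ℕ → ℝ := fun n => (1 / 2) ^ n / (1 + C n)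
  have hpos : ∀ n, 0 < 1 + C n := fun n => by linarith [hC n]
  have hw : ∀ n, 0 < w n := fun n => div_pos (by positivity) (hpos n)
  have hs : ∀ n, w n ≤ (1 / 2) ^ n := by
    intro n
    refine div_le_self (by positivity) ?_
    linarith [hC n]
  have hs' : ∀ n, w n * C n ≤ (1 / 2) ^ n := by
    intro n
    have h1 : w n * (1 + C n) = (1 / 2) ^ n := div_mul_cancel₀ _ (hpos n).ne'
    nlinarith [hw n]
  have g0 : ∀ n x, 0 ≤ g n x := by
    intro n x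
    cases n with
    | zero => exact hνnn x
    | succ m => exact h0 m x
  have gu : ∀ n x, g n x ≤ (c2 + K) * ‖x‖ := by
    intro n x
    have hx := norm_nonneg x
    have hcx : 0 ≤ c2 * ‖x‖ := mul_nonneg hc2.le hx
    have hkx : 0 ≤ K * ‖x‖ := mul_nonneg hK hx
    cases n with
    | zero =>
      have := (hb x).2
      change ν x ≤ _
      linarith
    | succ m =>
      have := hu m x
      change h m x ≤ _
      linarith
  have ga : ∀ n x y, g n (x + y) ≤ g n x + g n y := by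
    intro n x y
    cases n with
    | zero => exact hadd x y
    | succ m => exact ha m x y
  have gh : ∀ n (t : ℝ) x, g n (t • x) = |t| * g n x := by
    intro n t x
    cases n with
    | zero => exact hhom t x
    | succ m => exact hh m t x
  obtain ⟨hS, hlow, hE⟩ := k1_eqNorm (K := c2 + K) (c0 := c1) (by linarith) hc1 g g0
    (fun x => (hb x).1) gu ga gh w hw hs
  have hTwS := tsum_tw (fun n y => g n y ^ 3) D B C w hTw hw hs'
  refine ⟨fun x => (∑' n, w n * g n x ^ 3) ^ (1 / 3 : ℝ), w 0, fun n => w (n + 1), hE,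
    unifC2_root hTwS (c := w 0 * c1 ^ 3) (mul_pos (hw 0) (pow_pos hc1 3)) hlow, hw 0,
    fun n => hw (n + 1), fun x => ⟨?_, ?_⟩⟩
  · exact (summable_nat_add_iff 1).2 (hS x)
  · have h1 : ((∑' n, w n * g n x ^ 3) ^ (1 / 3 : ℝ)) ^ 3 = ∑' n, w n * g n x ^ 3 := by
      rw [← Real.rpow_natCast, ← Real.rpow_mul
        (tsum_nonneg fun n => mul_nonneg (hw n).le (pow_nonneg (g0 n x) 3))]
      norm_num
    have h2 := (hS x).tsum_eq_zero_add
    exact h1.trans h2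

/-- ROW K4b. As `exists_sum_norm` (K1.lean), with the additional functions `ν (T n x) ^ 3` (`tw_comp`, `exists_tw`): enumerate the functions by `ℕ`: `f 0 = ν ^ 3`, `f (2 n + 1) = |φ n| ^ 3`, `f (2 n + 2) = ν (T n ·) ^ 3`. (Alternatively: apply `exists_sum_norm` first, let `N₁` be the norm, and then
the same construction to `N₁` in place of `ν` for the terms `ν (T n x) ^ 3`; the first constant `c₀` multiplies all terms.) -/
theorem exists_sum_norm2 {ν : X → ℝ} (hν : EqNorm ν) (hU : UnifC2 ν) (φ : ℕ → X →L[ℝ] ℝ)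
    (hφ : ∀ n, ‖φ n‖ ≤ 1) (T : ℕ → X →L[ℝ] X) :
    ∃ (N : X → ℝ) (c₀ : ℝ) (c b : ℕ → ℝ), EqNorm N ∧ UnifC2 N ∧ 0 < c₀ ∧ (∀ n, 0 < c n) ∧
      (∀ n, 0 < b n) ∧ ∀ x, Summable (fun n => c n * |φ n x| ^ 3) ∧
        Summable (fun n => b n * ν (T n x) ^ 3) ∧
        N x ^ 3 = c₀ * ν x ^ 3 + ∑' n, c n * |φ n x| ^ 3 + ∑' n, b n * ν (T n x) ^ 3 := by
  obtain ⟨N₁, c₁, c, hE1, hU1, hc₁, hc, hN₁⟩ := exists_sum_norm hν hU φ hφ
  obtain ⟨C1, hC1, hT1⟩ := exists_tw hν hU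
  obtain ⟨⟨a1, a2, ha1, ha2, hb⟩, hadd, hhom⟩ := hν
  have hνnn : ∀ x, 0 ≤ ν x := fun x => (mul_nonneg ha1.le (norm_nonneg x)).trans (hb x).1
  set r : ℕ → ℝ := fun n => 1 / (1 + ‖T n‖) with hr
  have hr0 : ∀ n, 0 < r n := fun n => by
    have := norm_nonneg (T n)
    rw [hr]
    positivity
  have hval : ∀ n x, ν ((r n • T n) x) = r n * ν (T n x) := by
    intro n x
    rw [ContinuousLinearMap.smul_apply, hhom, abs_of_pos (hr0 n)]
  obtain ⟨N, c₂, b, hE, hUN, hc₂, hb', hN⟩ := k4_gen hE1 hU1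
    (fun n x => ν ((r n • T n) x)) a2 ha2.le (fun n x => hνnn _) (fun n x => by
      rw [hval]
      have h1 : ν (T n x) ≤ a2 * ((1 + ‖T n‖) * ‖x‖) := by
        refine (hb _).2.trans (mul_le_mul_of_nonneg_left ?_ ha2.le)
        refine ((T n).le_opNorm x).trans (mul_le_mul_of_nonneg_right ?_ (norm_nonneg x))
        linarith
      have h2 : r n * (1 + ‖T n‖) = 1 := by
        have := norm_nonneg (T n)
        rw [hr]
        field_simp
      calc r n * ν (T n x) ≤ r n * (a2 * ((1 + ‖T n‖) * ‖x‖)) :=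
            mul_le_mul_of_nonneg_left h1 (hr0 n).le
        _ = (r n * (1 + ‖T n‖)) * (a2 * ‖x‖) := by ring
        _ = a2 * ‖x‖ := by rw [h2, one_mul])
    (fun n x y => by
      rw [map_add]
      exact hadd _ _)
    (fun n t x => by
      rw [map_smul]
      exact hhom _ _)
    (fun n => tw_comp hC1 hT1 (r n • T n))
  refine ⟨N, c₂ * c₁, fun n => c₂ * c n, fun n => b n * r n ^ 3, hE, hUN, mul_pos hc₂ hc₁,
    fun n => mul_pos hc₂ (hc n), fun n => mul_pos (hb' n) (pow_pos (hr0 n) 3), fun x => ?_⟩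
  have e : ∀ n, b n * ν ((r n • T n) x) ^ 3 = b n * r n ^ 3 * ν (T n x) ^ 3 := by
    intro n
    rw [hval]
    ring
  obtain ⟨hS2, hN2⟩ := hN x
  obtain ⟨hS1, hN1⟩ := hN₁ x
  simp only [e] at hS2 hN2
  refine ⟨?_, hS2, ?_⟩
  · have := hS1.mul_left c₂
    simpa only [mul_assoc] using this
  · rw [hN2, hN1, mul_add, ← tsum_mul_left]
    simp only [mul_assoc]

end Pool.Agent.H47.FH
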