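import Pool.Agent.H47.FH.K3
import Pool.Agent.H47.FH.K4

/-!
# K5: a smooth locally uniformly convex norm
-/

set_option autoImplicit false

open Filter Topology TopologicalSpace

namespace Pool.Agent.H47.FH

open Pool.Agent.H47.SR Pool.Agent.H47.SS

variable {X : Type*} [NormedAddCommGroup X] [NormedSpace ℝ X]

/-- `N` is locally uniformly convex. -/
def LConv (N : X → ℝ) : Prop :=
  ∀ x : X, N x = 1 → ∀ ε : ℝ, 0 < ε → ∃ δ : ℝ, 0 < δ ∧ ∀ y : X, N y ≤ 1 →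
    ε ≤ N (x - y) → N ((1 / 2 : ℝ) • (x + y)) ≤ 1 - δ

/-- `X` has the bounded approximation property (for separable `X`): the identity is the pointwise
limit of a sequence of operators of finite rank. -/
def BAP (X : Type*) [NormedAddCommGroup X] [NormedSpace ℝ X] : Prop :=
  ∃ S : ℕ → X →L[ℝ] X, (∀ n, FiniteDimensional ℝ (LinearMap.range (S n : X →ₗ[ℝ] X))) ∧
    ∀ x, Tendsto (fun n => S n x) atTop (𝓝 x)

theorem k5_gap {u v w : ℕ → ℝ} (hu : Summable u) (hv : Summable v) (hw : Summable w)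
    (h : ∀ m, w m ≤ (u m + v m) / 2) (n : ℕ) :
    0 ≤ (∑' m, u m + ∑' m, v m) / 2 - ∑' m, w m ∧
    (u n + v n) / 2 - w n ≤ (∑' m, u m + ∑' m, v m) / 2 - ∑' m, w m := by
  have s1 : Summable (fun m => (u m + v m) / 2) := (hu.add hv).div_const 2
  have s2 : Summable (fun m => (u m + v m) / 2 - w m) := s1.sub hw
  have e : ∑' m, ((u m + v m) / 2 - w m) = (∑' m, u m + ∑' m, v m) / 2 - ∑' m, w m := by
    rw [s1.tsum_sub hw, tsum_div_const, hu.tsum_add hv]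
  have hnn : ∀ m, 0 ≤ (u m + v m) / 2 - w m := fun m => sub_nonneg.2 (h m)
  rw [← e]
  exact ⟨tsum_nonneg hnn, s2.le_tsum n (fun m _ => hnn m)⟩

theorem k5_nonneg {ν : X → ℝ} (hν : EqNorm ν) (x : X) : 0 ≤ ν x := by
  obtain ⟨⟨a, A, ha, hA, hab⟩, _⟩ := hν
  exact (mul_nonneg ha.le (norm_nonneg x)).trans (hab x).1

theorem k5_half {ν : X → ℝ} (hν : EqNorm ν) (x y : X) :
    ν ((1 / 2 : ℝ) • (x + y)) ≤ (1 / 2) * (ν x + ν y) := by
  obtain ⟨_, htri, hhom⟩ := hν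
  rw [hhom, abs_of_pos (by norm_num : (0 : ℝ) < 1 / 2)]
  exact mul_le_mul_of_nonneg_left (htri x y) (by norm_num)

/-- gap for a norm term -/
theorem k5_nu {ν : X → ℝ} (hν : EqNorm ν) (x y : X) :
    ν ((1 / 2 : ℝ) • (x + y)) ^ 3 + |ν x - ν y| ^ 3 / 8 ≤ (ν x ^ 3 + ν y ^ 3) / 2 := by
  have h1 := abs_cube_gap (ν x) (ν y) |ν x - ν y| (abs_nonneg _) le_rfl
  have hx := k5_nonneg hν x
  have hy := k5_nonneg hν y
  have hm := k5_nonneg hν ((1 / 2 : ℝ) • (x + y))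
  have h2 : ν ((1 / 2 : ℝ) • (x + y)) ^ 3 ≤ ((1 / 2) * (ν x + ν y)) ^ 3 :=
    pow_le_pow_left₀ hm (k5_half hν x y) 3
  rw [abs_of_nonneg hx, abs_of_nonneg hy,
    abs_of_nonneg (mul_nonneg (by norm_num : (0 : ℝ) ≤ 1 / 2) (add_nonneg hx hy))] at h1
  linarith

theorem k5_main {ν N : X → ℝ} {c₀ : ℝ} {c b : ℕ → ℝ} (hν : EqNorm ν) (φ : ℕ → X →L[ℝ] ℝ)
    (T : ℕ → X →L[ℝ] X) (hc₀ : 0 < c₀) (hc : ∀ n, 0 < c n) (hb : ∀ n, 0 < b n)
    (hsum : ∀ x, Summable (fun n => c n * |φ n x| ^ 3) ∧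
        Summable (fun n => b n * ν (T n x) ^ 3) ∧
        N x ^ 3 = c₀ * ν x ^ 3 + ∑' n, c n * |φ n x| ^ 3 + ∑' n, b n * ν (T n x) ^ 3)
    (x y : X) (n : ℕ) :
    c n * |φ n x - φ n y| ^ 3 / 8 ≤
        (N x ^ 3 + N y ^ 3) / 2 - N ((1 / 2 : ℝ) • (x + y)) ^ 3 ∧
      b n * |ν (T n x) - ν (T n y)| ^ 3 / 8 ≤
        (N x ^ 3 + N y ^ 3) / 2 - N ((1 / 2 : ℝ) • (x + y)) ^ 3 := by
  obtain ⟨sx, tx, ex⟩ := hsum x
  obtain ⟨sy, ty, ey⟩ := hsum y
  obtain ⟨sm, tm, em⟩ := hsum ((1 / 2 : ℝ) • (x + y))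
  have hmid : ∀ m, φ m ((1 / 2 : ℝ) • (x + y)) = (1 / 2) * (φ m x + φ m y) := by
    intro m
    rw [map_smul, map_add, smul_eq_mul]
  have hTmid : ∀ m, T m ((1 / 2 : ℝ) • (x + y)) = (1 / 2 : ℝ) • (T m x + T m y) := by
    intro m
    rw [map_smul, map_add]
  have g1 : ∀ m, c m * |φ m ((1 / 2 : ℝ) • (x + y))| ^ 3 + c m * |φ m x - φ m y| ^ 3 / 8 ≤
      (c m * |φ m x| ^ 3 + c m * |φ m y| ^ 3) / 2 := by
    intro m
    have h1 := abs_cube_gap (φ m x) (φ m y) |φ m x - φ m y| (abs_nonneg _) le_rfl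
    rw [hmid]
    have h2 := mul_le_mul_of_nonneg_left h1 (hc m).le
    have h3 : c m * (|(1 / 2) * (φ m x + φ m y)| ^ 3 + |φ m x - φ m y| ^ 3 / 8) =
      c m * |(1 / 2) * (φ m x + φ m y)| ^ 3 + c m * |φ m x - φ m y| ^ 3 / 8 := by ring
    have h4 : c m * ((|φ m x| ^ 3 + |φ m y| ^ 3) / 2) =
      (c m * |φ m x| ^ 3 + c m * |φ m y| ^ 3) / 2 := by ring
    rw [h3, h4] at h2
    exact h2
  have g2 : ∀ m, b m * ν (T m ((1 / 2 : ℝ) • (x + y))) ^ 3 +
      b m * |ν (T m x) - ν (T m y)| ^ 3 / 8 ≤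
      (b m * ν (T m x) ^ 3 + b m * ν (T m y) ^ 3) / 2 := by
    intro m
    have h1 := k5_nu hν (T m x) (T m y)
    rw [hTmid]
    have h2 := mul_le_mul_of_nonneg_left h1 (hb m).le
    have h3 : b m * (ν ((1 / 2 : ℝ) • (T m x + T m y)) ^ 3 + |ν (T m x) - ν (T m y)| ^ 3 / 8) =
      b m * ν ((1 / 2 : ℝ) • (T m x + T m y)) ^ 3 + b m * |ν (T m x) - ν (T m y)| ^ 3 / 8 := by
      ring
    have h4 : b m * ((ν (T m x) ^ 3 + ν (T m y) ^ 3) / 2) =
      (b m * ν (T m x) ^ 3 + b m * ν (T m y) ^ 3) / 2 := by ring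
    rw [h3, h4] at h2
    exact h2
  have p1 : ∀ m, 0 ≤ c m * |φ m x - φ m y| ^ 3 / 8 := fun m =>
    div_nonneg (mul_nonneg (hc m).le (pow_nonneg (abs_nonneg _) 3)) (by norm_num)
  have p2 : ∀ m, 0 ≤ b m * |ν (T m x) - ν (T m y)| ^ 3 / 8 := fun m =>
    div_nonneg (mul_nonneg (hb m).le (pow_nonneg (abs_nonneg _) 3)) (by norm_num)
  have q1 := k5_gap sx sy sm (fun m => (le_add_of_nonneg_right (p1 m)).trans (g1 m)) n
  have q2 := k5_gap tx ty tm (fun m => (le_add_of_nonneg_right (p2 m)).trans (g2 m)) n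
  have h0 := mul_le_mul_of_nonneg_left (mid_cube hν x y) hc₀.le
  have h8 : c₀ * ((ν x ^ 3 + ν y ^ 3) / 2) = (c₀ * ν x ^ 3 + c₀ * ν y ^ 3) / 2 := by ring
  rw [h8] at h0
  have r1 := g1 n
  have r2 := g2 n
  obtain ⟨q1a, q1b⟩ := q1
  obtain ⟨q2a, q2b⟩ := q2
  rw [ex, ey, em]
  constructor
  · linarith
  · linarith

theorem k5_cube {e g : ℕ → ℝ} (he : ∀ k, 0 ≤ e k) (hg : Tendsto g atTop (𝓝 0)) {C : ℝ}
    (hC : 0 < C) (h : ∀ k, C * e k ^ 3 / 8 ≤ g k) : Tendsto e atTop (𝓝 0) := by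
  rw [Metric.tendsto_atTop]
  intro η hη
  obtain ⟨K, hK⟩ := (Metric.tendsto_atTop.1 hg) (C * η ^ 3 / 8) (by positivity)
  refine ⟨K, fun k hk => ?_⟩
  have h1 := hK k hk
  rw [Real.dist_eq, sub_zero] at h1 ⊢
  rw [abs_of_nonneg (he k)]
  have h2 := (abs_lt.1 h1).2
  have h3 := h k
  have h4 : C * e k ^ 3 / 8 < C * η ^ 3 / 8 := lt_of_le_of_lt h3 h2
  have h5 : e k ^ 3 < η ^ 3 := by
    have h6 : C * e k ^ 3 < C * η ^ 3 := by linarith
    exact lt_of_mul_lt_mul_left h6 hC.le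
  exact lt_of_pow_lt_pow_left₀ 3 hη.le h5

theorem k5_finrank (S : X →L[ℝ] X) (hS : FiniteDimensional ℝ (LinearMap.range (S : X →ₗ[ℝ] X)))
    (z : ℕ → X) (hz : ∀ ψ : X →L[ℝ] ℝ, Tendsto (fun k => ψ (z k)) atTop (𝓝 0)) :
    Tendsto (fun k => S (z k)) atTop (𝓝 0) := by
  obtain ⟨R, hR⟩ : ∃ R : Submodule ℝ X, R = LinearMap.range (S : X →ₗ[ℝ] X) := ⟨_, rfl⟩
  have : FiniteDimensional ℝ R := by rw [hR]; exact hS
  have hmem : ∀ x, S x ∈ R := by
    intro x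
    rw [hR]
    exact ⟨x, rfl⟩
  let S' : X →L[ℝ] R := S.codRestrict R hmem
  let e : R ≃L[ℝ] (Fin (Module.finrank ℝ R) → ℝ) := (Module.finBasis ℝ R).equivFunL
  have h1 : Tendsto (fun k => e (S' (z k))) atTop (𝓝 0) := by
    rw [tendsto_pi_nhds]
    intro i
    exact hz ((ContinuousLinearMap.proj (R := ℝ) (φ := fun _ : Fin (Module.finrank ℝ R) => ℝ) i).comp
      ((e : R →L[ℝ] (Fin (Module.finrank ℝ R) → ℝ)).comp S'))
  have h2 : Tendsto (fun k => e.symm (e (S' (z k)))) atTop (𝓝 (e.symm 0)) :=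
    (e.symm.continuous.tendsto 0).comp h1
  have h3 : Tendsto (fun k => S' (z k)) atTop (𝓝 0) := by
    rw [map_zero] at h2
    refine h2.congr fun k => ?_
    exact e.symm_apply_apply _
  have h4 : Tendsto (fun k => ((S' (z k) : R) : X)) atTop (𝓝 ((0 : R) : X)) :=
    (continuous_subtype_val.tendsto (0 : R)).comp h3
  exact h4

/-- `φ` from `dual_separable`, `T n = id - S n`, `N` from `exists_sum_norm2`. `WConv` as in `exists_wconv` (K3.lean; the third sum is convex by `mid_cube`). `LConv`: otherwise there are `x`, `ε` and `y k` with `N x = 1`, `N (y k) ≤ 1`, `ε ≤ N (x - y k)`, `N ((x + y k) / 2) → 1`. All midpoint gaps are `≥ 0`, so each of them tends to 0: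
`φ n (y k) → φ n x` (`abs_cube_gap`) for all `n`, so `ψ (y k) → ψ x` for all functionals `ψ`, so `S n (y k) → S n x` in norm for each `n` (finite rank: coordinates in a basis of the range); and `ν (T n (y k)) → ν (T n x)` (for `a, b ≥ 0`: `(a ^ 3 + b ^ 3) / 2 - ((a + b) / 2) ^ 3 = (3 / 8) (a + b) (a - b) ^ 2`). Hence
`limsup ν (y k - x) ≤ limsup (ν (T n (y k)) + ν (S n (y k) - S n x) + ν (T n x)) = 2 ν (T n x)`, which tends to 0 as `n → ∞`: contradiction. -/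
theorem exists_lconv [SeparableSpace X] {ν : X → ℝ} (hν : EqNorm ν) (hU : UnifC2 ν)
    (hX : BAP X) : ∃ N : X → ℝ, EqNorm N ∧ UnifC2 N ∧ WConv N ∧ LConv N := by
  obtain ⟨φ, hφ1, hφ2⟩ := dual_separable hν hU
  obtain ⟨S, hSf, hSl⟩ := hX
  obtain ⟨N, c₀, c, b, hN, hNU, hc₀, hc, hb, hsum⟩ := exists_sum_norm2 hν hU φ hφ1
    (fun n => ContinuousLinearMap.id ℝ X - S n)
  have hmain := k5_main hν φ (fun n => ContinuousLinearMap.id ℝ X - S n) hc₀ hc hb hsum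
  obtain ⟨⟨a, A, ha, hA, hab⟩, htri, hhom⟩ := id hN
  have happ : ∀ (ψ : X →L[ℝ] ℝ) (M : ℝ), 0 < M → ‖ψ‖ ≤ M → ∀ η : ℝ, 0 < η → ∃ n, ∀ z : X,
      ‖z‖ ≤ 2 / a → |M⁻¹ * ψ z - φ n z| ≤ η := by
    intro ψ M hM0 hψM η hη
    have hψ' : ‖M⁻¹ • ψ‖ ≤ 1 := by
      refine ContinuousLinearMap.opNorm_le_bound _ zero_le_one fun z => ?_
      have h1 : (M⁻¹ • ψ) z = M⁻¹ * ψ z := rfl
      rw [h1, Real.norm_eq_abs, abs_mul, abs_of_pos (inv_pos.2 hM0), one_mul]
      have h2 : |ψ z| ≤ M * ‖z‖ := by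
        have h3 := ψ.le_opNorm z
        rw [Real.norm_eq_abs] at h3
        exact h3.trans (mul_le_mul_of_nonneg_right hψM (norm_nonneg z))
      calc M⁻¹ * |ψ z| ≤ M⁻¹ * (M * ‖z‖) := mul_le_mul_of_nonneg_left h2 (inv_pos.2 hM0).le
        _ = ‖z‖ := by field_simp
    obtain ⟨n, hn⟩ := hφ2 (M⁻¹ • ψ) hψ' (η * a / 2) (by positivity)
    refine ⟨n, fun z hz => ?_⟩
    have h2 := (M⁻¹ • ψ - φ n).le_opNorm z
    rw [Real.norm_eq_abs] at h2
    have h3 : (M⁻¹ • ψ - φ n) z = M⁻¹ * ψ z - φ n z := rfl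
    rw [h3] at h2
    refine h2.trans ((mul_le_mul hn hz (norm_nonneg _) (by positivity)).trans (le_of_eq ?_))
    field_simp
  have hball : ∀ x y : X, N x ≤ 1 → N y ≤ 1 → ‖x - y‖ ≤ 2 / a := by
    intro x y hx hy
    have hxn : ‖x‖ ≤ 1 / a := by
      rw [le_div_iff₀ ha]
      have := (hab x).1
      linarith
    have hyn : ‖y‖ ≤ 1 / a := by
      rw [le_div_iff₀ ha]
      have := (hab y).1
      linarith
    have h1 := norm_sub_le x y
    have h2 : (2 : ℝ) / a = 1 / a + 1 / a := by ring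
    linarith
  refine ⟨N, hN, hNU, ?_, ?_⟩
  · intro ψ ε hε
    obtain ⟨M, hM⟩ : ∃ M : ℝ, M = max ‖ψ‖ 1 := ⟨_, rfl⟩
    have hM1 : 1 ≤ M := hM ▸ le_max_right _ _
    have hM0 : 0 < M := lt_of_lt_of_le one_pos hM1
    have hψM : ‖ψ‖ ≤ M := hM ▸ le_max_left _ _
    obtain ⟨e, he⟩ : ∃ e : ℝ, e = ε / (2 * M) := ⟨_, rfl⟩
    have he0 : 0 < e := by rw [he]; positivity
    obtain ⟨n, hn⟩ := happ ψ M hM0 hψM e he0
    have hcn := hc n
    refine ⟨c n * e ^ 3 / 8 / 3, by positivity, ?_⟩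
    intro x y hx hy hxy
    have h1 := hn (x - y) (hball x y hx hy)
    have h2 : e ≤ |φ n x - φ n y| := by
      have h4 : ε / M ≤ |M⁻¹ * ψ (x - y)| := by
        rw [abs_mul, abs_of_pos (inv_pos.2 hM0), div_eq_inv_mul]
        exact mul_le_mul_of_nonneg_left hxy (inv_pos.2 hM0).le
      have h5 : |M⁻¹ * ψ (x - y)| ≤ |M⁻¹ * ψ (x - y) - φ n (x - y)| + |φ n (x - y)| := by
        have := abs_add_le (M⁻¹ * ψ (x - y) - φ n (x - y)) (φ n (x - y))
        rwa [sub_add_cancel] at this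
      have h6 : ε / M = e + e := by
        rw [he]
        field_simp
        ring
      rw [← map_sub]
      linarith
    have hg := (hmain x y n).1
    have h3 : c n * e ^ 3 / 8 ≤ c n * |φ n x - φ n y| ^ 3 / 8 := by
      have h4 : e ^ 3 ≤ |φ n x - φ n y| ^ 3 := pow_le_pow_left₀ he0.le h2 3
      have h5 := mul_le_mul_of_nonneg_left h4 hcn.le
      linarith
    have hNx : 0 ≤ N x := k5_nonneg hN x
    have hNy : 0 ≤ N y := k5_nonneg hN y
    have hNm : 0 ≤ N ((1 / 2 : ℝ) • (x + y)) := k5_nonneg hN _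
    have hx3 : N x ^ 3 ≤ 1 := pow_le_one₀ hNx hx
    have hy3 : N y ^ 3 ≤ 1 := pow_le_one₀ hNy hy
    have hm3 : N ((1 / 2 : ℝ) • (x + y)) ^ 3 ≤ 1 - c n * e ^ 3 / 8 := by linarith
    obtain ⟨t, ht⟩ : ∃ t, t = N ((1 / 2 : ℝ) • (x + y)) := ⟨_, rfl⟩
    obtain ⟨η, hη⟩ : ∃ η, η = c n * e ^ 3 / 8 := ⟨_, rfl⟩
    rw [← ht] at hm3 hNm ⊢
    rw [← hη] at hm3 ⊢
    have hη0 : 0 < η := by rw [hη]; positivity
    have ht3 : 0 ≤ t ^ 3 := pow_nonneg hNm 3
    have hη1 : η ≤ 1 := by linarith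
    by_contra hcon
    have hcon' : 1 - η / 3 < t := not_le.1 hcon
    have h7 : (1 - η / 3) ^ 3 < t ^ 3 := pow_lt_pow_left₀ hcon' (by linarith) (by norm_num)
    have h8 : 1 - η ≤ (1 - η / 3) ^ 3 := by
      have h9 : (1 - η / 3) ^ 3 = 1 - η + η ^ 2 / 3 * (1 - η / 9) := by ring
      rw [h9]
      have h10 : 0 ≤ η ^ 2 / 3 * (1 - η / 9) := mul_nonneg (by positivity) (by linarith)
      linarith
    linarith
  · intro x hx ε hε
    by_contra hcon
    push Not at hcon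
    have hk : ∀ k : ℕ, (0 : ℝ) < 1 / ((k : ℝ) + 1) := fun k => by positivity
    choose y hy1 hy2 hy3 using fun k : ℕ => hcon (1 / ((k : ℝ) + 1)) (hk k)
    -- the gap tends to 0
    have hgap : Tendsto (fun k => (N x ^ 3 + N (y k) ^ 3) / 2 -
        N ((1 / 2 : ℝ) • (x + y k)) ^ 3) atTop (𝓝 0) := by
      have hlim : Tendsto (fun k : ℕ => 1 - (1 - 1 / ((k : ℝ) + 1)) ^ 3) atTop (𝓝 0) := by
        have h1 : Tendsto (fun k : ℕ => 1 - (1 - 1 / ((k : ℝ) + 1)) ^ 3) atTop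
            (𝓝 (1 - (1 - 0) ^ 3)) :=
          ((tendsto_one_div_add_atTop_nhds_zero_nat.const_sub 1).pow 3).const_sub 1
        have h2 : (1 : ℝ) - (1 - 0) ^ 3 = 0 := by norm_num
        rwa [h2] at h1
      refine squeeze_zero (fun k => ?_) (fun k => ?_) hlim
      · have h1 := (hmain x (y k) 0).1
        have h2 : 0 ≤ c 0 * |φ 0 x - φ 0 (y k)| ^ 3 / 8 :=
          div_nonneg (mul_nonneg (hc 0).le (pow_nonneg (abs_nonneg _) 3)) (by norm_num)
        exact h2.trans h1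
      · have h1 : N (y k) ^ 3 ≤ 1 := pow_le_one₀ (k5_nonneg hN _) (hy1 k)
        have h2 : 0 ≤ 1 - 1 / ((k : ℝ) + 1) := by
          have h3 : 1 / ((k : ℝ) + 1) ≤ 1 := by
            rw [div_le_one (by positivity)]
            have : (0 : ℝ) ≤ k := Nat.cast_nonneg k
            linarith
          linarith
        have h3 : (1 - 1 / ((k : ℝ) + 1)) ^ 3 ≤ N ((1 / 2 : ℝ) • (x + y k)) ^ 3 :=
          pow_le_pow_left₀ h2 (hy3 k).le 3
        rw [hx, one_pow]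
        linarith
    -- coordinates
    have hφl : ∀ n, Tendsto (fun k => |φ n x - φ n (y k)|) atTop (𝓝 0) := fun n =>
      k5_cube (fun k => abs_nonneg _) hgap (hc n) (fun k => (hmain x (y k) n).1)
    have hTl : ∀ n, Tendsto (fun k => |ν ((ContinuousLinearMap.id ℝ X - S n) x) -
        ν ((ContinuousLinearMap.id ℝ X - S n) (y k))|) atTop (𝓝 0) := fun n =>
      k5_cube (fun k => abs_nonneg _) hgap (hb n) (fun k => (hmain x (y k) n).2)
    have hψl : ∀ ψ : X →L[ℝ] ℝ, Tendsto (fun k => ψ (x - y k)) atTop (𝓝 0) := by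
      intro ψ
      obtain ⟨M, hM⟩ : ∃ M : ℝ, M = max ‖ψ‖ 1 := ⟨_, rfl⟩
      have hM1 : 1 ≤ M := hM ▸ le_max_right _ _
      have hM0 : 0 < M := lt_of_lt_of_le one_pos hM1
      have hψM : ‖ψ‖ ≤ M := hM ▸ le_max_left _ _
      rw [Metric.tendsto_atTop]
      intro η hη
      obtain ⟨n, hn⟩ := happ ψ M hM0 hψM (η / (2 * M)) (by positivity)
      obtain ⟨K, hK⟩ := (Metric.tendsto_atTop.1 (hφl n)) (η / (2 * M)) (by positivity)
      refine ⟨K, fun k hk => ?_⟩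
      have h1 := hK k hk
      rw [Real.dist_eq, sub_zero, abs_abs, ← map_sub] at h1
      have h2 := hn (x - y k) (hball x (y k) hx.le (hy1 k))
      rw [Real.dist_eq, sub_zero]
      have h5 : |M⁻¹ * ψ (x - y k)| ≤ |M⁻¹ * ψ (x - y k) - φ n (x - y k)| +
          |φ n (x - y k)| := by
        have := abs_add_le (M⁻¹ * ψ (x - y k) - φ n (x - y k)) (φ n (x - y k))
        rwa [sub_add_cancel] at this
      rw [abs_mul, abs_of_pos (inv_pos.2 hM0)] at h5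
      have h6 : M⁻¹ * |ψ (x - y k)| < η / M := by
        have h7 : η / M = η / (2 * M) + η / (2 * M) := by
          field_simp
          ring
        linarith
      rw [div_eq_inv_mul] at h6
      exact lt_of_mul_lt_mul_left h6 (inv_pos.2 hM0).le
    have hSl2 : ∀ n, Tendsto (fun k => S n (x - y k)) atTop (𝓝 0) := fun n =>
      k5_finrank (S n) (hSf n) (fun k => x - y k) hψl
    have hνc := k2_cont hν
    obtain ⟨⟨a', A', ha', hA', hab'⟩, htri', hhom'⟩ := id hν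
    have hν0 : ν 0 = 0 := by
      have h1 := hhom' 0 0
      rwa [zero_smul, abs_zero, zero_mul] at h1
    have hneg : ∀ z, ν (-z) = ν z := by
      intro z
      have h1 := hhom' (-1) z
      rwa [neg_one_smul, abs_neg, abs_one, one_mul] at h1
    -- lower bound for `ν (x - y k)`
    have hlow : ∀ k, ε / A * a' ≤ ν (x - y k) := by
      intro k
      have h1 : ε ≤ A * ‖x - y k‖ := (hy2 k).trans (hab _).2
      have h2 : ε / A ≤ ‖x - y k‖ := by
        rw [div_le_iff₀ hA]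
        linarith
      have h3 := mul_le_mul_of_nonneg_right h2 ha'.le
      have h4 := (hab' (x - y k)).1
      linarith
    have hε' : 0 < ε / A * a' := by positivity
    -- choice of `n`
    have hTx : Tendsto (fun n => ν ((ContinuousLinearMap.id ℝ X - S n) x)) atTop (𝓝 0) := by
      have h1 : Tendsto (fun n => x - S n x) atTop (𝓝 (x - x)) := (hSl x).const_sub x
      rw [sub_self] at h1
      have h2 := (hνc.tendsto 0).comp h1
      rw [hν0] at h2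
      exact h2
    obtain ⟨n, hn⟩ := ((Metric.tendsto_atTop.1 hTx) (ε / A * a' / 4) (by positivity))
    have hn1 := hn n le_rfl
    rw [Real.dist_eq, sub_zero, abs_of_nonneg (k5_nonneg hν _)] at hn1
    have hup : ∀ k, ν (x - y k) ≤ ν ((ContinuousLinearMap.id ℝ X - S n) x) +
        ν ((ContinuousLinearMap.id ℝ X - S n) (y k)) + ν (S n (x - y k)) := by
      intro k
      have h1 : x - y k = ((ContinuousLinearMap.id ℝ X - S n) x +
          -((ContinuousLinearMap.id ℝ X - S n) (y k))) + S n (x - y k) := by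
        have h2 : (ContinuousLinearMap.id ℝ X - S n) x = x - S n x := rfl
        have h3 : (ContinuousLinearMap.id ℝ X - S n) (y k) = y k - S n (y k) := rfl
        rw [h2, h3, map_sub]
        abel
      have h4 := htri' ((ContinuousLinearMap.id ℝ X - S n) x +
          -((ContinuousLinearMap.id ℝ X - S n) (y k))) (S n (x - y k))
      rw [← h1] at h4
      have h5 := htri' ((ContinuousLinearMap.id ℝ X - S n) x)
        (-((ContinuousLinearMap.id ℝ X - S n) (y k)))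
      rw [hneg] at h5
      linarith
    have hT2 : Tendsto (fun k => ν ((ContinuousLinearMap.id ℝ X - S n) (y k))) atTop
        (𝓝 (ν ((ContinuousLinearMap.id ℝ X - S n) x))) := by
      have h1 := hTl n
      rw [tendsto_iff_dist_tendsto_zero]
      refine h1.congr fun k => ?_
      rw [Real.dist_eq, abs_sub_comm]
    have hS2 : Tendsto (fun k => ν (S n (x - y k))) atTop (𝓝 0) := by
      have h2 := (hνc.tendsto 0).comp (hSl2 n)
      rw [hν0] at h2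
      exact h2
    have hfin := (hT2.const_add (ν ((ContinuousLinearMap.id ℝ X - S n) x))).add hS2
    have h9 := ge_of_tendsto' hfin (fun k => (hlow k).trans (hup k))
    linarith

end Pool.Agent.H47.FH
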