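import Pool.Agent.H47.FH.K8

/-!
# K7: smooth norms that are locally uniformly convex on a separable subspace
-/

set_option autoImplicit false

open Filter Topology TopologicalSpace

namespace Pool.Agent.H47.FH

open Pool.Agent.H47.SR Pool.Agent.H47.SS

variable {X : Type*} [NormedAddCommGroup X] [NormedSpace ℝ X]

/-- `N` is locally uniformly convex at the points of `Y`: for `x ∈ Y` with `N x = 1` and `ε > 0`
there is `δ > 0` such that the midpoint of `x` and any point `y` of the unit ball with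
`N (x - y) ≥ ε` is in the ball of radius `1 - δ`. -/
def LConvOn (Y : Set X) (N : X → ℝ) : Prop :=
  ∀ x ∈ Y, N x = 1 → ∀ ε : ℝ, 0 < ε → ∃ δ : ℝ, 0 < δ ∧ ∀ y : X, N y ≤ 1 →
    ε ≤ N (x - y) → N ((1 / 2 : ℝ) • (x + y)) ≤ 1 - δ

/-- `N` is uniformly convex with respect to each functional in `G`: for `g ∈ G` and `ε > 0` there is
`δ > 0` such that points of the unit ball with `|g (x - y)| ≥ ε` have a midpoint in the ball of
radius `1 - δ`. -/
def WConvOn (G : Set (X →L[ℝ] ℝ)) (N : X → ℝ) : Prop :=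
  ∀ g ∈ G, ∀ ε : ℝ, 0 < ε → ∃ δ : ℝ, 0 < δ ∧ ∀ x y : X, N x ≤ 1 → N y ≤ 1 →
    ε ≤ |g (x - y)| → N ((1 / 2 : ℝ) • (x + y)) ≤ 1 - δ

theorem k7_cube {t η : ℝ} (ht : 0 ≤ t) (hη : 0 < η) (h : t ^ 3 ≤ 1 - η) : t ≤ 1 - η / 3 := by
  have ht3 : 0 ≤ t ^ 3 := pow_nonneg ht 3
  have hη1 : η ≤ 1 := by linarith
  by_contra hcon
  have hcon' : 1 - η / 3 < t := not_le.1 hcon
  have h7 : (1 - η / 3) ^ 3 < t ^ 3 := pow_lt_pow_left₀ hcon' (by linarith) (by norm_num)
  have h8 : 1 - η ≤ (1 - η / 3) ^ 3 := by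
    have h9 : (1 - η / 3) ^ 3 = 1 - η + η ^ 2 / 3 * (1 - η / 9) := by ring
    rw [h9]
    have h10 : 0 ≤ η ^ 2 / 3 * (1 - η / 9) := mul_nonneg (by positivity) (by linarith)
    linarith
  linarith

theorem k7_gap {N : X → ℝ} (hN : EqNorm N) {x y : X} {Δ δ : ℝ} (hx : N x ≤ 1) (hy : N y ≤ 1)
    (hδ : 0 < δ) (h1 : δ ≤ Δ)
    (h2 : Δ ≤ (N x ^ 3 + N y ^ 3) / 2 - N ((1 / 2 : ℝ) • (x + y)) ^ 3) :
    N ((1 / 2 : ℝ) • (x + y)) ≤ 1 - δ / 3 := by
  have hNx : 0 ≤ N x := k5_nonneg hN x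
  have hNy : 0 ≤ N y := k5_nonneg hN y
  have hx3 : N x ^ 3 ≤ 1 := pow_le_one₀ hNx hx
  have hy3 : N y ^ 3 ≤ 1 := pow_le_one₀ hNy hy
  exact k7_cube (k5_nonneg hN _) hδ (by linarith)

/-- A separable set is in the closure of the range of a sequence. -/
theorem k7_seq {E : Type*} [TopologicalSpace E] [Inhabited E] {Y : Set E} (hY : IsSeparable Y) :
    ∃ c : ℕ → E, Y ⊆ closure (Set.range c) := by
  obtain ⟨s, hs, hsY⟩ := hY
  obtain ⟨f, hf⟩ := (hs.insert default).exists_eq_range (Set.insert_nonempty _ _)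
  refine ⟨f, hsY.trans (closure_mono ?_)⟩
  rw [← hf]
  exact Set.subset_insert _ _

theorem exists_conv_on {ν : X → ℝ} (hν : EqNorm ν) (hU : UnifC2 ν) {K : ℝ} (hK : 1 < K)
    (Y : Set X) (hY : IsSeparable Y) (G : Set (X →L[ℝ] ℝ)) (hG : IsSeparable G) :
    ∃ N : X → ℝ, EqNorm N ∧ UnifC2 N ∧ LConvOn Y N ∧ WConvOn G N ∧
      ∀ x, ν x ≤ N x ∧ N x ≤ K * ν x := by
  have : Inhabited X := ⟨0⟩
  have : Inhabited (X →L[ℝ] ℝ) := ⟨0⟩
  obtain ⟨c, hc⟩ := k7_seq hY
  obtain ⟨g, hg⟩ := k7_seq hG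
  choose u hu1 hu2 using fun n => exists_dual_vector'' ℝ (c n)
  obtain ⟨φ, hφe, hφo⟩ : ∃ φ : ℕ → X →L[ℝ] ℝ,
      (∀ n, φ (2 * n) = (max ‖g n‖ 1)⁻¹ • g n) ∧ ∀ n, φ (2 * n + 1) = u n := by
    refine ⟨fun n => if n % 2 = 0 then (max ‖g (n / 2)‖ 1)⁻¹ • g (n / 2) else u (n / 2),
      fun n => ?_, fun n => ?_⟩
    · have h1 : (2 * n) % 2 = 0 := by omega
      have h2 : (2 * n) / 2 = n := by omega
      simp only [h1, h2, if_true]
    · have h1 : ¬ (2 * n + 1) % 2 = 0 := by omega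
      have h2 : (2 * n + 1) / 2 = n := by omega
      simp only [h1, h2, if_false]
  have hφ : ∀ n, ‖φ n‖ ≤ 1 := by
    intro n
    rcases Nat.even_or_odd' n with ⟨m, hm | hm⟩
    · rw [hm, hφe, norm_smul, norm_inv, Real.norm_eq_abs]
      have h1 : 0 < max ‖g m‖ 1 := lt_of_lt_of_le one_pos (le_max_right _ _)
      rw [abs_of_pos h1, inv_mul_le_iff₀ h1, mul_one]
      exact le_max_left _ _
    · rw [hm, hφo]
      exact hu1 m
  obtain ⟨N, c₀, w, b, hN, hNU, hNν, hc₀, hw, hb, hsum⟩ := exists_sum_norm3 hν hU φ hφ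
    (fun n => ContinuousLinearMap.id ℝ X - (‖c n‖⁻¹ • u n).smulRight (c n)) hK
  have hmain := k5_main hν φ (fun n => ContinuousLinearMap.id ℝ X -
    (‖c n‖⁻¹ • u n).smulRight (c n)) hc₀ hw hb hsum
  obtain ⟨⟨a, A, ha, hA, hab⟩, htri, hhom⟩ := id hN
  obtain ⟨⟨a', A', ha', hA', hab'⟩, htri', hhom'⟩ := id hν
  refine ⟨N, hN, hNU, ?_, ?_, hNν⟩
  · intro x hxY hx ε hε
    have hx0 : 0 < ‖x‖ := by
      by_contra h
      have h1 := (hab x).2
      have h2 : A * ‖x‖ ≤ 0 := mul_nonpos_of_nonneg_of_nonpos hA.le (not_lt.1 h)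
      linarith
    obtain ⟨η, hη⟩ : ∃ η : ℝ, η = ε / A * a' := ⟨_, rfl⟩
    have hη0 : 0 < η := by rw [hη]; positivity
    obtain ⟨_, ⟨n, rfl⟩, hn⟩ := Metric.mem_closure_iff.1 (hc hxY) (min (η / 8 / A') ‖x‖)
      (lt_min (by positivity) hx0)
    rw [dist_eq_norm] at hn
    have hn1 := lt_of_lt_of_le hn (min_le_left _ _)
    have hn2 := lt_of_lt_of_le hn (min_le_right _ _)
    have h0 : c n ≠ 0 := by
      intro h
      rw [h, sub_zero] at hn2
      exact lt_irrefl _ hn2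
    have hcn : 0 < ‖c n‖ := norm_pos_iff.2 h0
    obtain ⟨T, hT⟩ : ∃ T : X →L[ℝ] X, T = ContinuousLinearMap.id ℝ X -
      (‖c n‖⁻¹ • u n).smulRight (c n) := ⟨_, rfl⟩
    have hTz : ∀ z, T z = z - (‖c n‖⁻¹ * u n z) • c n := by
      intro z
      rw [hT]
      rfl
    have hrank : ∀ z, ‖(‖c n‖⁻¹ * u n z) • c n‖ = |u n z| := by
      intro z
      rw [norm_smul, Real.norm_eq_abs, abs_mul, abs_of_pos (inv_pos.2 hcn)]
      field_simp
    have hTx : ν (T x) < η / 4 := by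
      have h1 : T x = (x - c n) + (‖c n‖⁻¹ * u n (c n - x)) • c n := by
        have h2 : u n (c n) = ‖c n‖ := hu2 n
        rw [hTz, map_sub, h2, mul_sub, inv_mul_cancel₀ hcn.ne', sub_smul, one_smul]
        abel
      have h3 : |u n (c n - x)| ≤ ‖x - c n‖ := by
        have h4 := (u n).le_opNorm (c n - x)
        rw [Real.norm_eq_abs, norm_sub_rev] at h4
        exact h4.trans ((mul_le_mul_of_nonneg_right (hu1 n) (norm_nonneg _)).trans
          (le_of_eq (one_mul _)))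
      have h5 : ‖T x‖ ≤ 2 * ‖x - c n‖ := by
        rw [h1]
        refine (norm_add_le _ _).trans ?_
        rw [hrank]
        linarith
      have h6 : ‖T x‖ < η / 4 / A' := by
        have h7 : η / 4 / A' = 2 * (η / 8 / A') := by ring
        rw [h7]
        linarith
      refine lt_of_le_of_lt (hab' _).2 ?_
      rw [lt_div_iff₀ hA'] at h6
      linarith
    obtain ⟨κ, hκ⟩ : ∃ κ : ℝ, κ = η / 4 / A' := ⟨_, rfl⟩
    have hκ0 : 0 < κ := by rw [hκ]; positivity
    have hwn := hw (2 * n + 1)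
    have hbn := hb n
    obtain ⟨δ, hδ⟩ : ∃ δ : ℝ, δ = min (b n * (η / 4) ^ 3 / 8) (w (2 * n + 1) * κ ^ 3 / 8) :=
      ⟨_, rfl⟩
    have hδ0 : 0 < δ := by
      rw [hδ]
      exact lt_min (by positivity) (by positivity)
    refine ⟨δ / 3, by positivity, fun y hy hxy => ?_⟩
    refine k7_gap hN (Δ := (N x ^ 3 + N y ^ 3) / 2 - N ((1 / 2 : ℝ) • (x + y)) ^ 3) hx.le hy hδ0 ?_
      le_rfl
    by_contra hcon
    have hcon' := not_le.1 hcon
    have g1 := (hmain x y (2 * n + 1)).1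
    have g2 := (hmain x y n).2
    rw [← hT] at g2
    rw [hφo] at g1
    have e1 : |u n x - u n y| < κ := by
      by_contra h
      have h1 := pow_le_pow_left₀ hκ0.le (not_lt.1 h) 3
      have h2 := mul_le_mul_of_nonneg_left h1 hwn.le
      have h3 : δ ≤ w (2 * n + 1) * κ ^ 3 / 8 := hδ ▸ min_le_right _ _
      linarith
    have e2 : |ν (T x) - ν (T y)| < η / 4 := by
      by_contra h
      have h1 := pow_le_pow_left₀ (by positivity : (0 : ℝ) ≤ η / 4) (not_lt.1 h) 3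
      have h2 := mul_le_mul_of_nonneg_left h1 hbn.le
      have h3 : δ ≤ b n * (η / 4) ^ 3 / 8 := hδ ▸ min_le_left _ _
      linarith
    have hneg : ∀ z, ν (-z) = ν z := by
      intro z
      have h1 := hhom' (-1) z
      rwa [neg_one_smul, abs_neg, abs_one, one_mul] at h1
    have e3 : ν ((‖c n‖⁻¹ * u n (x - y)) • c n) ≤ η / 4 := by
      refine (hab' _).2.trans ?_
      rw [hrank, map_sub]
      have h1 := mul_le_mul_of_nonneg_left e1.le hA'.le
      have h2 : A' * κ = η / 4 := by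
        rw [hκ]
        field_simp
      linarith
    have e4 : ν (x - y) ≤ ν (T x) + ν (T y) + ν ((‖c n‖⁻¹ * u n (x - y)) • c n) := by
      have h1 : x - y = (T x + -(T y)) + (‖c n‖⁻¹ * u n (x - y)) • c n := by
        rw [hTz, hTz, map_sub, mul_sub, sub_smul]
        abel
      have h4 := htri' (T x + -(T y)) ((‖c n‖⁻¹ * u n (x - y)) • c n)
      rw [← h1] at h4
      have h5 := htri' (T x) (-(T y))
      rw [hneg] at h5
      linarith
    have e5 : η ≤ ν (x - y) := by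
      have h1 : ε ≤ A * ‖x - y‖ := hxy.trans (hab _).2
      have h2 : ε / A ≤ ‖x - y‖ := by
        rw [div_le_iff₀ hA]
        linarith
      have h3 := mul_le_mul_of_nonneg_right h2 ha'.le
      have h4 := (hab' (x - y)).1
      rw [hη]
      linarith
    have e6 := (abs_lt.1 e2).1
    linarith
  · intro ψ hψ ε hε
    obtain ⟨_, ⟨n, rfl⟩, hn⟩ := Metric.mem_closure_iff.1 (hg hψ) (ε * a / 4) (by positivity)
    rw [dist_eq_norm] at hn
    obtain ⟨M, hM⟩ : ∃ M : ℝ, M = max ‖g n‖ 1 := ⟨_, rfl⟩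
    have hM0 : 0 < M := by
      rw [hM]
      exact lt_of_lt_of_le one_pos (le_max_right _ _)
    obtain ⟨e, he⟩ : ∃ e : ℝ, e = ε / 2 / M := ⟨_, rfl⟩
    have he0 : 0 < e := by rw [he]; positivity
    have hwn := hw (2 * n)
    refine ⟨w (2 * n) * e ^ 3 / 8 / 3, by positivity, fun x y hx hy hxy => ?_⟩
    refine k7_gap hN (Δ := w (2 * n) * |φ (2 * n) x - φ (2 * n) y| ^ 3 / 8) hx hy (by positivity)
      ?_ (hmain x y (2 * n)).1
    have hball : ‖x - y‖ ≤ 2 / a := by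
      have hxn : ‖x‖ ≤ 1 / a := by
        rw [le_div_iff₀ ha]
        have := (hab x).1
        linarith
      have hyn : ‖y‖ ≤ 1 / a := by
        rw [le_div_iff₀ ha]
        have := (hab y).1
        linarith
      have h1 := norm_sub_le x y
      have h2 : (2 : ℝ) / a = 1 / a + 1 / a := by ring
      linarith
    have h1 : |ψ (x - y) - g n (x - y)| ≤ ε / 2 := by
      have h2 := (ψ - g n).le_opNorm (x - y)
      rw [Real.norm_eq_abs] at h2
      have h3 : (ψ - g n) (x - y) = ψ (x - y) - g n (x - y) := rfl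
      rw [h3] at h2
      refine h2.trans ((mul_le_mul hn.le hball (norm_nonneg _) (by positivity)).trans
        (le_of_eq ?_))
      field_simp
      ring
    have h2 : ε / 2 ≤ |g n (x - y)| := by
      have h5 : |ψ (x - y)| ≤ |ψ (x - y) - g n (x - y)| + |g n (x - y)| := by
        have := abs_add_le (ψ (x - y) - g n (x - y)) (g n (x - y))
        rwa [sub_add_cancel] at this
      linarith
    have h3 : e ≤ |φ (2 * n) x - φ (2 * n) y| := by
      have h4 : φ (2 * n) x - φ (2 * n) y = M⁻¹ * g n (x - y) := by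
        rw [hφe, ← hM, map_sub, mul_sub]
        rfl
      rw [h4, abs_mul, abs_of_pos (inv_pos.2 hM0), he, div_eq_inv_mul]
      exact mul_le_mul_of_nonneg_left h2 (inv_pos.2 hM0).le
    have h4 : e ^ 3 ≤ |φ (2 * n) x - φ (2 * n) y| ^ 3 := pow_le_pow_left₀ he0.le h3 3
    have h5 := mul_le_mul_of_nonneg_left h4 hwn.le
    linarith

/-- A uniformly smooth separable space has a separable dual. -/
theorem dual_isSeparable [SeparableSpace X] {ν : X → ℝ} (hν : EqNorm ν) (hU : UnifC2 ν) :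
    IsSeparable (Set.univ : Set (X →L[ℝ] ℝ)) := by
  have : SeparableSpace (X →L[ℝ] ℝ) := by
    refine ⟨⟨Set.range (fun p : ℕ × ℚ => (p.2 : ℝ) • fderiv ℝ ν (denseSeq X p.1)),
      Set.countable_range _, ?_⟩⟩
    rw [Metric.dense_iff]
    intro ψ ε hε
    obtain ⟨n, q, h⟩ := k2_dense hν hU ψ (show 0 < ε / 2 by positivity)
    refine ⟨(q : ℝ) • fderiv ℝ ν (denseSeq X n), ?_, ⟨(n, q), rfl⟩⟩
    rw [Metric.mem_ball, dist_comm, dist_eq_norm]
    linarith
  exact isSeparable_univ_iff.2 this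

end Pool.Agent.H47.FH
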