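import Pool.Agent.H47.FH.K5

/-!
# K8: sums of cubes close to a given norm
-/

set_option autoImplicit false

open Filter Topology TopologicalSpace

namespace Pool.Agent.H47.FH

open Pool.Agent.H47.SR Pool.Agent.H47.SS

variable {X : Type*} [NormedAddCommGroup X] [NormedSpace ℝ X]

private theorem k8_mink {c a b a' b' : ℝ} (hc : 0 < c) (ha : 0 ≤ a) (hb : 0 ≤ b) (ha' : 0 ≤ a')
    (hb' : 0 ≤ b') : ((a + a') ^ 3 + c * (b + b') ^ 3) ^ (1 / 3 : ℝ) ≤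
      (a ^ 3 + c * b ^ 3) ^ (1 / 3 : ℝ) + (a' ^ 3 + c * b' ^ 3) ^ (1 / 3 : ℝ) := by
  have hc1 : 0 ≤ c ^ (1 / 3 : ℝ) := Real.rpow_nonneg hc.le _
  have h := Real.Lp_add_le_of_nonneg (s := (Finset.univ : Finset (Fin 2)))
    (f := ![a, c ^ (1 / 3 : ℝ) * b]) (g := ![a', c ^ (1 / 3 : ℝ) * b']) (p := 3) (by norm_num)
    (by
      intro i _
      fin_cases i
      · exact ha
      · exact mul_nonneg hc1 hb)
    (by
      intro i _
      fin_cases i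
      · exact ha'
      · exact mul_nonneg hc1 hb')
  have e3 : ∀ t : ℝ, t ^ (3 : ℝ) = t ^ 3 := fun t => by
    rw [← Real.rpow_natCast]
    norm_num
  simp only [Fin.sum_univ_two, Matrix.cons_val_zero, Matrix.cons_val_one] at h
  rw [← mul_add, s7_f hc.le (add_nonneg hb hb'), s7_f hc.le hb, s7_f hc.le hb', e3, e3, e3] at h
  exact h

private theorem k8_norm {G : Type*} [NormedAddCommGroup G] [NormedSpace ℝ G] (s t : ℝ) (u v : G) :
    ‖s • u + t • v‖ ≤ |s| * ‖u‖ + |t| * ‖v‖ := by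
  refine (norm_add_le _ _).trans ?_
  rw [norm_smul, norm_smul, Real.norm_eq_abs, Real.norm_eq_abs]

private theorem k8_tw {f g : X → ℝ} {D D' : X → X →L[ℝ] ℝ} {B B' : X → X →L[ℝ] X →L[ℝ] ℝ}
    {C C' : ℝ} (h : Tw f D B C) (h' : Tw g D' B' C') {c : ℝ} (hc : 0 < c) :
    Tw (fun y => 1 * f y + c * g y) (fun y => (1 : ℝ) • D y + c • D' y)
      (fun y => (1 : ℝ) • B y + c • B' y) (C + c * C') where
  d1 x := ((h.d1 x).const_mul 1).add ((h'.d1 x).const_mul c)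
  d2 x := ((h.d2 x).const_smul (1 : ℝ)).add ((h'.d2 x).const_smul c)
  bf x := by
    have h1 := h.bf x
    have h2 := mul_le_mul_of_nonneg_left (h'.bf x) hc.le
    have h3 := abs_add_le (1 * f x) (c * g x)
    rw [one_mul, abs_mul, abs_of_pos hc] at h3
    rw [one_mul]
    linarith
  bD x := by
    have h1 := h.bD x
    have h2 := mul_le_mul_of_nonneg_left (h'.bD x) hc.le
    have h3 := k8_norm (G := X →L[ℝ] ℝ) 1 c (D x) (D' x)
    rw [abs_one, abs_of_pos hc, one_mul] at h3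
    refine h3.trans ?_
    linarith
  bB x := by
    have h1 := h.bB x
    have h2 := mul_le_mul_of_nonneg_left (h'.bB x) hc.le
    have h3 := k8_norm (G := X →L[ℝ] X →L[ℝ] ℝ) 1 c (B x) (B' x)
    rw [abs_one, abs_of_pos hc, one_mul] at h3
    refine h3.trans ?_
    linarith
  uc R ε hε := by
    obtain ⟨δ, hδ, k⟩ := h.uc R (ε / 2) (half_pos hε)
    obtain ⟨δ', hδ', k'⟩ := h'.uc R (ε / (2 * c)) (by positivity)
    refine ⟨min δ δ', lt_min hδ hδ', fun x y hx hy hxy => ?_⟩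
    have h1 := k x y hx hy (hxy.trans (min_le_left _ _))
    have h2 := mul_le_mul_of_nonneg_left (k' x y hx hy (hxy.trans (min_le_right _ _))) hc.le
    have h3 := comb_sub (G := X →L[ℝ] X →L[ℝ] ℝ) 1 c (B x) (B y) (B' x) (B' y)
    rw [abs_one, abs_of_pos hc, one_mul] at h3
    refine h3.trans ?_
    have e : c * (ε / (2 * c)) = ε / 2 := by field_simp
    rw [e] at h2
    linarith

/-- `M = (ν ^ 3 + c N ^ 3) ^ (1/3)` with small `c`. -/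
theorem exists_mix {ν N : X → ℝ} (hν : EqNorm ν) (hU : UnifC2 ν) (hN : EqNorm N)
    (hU' : UnifC2 N) {K : ℝ} (hK : 1 < K) :
    ∃ (c : ℝ) (M : X → ℝ), 0 < c ∧ EqNorm M ∧ UnifC2 M ∧
      (∀ x, M x ^ 3 = 1 * ν x ^ 3 + c * N x ^ 3) ∧ ∀ x, ν x ≤ M x ∧ M x ≤ K * ν x := by
  obtain ⟨⟨c₀, C₀, hc₀, hC₀, hb⟩, htri, hhom⟩ := id hN
  obtain ⟨⟨a, A, ha, hA, hab⟩, htri', hhom'⟩ := id hν
  obtain ⟨L, hL⟩ : ∃ L : ℝ, L = C₀ / a := ⟨_, rfl⟩
  have hL0 : 0 < L := by rw [hL]; positivity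
  obtain ⟨c, hcd⟩ : ∃ c : ℝ, c = (K ^ 3 - 1) / L ^ 3 := ⟨_, rfl⟩
  have hK3 : 1 < K ^ 3 := one_lt_pow₀ hK (by norm_num)
  have hc : 0 < c := by
    rw [hcd]
    exact div_pos (by linarith) (by positivity)
  have hcC : c * L ^ 3 = K ^ 3 - 1 := by
    rw [hcd]
    exact div_mul_cancel₀ _ (by positivity)
  have hK0 : 0 < K := by linarith
  have hN0 : ∀ x, 0 ≤ N x := k5_nonneg hN
  have hν0 : ∀ x, 0 ≤ ν x := k5_nonneg hν
  have hNL : ∀ x, N x ≤ L * ν x := by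
    intro x
    refine (hb x).2.trans ?_
    have h1 := mul_le_mul_of_nonneg_left (hab x).1 hL0.le
    refine le_trans (le_of_eq ?_) h1
    rw [hL]
    field_simp
  have hF0 : ∀ x : X, 0 ≤ 1 * ν x ^ 3 + c * N x ^ 3 := fun x =>
    add_nonneg (mul_nonneg zero_le_one (pow_nonneg (hν0 x) 3))
      (mul_nonneg hc.le (pow_nonneg (hN0 x) 3))
  have hlow3 : ∀ x : X, 1 * ν x ^ 3 ≤ 1 * ν x ^ 3 + c * N x ^ 3 := fun x =>
    le_add_of_nonneg_right (mul_nonneg hc.le (pow_nonneg (hN0 x) 3))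
  have hupp3 : ∀ x : X, 1 * ν x ^ 3 + c * N x ^ 3 ≤ (K * ν x) ^ 3 := by
    intro x
    have h1 : N x ^ 3 ≤ (L * ν x) ^ 3 := pow_le_pow_left₀ (hN0 x) (hNL x) 3
    have h2 := mul_le_mul_of_nonneg_left h1 hc.le
    have h3 : c * (L * ν x) ^ 3 = (K ^ 3 - 1) * ν x ^ 3 := by
      rw [← hcC]
      ring
    rw [h3] at h2
    have h4 : (K * ν x) ^ 3 = 1 * ν x ^ 3 + (K ^ 3 - 1) * ν x ^ 3 := by ring
    rw [h4]
    linarith
  have hlow : ∀ x : X, ν x ≤ (1 * ν x ^ 3 + c * N x ^ 3) ^ (1 / 3 : ℝ) := by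
    intro x
    have h1 := Real.rpow_le_rpow (mul_nonneg zero_le_one (pow_nonneg (hν0 x) 3)) (hlow3 x)
      (by norm_num : (0 : ℝ) ≤ 1 / 3)
    rwa [one_mul, s7_cube_root (hν0 x), ← one_mul (ν x ^ 3)] at h1
  have hupp : ∀ x : X, (1 * ν x ^ 3 + c * N x ^ 3) ^ (1 / 3 : ℝ) ≤ K * ν x := by
    intro x
    have h1 := Real.rpow_le_rpow (hF0 x) (hupp3 x) (by norm_num : (0 : ℝ) ≤ 1 / 3)
    rwa [s7_cube_root (mul_nonneg hK0.le (hν0 x))] at h1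
  refine ⟨c, fun x => (1 * ν x ^ 3 + c * N x ^ 3) ^ (1 / 3 : ℝ), hc, ?_, ?_, fun x => ?_,
    fun x => ⟨hlow x, hupp x⟩⟩
  · refine ⟨⟨a, K * A, ha, by positivity, fun x => ⟨(hab x).1.trans (hlow x), ?_⟩⟩,
      fun x y => ?_, fun t x => ?_⟩
    · refine (hupp x).trans ?_
      have h1 := mul_le_mul_of_nonneg_left (hab x).2 hK0.le
      rwa [← mul_assoc] at h1
    · have h1 := k8_mink hc (hν0 x) (hN0 x) (hν0 y) (hN0 y)
      show (1 * ν (x + y) ^ 3 + c * N (x + y) ^ 3) ^ (1 / 3 : ℝ) ≤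
        (1 * ν x ^ 3 + c * N x ^ 3) ^ (1 / 3 : ℝ) + (1 * ν y ^ 3 + c * N y ^ 3) ^ (1 / 3 : ℝ)
      rw [one_mul, one_mul, one_mul]
      refine le_trans (Real.rpow_le_rpow ?_ ?_ (by norm_num)) h1
      · exact add_nonneg (pow_nonneg (hν0 _) 3) (mul_nonneg hc.le (pow_nonneg (hN0 _) 3))
      · have e1 : ν (x + y) ^ 3 ≤ (ν x + ν y) ^ 3 := pow_le_pow_left₀ (hν0 _) (htri' x y) 3
        have e2 : N (x + y) ^ 3 ≤ (N x + N y) ^ 3 := pow_le_pow_left₀ (hN0 _) (htri x y) 3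
        have e3 := mul_le_mul_of_nonneg_left e2 hc.le
        linarith
    · show (1 * ν (t • x) ^ 3 + c * N (t • x) ^ 3) ^ (1 / 3 : ℝ) =
        |t| * (1 * ν x ^ 3 + c * N x ^ 3) ^ (1 / 3 : ℝ)
      rw [hhom', hhom]
      have e : 1 * (|t| * ν x) ^ 3 + c * (|t| * N x) ^ 3 = |t| ^ 3 * (1 * ν x ^ 3 + c * N x ^ 3) := by
        ring
      rw [e, Real.mul_rpow (by positivity) (hF0 x), s7_cube_root (abs_nonneg t)]
  · obtain ⟨C₁, -, hT₁⟩ := exists_tw hν hU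
    obtain ⟨C₂, -, hT₂⟩ := exists_tw hN hU'
    refine unifC2_root (c := a ^ 3) (k8_tw hT₁ hT₂ hc) (by positivity) fun x => ?_
    have h1 : (a * ‖x‖) ^ 3 ≤ ν x ^ 3 :=
      pow_le_pow_left₀ (mul_nonneg ha.le (norm_nonneg x)) (hab x).1 3
    have h2 := hlow3 x
    rw [mul_pow] at h1
    linarith
  · have h1 : ((1 * ν x ^ 3 + c * N x ^ 3) ^ (1 / 3 : ℝ)) ^ (3 : ℕ) = 1 * ν x ^ 3 + c * N x ^ 3 := by
      rw [← Real.rpow_natCast, ← Real.rpow_mul (hF0 x)]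
      norm_num
    exact h1

/-- As `exists_sum_norm2`, with a norm close to the given one. -/
theorem exists_sum_norm3 {ν : X → ℝ} (hν : EqNorm ν) (hU : UnifC2 ν) (φ : ℕ → X →L[ℝ] ℝ)
    (hφ : ∀ n, ‖φ n‖ ≤ 1) (T : ℕ → X →L[ℝ] X) {K : ℝ} (hK : 1 < K) :
    ∃ (N : X → ℝ) (c₀ : ℝ) (c b : ℕ → ℝ), EqNorm N ∧ UnifC2 N ∧ (∀ x, ν x ≤ N x ∧ N x ≤ K * ν x) ∧
      0 < c₀ ∧ (∀ n, 0 < c n) ∧
      (∀ n, 0 < b n) ∧ ∀ x, Summable (fun n => c n * |φ n x| ^ 3) ∧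
        Summable (fun n => b n * ν (T n x) ^ 3) ∧
        N x ^ 3 = c₀ * ν x ^ 3 + ∑' n, c n * |φ n x| ^ 3 + ∑' n, b n * ν (T n x) ^ 3 := by
  obtain ⟨N, c₀, c, b, hN, hNU, hc₀, hc, hb, hsum⟩ := exists_sum_norm2 hν hU φ hφ T
  obtain ⟨t, M, ht, hM, hMU, hM3, hMν⟩ := exists_mix hν hU hN hNU hK
  refine ⟨M, 1 + t * c₀, fun n => t * c n, fun n => t * b n, hM, hMU, hMν, by positivity,
    fun n => mul_pos ht (hc n), fun n => mul_pos ht (hb n), fun x => ?_⟩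
  obtain ⟨s1, s2, s3⟩ := hsum x
  have e1 : (fun n => t * c n * |φ n x| ^ 3) = fun n => t * (c n * |φ n x| ^ 3) := by
    funext n
    ring
  have e2 : (fun n => t * b n * ν (T n x) ^ 3) = fun n => t * (b n * ν (T n x) ^ 3) := by
    funext n
    ring
  refine ⟨?_, ?_, ?_⟩
  · show Summable (fun n => t * c n * |φ n x| ^ 3)
    rw [e1]
    exact s1.mul_left t
  · show Summable (fun n => t * b n * ν (T n x) ^ 3)
    rw [e2]
    exact s2.mul_left t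
  · show M x ^ 3 = (1 + t * c₀) * ν x ^ 3 + ∑' n, t * c n * |φ n x| ^ 3 +
      ∑' n, t * b n * ν (T n x) ^ 3
    rw [e1, e2, tsum_mul_left, tsum_mul_left, hM3, s3]
    ring

end Pool.Agent.H47.FH
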