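import Pool.Agent.H47.FH.H7
import Pool.Agent.H47.FH.G2
import Pool.Agent.H47.FH.G3
import Pool.Agent.H47.FH.G4
import Pool.Agent.H47.FD.R2

/-!
# M: from averages to a norm
-/

set_option autoImplicit false

open Filter Topology

namespace Pool.Agent.H47.FH

open Pool.Agent.H47.SR Pool.Agent.H47.SS Pool.Agent.H47.FD

variable {X : Type*} [NormedAddCommGroup X] [NormedSpace ℝ X]

/-- The dilation by `t ≠ 0` as a continuous linear equivalence. -/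
private noncomputable def dil (t : ℝ) (ht : t ≠ 0) : X ≃L[ℝ] X :=
  ContinuousLinearEquiv.equivOfInverse (t • ContinuousLinearMap.id ℝ X)
    (t⁻¹ • ContinuousLinearMap.id ℝ X)
    (fun x => by
      show t⁻¹ • (t • x) = x
      rw [smul_smul, inv_mul_cancel₀ ht, one_smul])
    (fun x => by
      show t • (t⁻¹ • x) = x
      rw [smul_smul, mul_inv_cancel₀ ht, one_smul])

private theorem dil_apply (t : ℝ) (ht : t ≠ 0) (x : X) : dil t ht x = t • x := rfl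

/-- Normalisation of the norm. -/
private theorem exists_scaled {N' : X → ℝ} (hN : EqNorm N') (hU : UnifC2 N') :
    ∃ (N : X → ℝ) (c : ℝ), 0 < c ∧ c ≤ 1 ∧ EqNorm N ∧ UnifC2 N ∧ (∀ x, c * ‖x‖ ≤ N x) ∧
      ∀ x, N x ≤ ‖x‖ := by
  have hN0 := hN
  obtain ⟨⟨c, C, hc, hC, hb⟩, htri, hhom⟩ := hN
  have hCi : (0 : ℝ) < C⁻¹ := inv_pos.2 hC
  have hval : ∀ x : X, N' (dil C⁻¹ hCi.ne' x) = C⁻¹ * N' x := by
    intro x
    rw [dil_apply, hhom, abs_of_pos hCi]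
  have hlow : ∀ x : X, min (c / C) 1 * ‖x‖ ≤ C⁻¹ * N' x := by
    intro x
    calc min (c / C) 1 * ‖x‖ ≤ c / C * ‖x‖ :=
          mul_le_mul_of_nonneg_right (min_le_left _ _) (norm_nonneg x)
      _ = C⁻¹ * (c * ‖x‖) := by rw [div_eq_inv_mul]; ring
      _ ≤ C⁻¹ * N' x := mul_le_mul_of_nonneg_left (hb x).1 hCi.le
  have hupp : ∀ x : X, C⁻¹ * N' x ≤ ‖x‖ := by
    intro x
    calc C⁻¹ * N' x ≤ C⁻¹ * (C * ‖x‖) := mul_le_mul_of_nonneg_left (hb x).2 hCi.le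
      _ = ‖x‖ := by rw [← mul_assoc, inv_mul_cancel₀ hC.ne', one_mul]
  have hmin : 0 < min (c / C) 1 := lt_min (div_pos hc hC) one_pos
  refine ⟨fun x => N' (dil C⁻¹ hCi.ne' x), min (c / C) 1, hmin, min_le_right _ _, ?_,
    unifC2_comp hN0 hU _, ?_, ?_⟩
  · refine ⟨⟨min (c / C) 1, 1, hmin, one_pos, fun x => ⟨?_, ?_⟩⟩, fun x y => ?_, fun t x => ?_⟩
    · beta_reduce
      rw [hval]
      exact hlow x
    · beta_reduce
      rw [hval, one_mul]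
      exact hupp x
    · beta_reduce
      rw [hval, hval, hval, ← mul_add]
      exact mul_le_mul_of_nonneg_left (htri x y) hCi.le
    · beta_reduce
      rw [hval, hval, hhom]
      ring
  · intro x
    beta_reduce
    rw [hval]
    exact hlow x
  · intro x
    beta_reduce
    rw [hval]
    exact hupp x

/-- One scale. -/
private theorem exists_one {N : X → ℝ} {c : ℝ} (hc : 0 < c) (hc1 : c ≤ 1) (hN : EqNorm N)
    (hU : UnifC2 N) (hlow : ∀ x, c * ‖x‖ ≤ N x) (hupp : ∀ x, N x ≤ ‖x‖) {s : ℝ}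
    (h : ∃ (C d : ℝ) (v : ℝ → ℝ), 0 < C ∧ 0 < d ∧ (∀ t : ℝ, 0 < t → 0 < v t) ∧
        ∀ E : Submodule ℝ X, FiniteDimensional ℝ E → Avg (c / 4 * s) C d v E) :
    ∃ M : X → ℝ, EqNorm M ∧ (∀ x, ‖x‖ ≤ 4 / c * M x) ∧ (∀ x, M x ≤ 4 / c * ‖x‖) ∧ UnifC2 M ∧
      ∃ d : ℝ, 0 < d ∧ ∀ x y : X, M x ≤ 1 → M y ≤ 1 → s < M (x - y) →
        M ((1 / 2 : ℝ) • (x + y)) ≤ 1 - d := by
  obtain ⟨C, d, v, hC, hd, hv, hA⟩ := h
  obtain ⟨f, D, B, hf, hgap⟩ := exists_fn_of_avg hC hd hv hA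
  obtain ⟨Q, D', B', a, M, hQ, hr, hM, hg⟩ := exists_LV hC hv hc hc1 hf hN hU hlow hupp
  obtain ⟨hE, hl, hup⟩ := hQ.eqNorm
  have hc4 : 0 < c / 4 := by linarith
  have hup' : ∀ x, gauge (VV Q a) x ≤ 4 / c * ‖x‖ := by
    intro x
    refine (hup (c / 4) hc4 hr (by linarith) x).trans (le_of_eq ?_)
    rw [div_div_eq_mul_div, mul_comm, div_mul_eq_mul_div]
  refine ⟨gauge (VV Q a), hE, ?_, hup', hQ.unifC2, ?_⟩
  · intro x
    refine (hl x).trans (mul_le_mul_of_nonneg_right ?_ (gauge_nonneg x))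
    rw [le_div_iff₀ hc]
    linarith
  · have hg' : ∀ x y : X, ‖x‖ < 1 → ‖y‖ < 1 → c / 4 * s ≤ ‖x - y‖ → 2 * (d / 2) ≤ gap Q x y := by
      intro x y hx hy hxy
      have h2 := hgap x y hx hy hxy
      have h3 := hgap (-x) (-y) (by rwa [norm_neg]) (by rwa [norm_neg]) (by
        have e : -x - -y = -(x - y) := by abel
        rwa [e, norm_neg])
      have h4 := hg x y hx hy
      linarith
    have hs' : ∀ x : X, s ≤ gauge (VV Q a) x → c / 4 * s ≤ ‖x‖ := by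
      intro x hx
      have h2 : s ≤ 4 / c * ‖x‖ := hx.trans (hup' x)
      calc c / 4 * s ≤ c / 4 * (4 / c * ‖x‖) := mul_le_mul_of_nonneg_left h2 hc4.le
        _ = ‖x‖ := by
          field_simp
    obtain ⟨d', hd', h1⟩ := hQ.scale (by linarith) hM hg' hs'
    exact ⟨d', hd', fun x y hx hy hxy => h1 x y hx hy hxy.le⟩

/-- ROW M. Scale `N'` (i.e. replace it by `C₁⁻¹ * N'`, `N' ≤ C₁ ‖x‖`; `EqNorm`, `UnifC2` are preserved) to get `c ‖x‖ ≤ N x ≤ ‖x‖`, `0 < c ≤ 1`. For `n` let `e = c / (4 (n + 1))`; `exists_fn_of_avg` gives `f` with gap `≥ d / 2` at scale `e`, `exists_LV` gives `Q`; the norm `N n = gauge (VV Q a)`: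
`‖x‖ ≤ (1/2) N n x`, `N n x ≤ (4 / c) ‖x‖` (`LV.eqNorm` with `r = c / 4`), `UnifC2` (`LV.unifC2`), and `LV.scale` with `s = 1 / (n + 1)` (`s ≤ N n x ≤ (4 / c) ‖x‖` gives `e ≤ ‖x‖`), `d / 2` in place of `d`. `pnorm_of_scales` (SS/G2.lean) with `K = 4 / c` (`≥ 4`). -/
theorem pnorm_of_avg {N' : X → ℝ} (hN : EqNorm N') (hU : UnifC2 N')
    (h : ∀ e : ℝ, 0 < e → ∃ (C d : ℝ) (v : ℝ → ℝ), 0 < C ∧ 0 < d ∧
      (∀ t : ℝ, 0 < t → 0 < v t) ∧
        ∀ E : Submodule ℝ X, FiniteDimensional ℝ E → Avg e C d v E) :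
    ∃ N : X → ℝ, PNorm N := by
  obtain ⟨N, c, hc, hc1, hE, hU', hlow, hupp⟩ := exists_scaled hN hU
  have key : ∀ n : ℕ, ∃ M : X → ℝ, EqNorm M ∧ (∀ x, ‖x‖ ≤ 4 / c * M x) ∧
      (∀ x, M x ≤ 4 / c * ‖x‖) ∧ UnifC2 M ∧
      ∃ d : ℝ, 0 < d ∧ ∀ x y : X, M x ≤ 1 → M y ≤ 1 → 1 / ((n : ℝ) + 1) < M (x - y) →
        M ((1 / 2 : ℝ) • (x + y)) ≤ 1 - d := by
    intro n
    have hn : (0 : ℝ) < 1 / ((n : ℝ) + 1) := by positivity
    exact exists_one hc hc1 hE hU' hlow hupp (h _ (mul_pos (by linarith) hn))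
  choose M h1 h2 h3 h4 h5 using key
  exact pnorm_of_scales (K := 4 / c) (div_pos (by norm_num) hc) M h1 h2 h3 h4 h5

end Pool.Agent.H47.FH
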