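import Pool.Agent.H47.FH.H2

/-!
# N1: separation instead of a convexity gap
-/

set_option autoImplicit false

open Filter Topology

namespace Pool.Agent.H47.FH

variable {E : Type*} [NormedAddCommGroup E] [NormedSpace ℝ E]

/-- Separation of the end points from the midpoint. -/
noncomputable def sep (f : E → ℝ) (x y : E) : ℝ :=
  |f x - f ((1 / 2 : ℝ) • (x + y))| + |f y - f ((1 / 2 : ℝ) • (x + y))|

theorem norm_sub_self_N1 {G : Type*} [NormedAddCommGroup G] (g : G) : ‖g - g‖ = 0 := by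
  rw [sub_self, norm_zero]

/-- ROW N1a. -/
theorem Fn.mono {C C' : ℝ} {v : ℝ → ℝ} {f : E → ℝ} {D : E → E →L[ℝ] ℝ}
    {B : E → E →L[ℝ] E →L[ℝ] ℝ} (h : Fn C v f D B) (hC : C ≤ C') : Fn C' v f D B :=
  ⟨h.cvx, h.d1, h.d2, fun x hx => (h.bf x hx).trans hC, fun x hx => (h.bD x hx).trans hC,
    fun x hx => (h.bB x hx).trans hC, h.uc⟩

/-- ROW N1b. `f x = b x x / 2`, `D x = b x`, `B x = b` (`b` symmetric). `gap f x y = b (x - y) (x - y) / 4`. -/
theorem Fn.quad (v : ℝ → ℝ) (b : E →L[ℝ] E →L[ℝ] ℝ) (hb : ‖b‖ ≤ 1)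
    (hs : ∀ x y, b x y = b y x) (hp : ∀ x, 0 ≤ b x x) :
    Fn 1 v (fun x => b x x / 2) (fun x => b x) (fun _ => b) ∧
      ∀ x y, gap (fun x => b x x / 2) x y = b (x - y) (x - y) / 4 := by
  have hbx : ∀ x : E, ‖x‖ < 1 → ‖b x‖ ≤ 1 := by
    intro x hx
    have h1 := b.le_opNorm x
    have h2 : ‖b‖ * ‖x‖ ≤ 1 * 1 := mul_le_mul hb hx.le (norm_nonneg _) zero_le_one
    linarith
  refine ⟨⟨?_, ?_, ?_, ?_, hbx, fun _ _ => hb, ?_⟩, ?_⟩
  · refine ⟨convex_ball _ _, fun x _ y _ s t hs0 ht0 hst => ?_⟩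
    have h1 : 0 ≤ s * t * b (x - y) (x - y) := mul_nonneg (mul_nonneg hs0 ht0) (hp _)
    have h2 := hs x y
    have h3 : t = 1 - s := by linarith
    subst h3
    simp only [map_add, map_sub, map_smul, ContinuousLinearMap.add_apply,
      ContinuousLinearMap.sub_apply, ContinuousLinearMap.smul_apply, smul_eq_mul] at h1 ⊢
    rw [h2] at h1 ⊢
    nlinarith
  · intro x _
    have h1 := (b.hasFDerivAt (x := x)).clm_apply (hasFDerivAt_id x)
    have h2 := h1.const_mul (1 / 2 : ℝ)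
    have e1 : (fun y : E => (1 / 2 : ℝ) * b y y) = fun y => b y y / 2 := by
      funext y
      ring
    rw [← e1]
    refine h2.congr_fderiv ?_
    ext y
    simp only [ContinuousLinearMap.smul_apply, ContinuousLinearMap.add_apply,
      ContinuousLinearMap.comp_apply, ContinuousLinearMap.flip_apply,
      ContinuousLinearMap.id_apply, smul_eq_mul, id]
    rw [hs y x]
    ring
  · intro x _
    exact b.hasFDerivAt
  · intro x hx
    have h1 := (b x).le_opNorm x
    rw [Real.norm_eq_abs] at h1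
    have h2 : ‖b x‖ * ‖x‖ ≤ 1 * 1 := mul_le_mul (hbx x hx) hx.le (norm_nonneg _) zero_le_one
    rw [abs_div, abs_two]
    linarith [abs_nonneg (b x x)]
  · intro t ht x y _ _ _
    exact (norm_sub_self_N1 (G := E →L[ℝ] E →L[ℝ] ℝ) b).le.trans ht.le
  · intro x y
    unfold gap
    have h2 := hs x y
    simp only [map_add, map_sub, map_smul, ContinuousLinearMap.add_apply,
      ContinuousLinearMap.sub_apply, ContinuousLinearMap.smul_apply, smul_eq_mul]
    rw [h2]
    ring

end Pool.Agent.H47.FH
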