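import Pool.Agent.H47.FH.N1

/-!
# N2: the square of a convex function
-/

set_option autoImplicit false

open Filter Topology

namespace Pool.Agent.H47.FH

section gen

variable {E : Type*} [NormedAddCommGroup E] [NormedSpace ℝ E]
variable {G : Type*} [NormedAddCommGroup G] [NormedSpace ℝ G]

private theorem n2_lip {F : E → G} {F' : E → E →L[ℝ] G} {C : ℝ}
    (hd : ∀ y : E, ‖y‖ < 1 → HasFDerivAt F (F' y) y)
    (hb : ∀ y : E, ‖y‖ < 1 → ‖F' y‖ ≤ C) {x y : E} (hx : ‖x‖ < 1) (hy : ‖y‖ < 1) :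
    ‖F x - F y‖ ≤ C * ‖x - y‖ :=
  Convex.norm_image_sub_le_of_norm_hasFDerivWithin_le (f := F) (f' := F') (C := C)
    (s := Metric.ball (0 : E) 1)
    (fun z hz => (hd z (by simpa using hz)).hasFDerivWithinAt)
    (fun z hz => hb z (by simpa using hz)) (convex_ball (0 : E) 1)
    (by simpa using hy) (by simpa using hx)

private theorem n2_norm (s : ℝ) (u w : G) : ‖s • u + w‖ ≤ |s| * ‖u‖ + ‖w‖ := by
  refine (norm_add_le _ _).trans ?_
  rw [norm_smul, Real.norm_eq_abs]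

private theorem n2_norm_smul (s : ℝ) (u : G) : ‖s • u‖ = |s| * ‖u‖ := by
  rw [norm_smul, Real.norm_eq_abs]

private theorem n2_smul_sub (s : ℝ) (u v : G) : ‖s • u - s • v‖ = |s| * ‖u - v‖ := by
  rw [← smul_sub, norm_smul, Real.norm_eq_abs]

omit [NormedSpace ℝ G] in
private theorem n2_nn (u : G) : 0 ≤ ‖u‖ := norm_nonneg u

private theorem n2_diff (s s' : ℝ) (u u' w w' : G) :
    ‖(s • u + w) - (s' • u' + w')‖ ≤ |s| * ‖u - u'‖ + |s - s'| * ‖u'‖ + ‖w - w'‖ := by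
  have e : (s • u + w) - (s' • u' + w') = s • (u - u') + (s - s') • u' + (w - w') := by
    rw [smul_sub, sub_smul]
    abel
  rw [e]
  refine (norm_add_le _ _).trans ?_
  refine add_le_add ((norm_add_le _ _).trans ?_) le_rfl
  rw [norm_smul, norm_smul, Real.norm_eq_abs, Real.norm_eq_abs]

private theorem n2_smulR (a : E →L[ℝ] ℝ) (u : G) : ‖a.smulRight u‖ = ‖a‖ * ‖u‖ :=
  ContinuousLinearMap.norm_smulRight_apply a u

private theorem n2_smulR_sub (a b : E →L[ℝ] ℝ) (u v : G) :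
    ‖a.smulRight u - b.smulRight v‖ ≤ ‖a - b‖ * ‖u‖ + ‖b‖ * ‖u - v‖ := by
  have e : a.smulRight u - b.smulRight v = (a - b).smulRight u + b.smulRight (u - v) := by
    ext w
    change a w • u - b w • v = (a w - b w) • u + b w • (u - v)
    rw [sub_smul, smul_sub]
    abel
  rw [e]
  refine (norm_add_le _ _).trans ?_
  rw [n2_smulR, n2_smulR]

end gen

/-- The first derivative of `F + F ^ 2`, `F = f + C`. -/
private noncomputable def n2D {E : Type} [NormedAddCommGroup E] [NormedSpace ℝ E] (C : ℝ)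
    (f : E → ℝ) (D : E → E →L[ℝ] ℝ) (x : E) : E →L[ℝ] ℝ := (1 + 2 * (f x + C)) • D x

/-- The second derivative of `F + F ^ 2`, `F = f + C`. -/
private noncomputable def n2B {E : Type} [NormedAddCommGroup E] [NormedSpace ℝ E] (C : ℝ)
    (f : E → ℝ) (D : E → E →L[ℝ] ℝ) (B : E → E →L[ℝ] E →L[ℝ] ℝ) (x : E) :
    E →L[ℝ] E →L[ℝ] ℝ :=
  (1 + 2 * (f x + C)) • B x + ((2 : ℝ) • D x).smulRight (D x)

/-- ROW N2a. `F = f + C` (`0 ≤ F ≤ 2 C` on the ball), `g = F + F ^ 2` with the derivatives `(1 + 2 F) • D`, `(1 + 2 F) • B + 2 • D ⊗ D` (`(D x).smulRight (D x)`; note `HasFDerivAt.smul`). `C' = (1 + 4 C) C + 4 C ^ 2 + 2 C + 1`, `v' t = min (v (t / (2 (1 + 4 C)))) (t / (12 C ^ 2 + 1))`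
(`F` is `C`-Lipschitz and `D` is `C`-Lipschitz on the convex ball by the mean value inequality; `smulR_sub` in Pool/Agent/H47/SS/S6.lean). -/
theorem Fn.sq {C : ℝ} (hC : 0 < C) {v : ℝ → ℝ} (hv : ∀ t : ℝ, 0 < t → 0 < v t) :
    ∃ (C' : ℝ) (v' : ℝ → ℝ), 0 < C' ∧ (∀ t : ℝ, 0 < t → 0 < v' t) ∧
      ∀ (E : Type) [NormedAddCommGroup E] [NormedSpace ℝ E] (f : E → ℝ) (D : E → E →L[ℝ] ℝ)
        (B : E → E →L[ℝ] E →L[ℝ] ℝ), Fn C v f D B →
        ∃ (D' : E → E →L[ℝ] ℝ) (B' : E → E →L[ℝ] E →L[ℝ] ℝ),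
          Fn C' v' (fun x => (f x + C) + (f x + C) ^ 2) D' B' := by
  refine ⟨(1 + 4 * C) * C + 4 * C ^ 2 + 2 * C + 1,
    fun t => min (v (t / (2 * (1 + 4 * C)))) (t / (12 * C ^ 2 + 1)), by positivity, ?_, ?_⟩
  · intro t ht
    exact lt_min (hv _ (by positivity)) (by positivity)
  intro E _ _ f D B h
  have hF0 : ∀ x : E, ‖x‖ < 1 → 0 ≤ f x + C := fun x hx => by
    linarith [(abs_le.1 (h.bf x hx)).1]
  have hF1 : ∀ x : E, ‖x‖ < 1 → f x + C ≤ 2 * C := fun x hx => by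
    linarith [(abs_le.1 (h.bf x hx)).2]
  have hs : ∀ x : E, ‖x‖ < 1 → |1 + 2 * (f x + C)| ≤ 1 + 4 * C := fun x hx => by
    rw [abs_of_nonneg (by linarith [hF0 x hx])]
    linarith [hF1 x hx]
  have h2D : ∀ x : E, ‖x‖ < 1 → ‖(2 : ℝ) • D x‖ ≤ 2 * C := fun x hx => by
    have e : ‖(2 : ℝ) • D x‖ = |(2 : ℝ)| * ‖D x‖ := n2_norm_smul (G := E →L[ℝ] ℝ) 2 (D x)
    rw [e, abs_of_pos (by norm_num : (0 : ℝ) < 2)]
    linarith [h.bD x hx]
  have hdF : ∀ x : E, ‖x‖ < 1 → HasFDerivAt (fun y => f y + C) (D x) x := fun x hx =>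
    (h.d1 x hx).add_const C
  have nB : ∀ z : E, 0 ≤ ‖B z‖ := fun z => n2_nn (G := E →L[ℝ] E →L[ℝ] ℝ) (B z)
  refine ⟨n2D C f D, n2B C f D B, ?_, ?_, ?_, ?_, ?_, ?_, ?_⟩
  · have h1 : ConvexOn ℝ (Metric.ball (0 : E) 1) (fun x => f x + C) := h.cvx.add_const C
    have h2 : ConvexOn ℝ (Metric.ball (0 : E) 1) ((fun x => f x + C) ^ 2) :=
      h1.pow (fun x hx => hF0 x (by simpa using hx)) 2
    exact h1.add h2
  · intro x hx
    have h1 := (hdF x hx).add ((hdF x hx).mul (hdF x hx))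
    have e1 : (fun y => f y + C) + ((fun y => f y + C) * (fun y => f y + C)) =
        fun y => (f y + C) + (f y + C) ^ 2 := by
      funext y
      change (f y + C) + (f y + C) * (f y + C) = _
      ring
    have e2 : D x + ((f x + C) • D x + (f x + C) • D x) = n2D C f D x := by
      ext u
      change D x u + ((f x + C) * D x u + (f x + C) * D x u) = (1 + 2 * (f x + C)) * D x u
      ring
    rw [← e2, ← e1]
    exact h1
  · intro x hx
    have h1 : HasFDerivAt (fun y => 1 + 2 * (f y + C)) ((2 : ℝ) • D x) x :=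
      ((hdF x hx).const_mul 2).const_add 1
    exact h1.smul (h.d2 x hx)
  · intro x hx
    have h0 := hF0 x hx
    have h1 := hF1 x hx
    change |(f x + C) + (f x + C) ^ 2| ≤ _
    rw [abs_of_nonneg (by positivity)]
    nlinarith
  · intro x hx
    have h1 : ‖n2D C f D x‖ = |1 + 2 * (f x + C)| * ‖D x‖ :=
      n2_norm_smul (G := E →L[ℝ] ℝ) (1 + 2 * (f x + C)) (D x)
    rw [h1]
    have h2 := mul_le_mul (hs x hx) (h.bD x hx) (norm_nonneg _) (by positivity)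
    nlinarith
  · intro x hx
    have h1 : ‖n2B C f D B x‖ ≤ |1 + 2 * (f x + C)| * ‖B x‖ +
        ‖((2 : ℝ) • D x).smulRight (D x)‖ :=
      n2_norm (G := E →L[ℝ] E →L[ℝ] ℝ) (1 + 2 * (f x + C)) (B x)
        (((2 : ℝ) • D x).smulRight (D x))
    have h2 : ‖((2 : ℝ) • D x).smulRight (D x)‖ = ‖(2 : ℝ) • D x‖ * ‖D x‖ :=
      n2_smulR (G := E →L[ℝ] ℝ) ((2 : ℝ) • D x) (D x)
    have h3 := mul_le_mul (hs x hx) (h.bB x hx) (nB x) (by positivity)
    have h4 := mul_le_mul (h2D x hx) (h.bD x hx) (norm_nonneg _) (by positivity)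
    rw [h2] at h1
    nlinarith
  · intro t ht x y hx hy hxy
    have hv1 : ‖x - y‖ ≤ v (t / (2 * (1 + 4 * C))) := hxy.trans (min_le_left _ _)
    have hv2 : ‖x - y‖ ≤ t / (12 * C ^ 2 + 1) := hxy.trans (min_le_right _ _)
    have hB := h.uc (t / (2 * (1 + 4 * C))) (by positivity) x y hx hy hv1
    have hD : ‖D x - D y‖ ≤ C * ‖x - y‖ := n2_lip (F := D) (F' := B) h.d2 h.bB hx hy
    have hf : ‖f x - f y‖ ≤ C * ‖x - y‖ := n2_lip (F := f) (F' := D) h.d1 h.bD hx hy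
    rw [Real.norm_eq_abs] at hf
    have h1 : ‖n2B C f D B x - n2B C f D B y‖ ≤
        |1 + 2 * (f x + C)| * ‖B x - B y‖ +
          |(1 + 2 * (f x + C)) - (1 + 2 * (f y + C))| * ‖B y‖ +
          ‖((2 : ℝ) • D x).smulRight (D x) - ((2 : ℝ) • D y).smulRight (D y)‖ :=
      n2_diff (G := E →L[ℝ] E →L[ℝ] ℝ) (1 + 2 * (f x + C)) (1 + 2 * (f y + C)) (B x) (B y)
        (((2 : ℝ) • D x).smulRight (D x)) (((2 : ℝ) • D y).smulRight (D y))
    have h2 : ‖((2 : ℝ) • D x).smulRight (D x) - ((2 : ℝ) • D y).smulRight (D y)‖ ≤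
        ‖(2 : ℝ) • D x - (2 : ℝ) • D y‖ * ‖D x‖ + ‖(2 : ℝ) • D y‖ * ‖D x - D y‖ :=
      n2_smulR_sub (G := E →L[ℝ] ℝ) ((2 : ℝ) • D x) ((2 : ℝ) • D y) (D x) (D y)
    have h3 : ‖(2 : ℝ) • D x - (2 : ℝ) • D y‖ = 2 * ‖D x - D y‖ := by
      have e : ‖(2 : ℝ) • D x - (2 : ℝ) • D y‖ = |(2 : ℝ)| * ‖D x - D y‖ :=
        n2_smul_sub (G := E →L[ℝ] ℝ) 2 (D x) (D y)
      rw [e, abs_of_pos (by norm_num : (0 : ℝ) < 2)]
    have h4 : |(1 + 2 * (f x + C)) - (1 + 2 * (f y + C))| = 2 * |f x - f y| := by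
      have e : (1 + 2 * (f x + C)) - (1 + 2 * (f y + C)) = 2 * (f x - f y) := by ring
      rw [e, abs_mul, abs_of_pos (by norm_num : (0 : ℝ) < 2)]
    rw [h3] at h2
    rw [h4] at h1
    have hn := norm_nonneg (x - y)
    have nBs : 0 ≤ ‖B x - B y‖ := n2_nn (G := E →L[ℝ] E →L[ℝ] ℝ) (B x - B y)
    have k1 : |1 + 2 * (f x + C)| * ‖B x - B y‖ ≤ t / 2 := by
      refine (mul_le_mul (hs x hx) hB nBs (by positivity)).trans (le_of_eq ?_)
      field_simp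
    have k2 : 2 * |f x - f y| * ‖B y‖ ≤ 2 * (C * ‖x - y‖) * C :=
      mul_le_mul (by linarith) (h.bB y hy) (nB y) (by positivity)
    have k3 : 2 * ‖D x - D y‖ * ‖D x‖ ≤ 2 * (C * ‖x - y‖) * C :=
      mul_le_mul (by linarith) (h.bD x hx) (norm_nonneg _) (by positivity)
    have k4 : ‖(2 : ℝ) • D y‖ * ‖D x - D y‖ ≤ 2 * C * (C * ‖x - y‖) :=
      mul_le_mul (h2D y hy) hD (norm_nonneg _) (by positivity)
    have k5 : 6 * C ^ 2 * ‖x - y‖ ≤ t / 2 := by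
      rw [le_div_iff₀ (by positivity)] at hv2
      nlinarith
    nlinarith

end Pool.Agent.H47.FH
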