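import Pool.Agent.H47.FH.N1

/-!
# N3: an inequality
-/

set_option autoImplicit false

namespace Pool.Agent.H47.FH

/-- ROW N3a. With `a = F x`, `b = F y`, `c = F m`, `0 ≤ c ≤ (a + b) / 2`: `|a - c| + |b - c| ≤ |a - b| + (a + b - 2 c)` and `a ^ 2 + b ^ 2 - 2 c ^ 2 ≥ (a - b) ^ 2 / 2`. -/
theorem sep_le (a b c : ℝ) (hc : 0 ≤ c) (h : c ≤ (a + b) / 2) :
    |a - c| + |b - c| ≤ |a - b| + (a + b - 2 * c) ∧
      (a - b) ^ 2 / 2 ≤ a ^ 2 + b ^ 2 - 2 * c ^ 2 := by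
  constructor
  · rcases abs_cases (a - c) with ⟨h1, h2⟩ | ⟨h1, h2⟩ <;>
      rcases abs_cases (b - c) with ⟨h3, h4⟩ | ⟨h3, h4⟩ <;>
      rcases abs_cases (a - b) with ⟨h5, h6⟩ | ⟨h5, h6⟩ <;> linarith
  · have h1 : c ^ 2 ≤ ((a + b) / 2) ^ 2 := pow_le_pow_left₀ hc h 2
    nlinarith

/-- ROW N3b. `g = F + F ^ 2`, `F = f + C`. By N3a and convexity `sep f x y ≤ |F x - F y| + gap F x y` and `(F x - F y) ^ 2 / 2 ≤ gap (F ^ 2) x y`. Average (`u i = |F (x i) - F (y i)|`): `d ≤ ∑ p i * u i + ∑ p i * gap F`; by Jensen (`(∑ p i * u i) ^ 2 ≤ ∑ p i * u i ^ 2`, `inner_mul_le_norm_mul_norm`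
or `Finset.sum_mul_sq_le_sq_mul_sq`): if `∑ p i * gap F < d / 2` then `d / 2 ≤ ∑ p i * u i`, `d ^ 2 / 8 ≤ ∑ p i * u i ^ 2 / 2 ≤ ∑ p i * gap (F ^ 2)`. Both gaps are `≥ 0`. -/
theorem avg_gap_of_sep {E : Type*} [NormedAddCommGroup E] [NormedSpace ℝ E] {C d : ℝ}
    {v : ℝ → ℝ} {f : E → ℝ} {D : E → E →L[ℝ] ℝ} {B : E → E →L[ℝ] E →L[ℝ] ℝ} (hd : 0 < d)
    (hf : Fn C v f D B) (n : ℕ) (p : Fin n → ℝ) (x y : Fin n → E) (hp : ∀ i, 0 ≤ p i)
    (hp1 : ∑ i, p i = 1) (hxy : ∀ i, ‖x i‖ < 1 ∧ ‖y i‖ < 1)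
    (h : d ≤ ∑ i, p i * sep f (x i) (y i)) :
    min (d / 2) (d ^ 2 / 8) ≤
      ∑ i, p i * gap (fun x => (f x + C) + (f x + C) ^ 2) (x i) (y i) := by
  have key : ∀ i, ∃ u γ γ2 : ℝ, 0 ≤ γ ∧ sep f (x i) (y i) ≤ u + γ ∧ u ^ 2 / 2 ≤ γ2 ∧
      gap (fun x => (f x + C) + (f x + C) ^ 2) (x i) (y i) = γ + γ2 := by
    intro i
    obtain ⟨hx, hy⟩ := hxy i
    have hxb : x i ∈ Metric.ball (0 : E) 1 := by rw [mem_ball_zero_iff]; exact hx
    have hyb : y i ∈ Metric.ball (0 : E) 1 := by rw [mem_ball_zero_iff]; exact hy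
    have hm : (1 / 2 : ℝ) • (x i + y i) = (1 / 2 : ℝ) • x i + (1 / 2 : ℝ) • y i := smul_add _ _ _
    have hmb : (1 / 2 : ℝ) • (x i + y i) ∈ Metric.ball (0 : E) 1 := by
      rw [hm]
      exact hf.cvx.1 hxb hyb (by norm_num) (by norm_num) (by norm_num)
    have hmn : ‖(1 / 2 : ℝ) • (x i + y i)‖ < 1 := by rwa [mem_ball_zero_iff] at hmb
    have hcv : f ((1 / 2 : ℝ) • (x i + y i)) ≤ (1 / 2 : ℝ) * f (x i) + (1 / 2 : ℝ) * f (y i) := by
      rw [hm]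
      exact hf.cvx.2 hxb hyb (by norm_num) (by norm_num) (by norm_num)
    have hfm := abs_le.1 (hf.bf _ hmn)
    obtain ⟨h1, h2⟩ := sep_le (f (x i) + C) (f (y i) + C) (f ((1 / 2 : ℝ) • (x i + y i)) + C)
      (by linarith [hfm.1]) (by linarith)
    refine ⟨|f (x i) + C - (f (y i) + C)|,
      f (x i) + f (y i) - 2 * f ((1 / 2 : ℝ) • (x i + y i)),
      (f (x i) + C) ^ 2 + (f (y i) + C) ^ 2 - 2 * (f ((1 / 2 : ℝ) • (x i + y i)) + C) ^ 2,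
      by linarith, ?_, ?_, ?_⟩
    · unfold sep
      have e1 : f (x i) + C - (f ((1 / 2 : ℝ) • (x i + y i)) + C) =
          f (x i) - f ((1 / 2 : ℝ) • (x i + y i)) := by ring
      have e2 : f (y i) + C - (f ((1 / 2 : ℝ) • (x i + y i)) + C) =
          f (y i) - f ((1 / 2 : ℝ) • (x i + y i)) := by ring
      rw [e1, e2] at h1
      linarith
    · rw [sq_abs]
      exact h2
    · unfold gap
      ring
  choose u γ γ2 h2 h3 h4 h5 using key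
  have hs : d ≤ ∑ i, p i * u i + ∑ i, p i * γ i := by
    refine h.trans ?_
    rw [← Finset.sum_add_distrib]
    refine Finset.sum_le_sum fun i _ => ?_
    rw [← mul_add]
    exact mul_le_mul_of_nonneg_left (h3 i) (hp i)
  have hg : ∑ i, p i * gap (fun x => (f x + C) + (f x + C) ^ 2) (x i) (y i) =
      ∑ i, p i * γ i + ∑ i, p i * γ2 i := by
    rw [← Finset.sum_add_distrib]
    refine Finset.sum_congr rfl fun i _ => ?_
    rw [h5 i, mul_add]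
  have hγ : 0 ≤ ∑ i, p i * γ i := Finset.sum_nonneg fun i _ => mul_nonneg (hp i) (h2 i)
  have hγ2 : 0 ≤ ∑ i, p i * γ2 i := Finset.sum_nonneg fun i _ => mul_nonneg (hp i)
    ((by positivity : (0 : ℝ) ≤ u i ^ 2 / 2).trans (h4 i))
  have hj : d / 2 * ∑ i, p i * u i - d ^ 2 / 8 ≤ ∑ i, p i * γ2 i := by
    have e1 : d / 2 * ∑ i, p i * u i - d ^ 2 / 8 = ∑ i, p i * (d / 2 * u i - d ^ 2 / 8) := by
      have e2 : d ^ 2 / 8 = ∑ i, p i * (d ^ 2 / 8) := by rw [← Finset.sum_mul, hp1, one_mul]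
      conv_lhs => rw [e2, Finset.mul_sum, ← Finset.sum_sub_distrib]
      refine Finset.sum_congr rfl fun i _ => ?_
      ring
    rw [e1]
    refine Finset.sum_le_sum fun i _ => mul_le_mul_of_nonneg_left ?_ (hp i)
    refine le_trans ?_ (h4 i)
    nlinarith [sq_nonneg (u i - d / 2)]
  rw [hg]
  rcases le_total (d / 2) (∑ i, p i * γ i) with h6 | h6
  · exact (min_le_left _ _).trans (by linarith)
  · refine (min_le_right _ _).trans ?_
    have h7 : d / 2 ≤ ∑ i, p i * u i := by linarith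
    have h8 : d / 2 * (d / 2) ≤ d / 2 * ∑ i, p i * u i :=
      mul_le_mul_of_nonneg_left h7 (by linarith)
    nlinarith

end Pool.Agent.H47.FH
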