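import Pool.Agent.H47.FH.N2
import Pool.Agent.H47.FH.N3

/-!
# N4: families that are invisible to quadratic forms
-/

set_option autoImplicit false

namespace Pool.Agent.H47.FH

/-- For every finite family of pairs at distance at least `e` in the open unit ball and all
weights such that the average of `b (x - y) (x - y)` is at most `s` for every positive
semidefinite symmetric bilinear form `b` of norm at most 1, there is a function as in `Fn` which
separates the end points from the midpoints by at least `d` on the average. -/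
def Sep (e s C d : ℝ) (v : ℝ → ℝ) (E : Type*) [NormedAddCommGroup E] [NormedSpace ℝ E] : Prop :=
  ∀ (n : ℕ) (p : Fin n → ℝ) (x y : Fin n → E), (∀ i, 0 ≤ p i) → ∑ i, p i = 1 →
    (∀ i, ‖x i‖ < 1 ∧ ‖y i‖ < 1 ∧ e ≤ ‖x i - y i‖) →
    (∀ b : E →L[ℝ] E →L[ℝ] ℝ, ‖b‖ ≤ 1 → (∀ x y, b x y = b y x) → (∀ x, 0 ≤ b x x) →
      ∑ i, p i * b (x i - y i) (x i - y i) ≤ s) →
      ∃ (f : E → ℝ) (D : E → E →L[ℝ] ℝ) (B : E → E →L[ℝ] E →L[ℝ] ℝ),
        Fn C v f D B ∧ d ≤ ∑ i, p i * sep f (x i) (y i)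

/-- ROW N4a. `gap f x y ≤ sep f x y`. -/
theorem Avg.sep {e s C d : ℝ} {v : ℝ → ℝ} {E : Type*} [NormedAddCommGroup E] [NormedSpace ℝ E]
    (h : Avg e C d v E) : Sep e s C d v E := by
  intro n p x y hp hp1 hxy _
  obtain ⟨f, D, B, hf, hd⟩ := h n p x y hp hp1 hxy
  refine ⟨f, D, B, hf, hd.trans (Finset.sum_le_sum fun i _ => ?_)⟩
  refine mul_le_mul_of_nonneg_left ?_ (hp i)
  unfold gap Pool.Agent.H47.FH.sep
  have h1 := le_abs_self (f (x i) - f ((1 / 2 : ℝ) • (x i + y i)))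
  have h2 := le_abs_self (f (y i) - f ((1 / 2 : ℝ) • (x i + y i)))
  linarith

/-- ROW N4b. `C₁`, `v₁` from `Fn.sq`; `C' = max 1 C₁`, `v' = v₁`, `d' = min (s / 4) (min (d / 2) (d ^ 2 / 8))`. If some form `b` has average `> s` take `f = b x x / 2` (`Fn.quad`, average gap `> s / 4`), otherwise the function from `Sep` and `avg_gap_of_sep`. -/
theorem exists_avg_of_sep {s C d : ℝ} {v : ℝ → ℝ} (hs : 0 < s) (hC : 0 < C) (hd : 0 < d)
    (hv : ∀ t : ℝ, 0 < t → 0 < v t) :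
    ∃ (C' d' : ℝ) (v' : ℝ → ℝ), 0 < C' ∧ 0 < d' ∧ (∀ t : ℝ, 0 < t → 0 < v' t) ∧
      ∀ (e : ℝ) (E : Type) [NormedAddCommGroup E] [NormedSpace ℝ E],
        Sep e s C d v E → Avg e C' d' v' E := by
  obtain ⟨C₁, v₁, hC₁, hv₁, hsq⟩ := Fn.sq hC hv
  refine ⟨max 1 C₁, min (s / 4) (min (d / 2) (d ^ 2 / 8)), v₁,
    lt_of_lt_of_le one_pos (le_max_left _ _), ?_, hv₁, ?_⟩
  · exact lt_min (by positivity) (lt_min (by positivity) (by positivity))
  intro e E _ _ h n p x y hp hp1 hxy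
  by_cases hb : ∀ b : E →L[ℝ] E →L[ℝ] ℝ, ‖b‖ ≤ 1 → (∀ x y, b x y = b y x) → (∀ x, 0 ≤ b x x) →
      ∑ i, p i * b (x i - y i) (x i - y i) ≤ s
  · obtain ⟨f, D, B, hf, hfd⟩ := h n p x y hp hp1 hxy hb
    obtain ⟨D', B', hF⟩ := hsq E f D B hf
    refine ⟨_, D', B', hF.mono (le_max_right _ _), (min_le_right _ _).trans ?_⟩
    exact avg_gap_of_sep hd hf n p x y hp hp1 (fun i => ⟨(hxy i).1, (hxy i).2.1⟩) hfd
  · push Not at hb
    obtain ⟨b, hb1, hbs, hbp, hlt⟩ := hb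
    obtain ⟨hq, hg⟩ := Fn.quad v₁ b hb1 hbs hbp
    refine ⟨_, _, _, hq.mono (le_max_left _ _), (min_le_left _ _).trans ?_⟩
    have e1 : ∑ i, p i * gap (fun x => b x x / 2) (x i) (y i) =
        (∑ i, p i * b (x i - y i) (x i - y i)) / 4 := by
      rw [Finset.sum_div]
      refine Finset.sum_congr rfl fun i _ => ?_
      rw [hg]
      ring
    rw [e1]
    linarith

end Pool.Agent.H47.FH
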