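import Pool.Agent.H47.FD.W6
import Pool.Agent.H47.FH.I1
import Pool.Agent.H47.FH.H1

/-!
# W7: uniform constants from sums
-/

set_option autoImplicit false

open Filter Topology ENNReal TopologicalSpace

namespace Pool.Agent.H47.FH

open Pool.Agent.H47.SR Pool.Agent.H47.SS Pool.Agent.H47.FD

theorem unifC2_norm_sum {w : ℝ → ℝ} (hw : ∀ ε : ℝ, 0 < ε → 0 < w ε) {ι : Type}
    {E : ι → Type} [∀ i, NormedAddCommGroup (E i)] [∀ i, NormedSpace ℝ (E i)]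
    (h : ∀ i, Smooth w (E i)) : UnifC2 (fun x : lp E 3 => ‖x‖) := by
  have h1 := lp_unifC2 one_pos hw _ (fun i => (h i).mod)
  have h2 : (fun x : lp E 3 => (∑' i, ‖x i‖ ^ 3) ^ (1 / 3 : ℝ)) = fun x : lp E 3 => ‖x‖ := by
    funext x
    rw [← (cube_eq x).2, ← Real.rpow_natCast, ← Real.rpow_mul (norm_nonneg x)]
    norm_num
  rwa [h2] at h1

/-- If the conclusion holds for all `ℓ₃`-sums of countable families of finite-dimensional spaces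
whose norms have the modulus `w`, then there are common moduli in the conclusion for all
finite-dimensional spaces whose norms have the modulus `w`, with any constant `K > 1`. -/
theorem fin_of_sums_K {w : ℝ → ℝ} (hw : ∀ ε : ℝ, 0 < ε → 0 < w ε)
    (h : ∀ (ι : Type) [Countable ι] (E : ι → Type) [∀ i, NormedAddCommGroup (E i)]
      [∀ i, NormedSpace ℝ (E i)] [∀ i, FiniteDimensional ℝ (E i)],
      (∀ i, Smooth w (E i)) → ∃ N : lp E 3 → ℝ, PNorm N) {K : ℝ} (hK : 1 < K) :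
    ∃ (δ ω : ℝ → ℝ), (∀ ε : ℝ, 0 < ε → 0 < δ ε) ∧ (∀ ε : ℝ, 0 < ε → 0 < ω ε) ∧
      ∀ (E : Type) [NormedAddCommGroup E] [NormedSpace ℝ E] [FiniteDimensional ℝ E],
        Smooth w E → ∃ N : E → ℝ, Mod K δ ω N := by
  by_contra hcon
  push Not at hcon
  let ι : Type := {t : (ℝ → ℝ) × (ℝ → ℝ) // (∀ ε : ℝ, 0 < ε → 0 < t.1 ε) ∧
    ∀ ε : ℝ, 0 < ε → 0 < t.2 ε}
  have h1 : ∀ i : ι, ∃ (E : Type) (_ : NormedAddCommGroup E) (_ : NormedSpace ℝ E),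
      FiniteDimensional ℝ E ∧ Smooth w E ∧
        ∀ N : E → ℝ, ¬ Mod K i.1.1 i.1.2 N := fun i =>
    hcon i.1.1 i.1.2 i.2.1 i.2.2
  choose E e1 e2 e3 hν hbad using h1
  obtain ⟨N, hN⟩ := separably_determined (X := lp E 3) (fun Y _ hsep => by
    obtain ⟨J, hJ, hs⟩ := exists_countable_support Y hsep
    obtain ⟨g⟩ := exists_restr J Y hs
    have : Countable J := hJ
    obtain ⟨N, hN⟩ := h J (fun j : J => E j) (fun j => hν j)
    obtain ⟨K, δ, ω, hK, hp, hM⟩ := hN.exists_mod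
    exact ⟨_, (hM.comp g).pnorm hK (fun ε hε => (hp ε hε).1) (fun ε hε => (hp ε hε).2)⟩)
  obtain ⟨N1, hN1, hb⟩ := exists_improve (unifC2_norm_sum hw hν) hN hK
  obtain ⟨K', δ, ω, -, hp, hM⟩ := hN1.exists_mod
  have hM' : Mod K δ ω N1 := by
    refine ⟨fun x => ?_, fun x => (hb x).2, hM.tri, hM.hom, hM.ucv, hM.c2, hM.cnt⟩
    have h2 : 0 ≤ N1 x := (norm_nonneg x).trans (hb x).1
    have h3 := (hb x).1
    nlinarith
  let i : ι := ⟨(δ, ω), fun ε hε => (hp ε hε).1, fun ε hε => (hp ε hε).2⟩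
  obtain ⟨g⟩ := exists_single (E := E) i
  exact hbad i _ (hM'.comp g)

universe u

theorem exists_avg (K : ℝ) (δ ω : ℝ → ℝ) (hK : 0 < K) (hδ : ∀ ε : ℝ, 0 < ε → 0 < δ ε)
    (hω : ∀ ε : ℝ, 0 < ε → 0 < ω ε) (e : ℝ) (he : 0 < e) :
    ∃ (C d : ℝ) (v : ℝ → ℝ), 0 < C ∧ 0 < d ∧ (∀ t : ℝ, 0 < t → 0 < v t) ∧
      ∀ (E : Type u) [NormedAddCommGroup E] [NormedSpace ℝ E],
        (∃ N : E → ℝ, Mod K δ ω N) → Avg e C d v E := by
  obtain ⟨C, v, hC, hv, h1⟩ := exists_fn.{u} K δ ω hK hδ hω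
  obtain ⟨d, hd, h2⟩ := exists_gap.{u} K δ ω hK hδ e he
  refine ⟨C, d, v, hC, hd, hv, ?_⟩
  rintro E _ _ ⟨N, hN⟩ n p x y hp hp1 hxy
  refine ⟨_, _, _, h1 E N hN, ?_⟩
  calc d = ∑ i, p i * d := by rw [← Finset.sum_mul, hp1, one_mul]
    _ ≤ _ := Finset.sum_le_sum fun i _ => mul_le_mul_of_nonneg_left
      (h2 E N hN (x i) (y i) (hxy i).1 (hxy i).2.1 (hxy i).2.2) (hp i)

end Pool.Agent.H47.FH
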